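import Pool.Agent.PPC.Defs

/-!
# Module PPC/Chi: the characters

PROOF. `chi D` is completely multiplicative (`jacobiSym.mul_right`), has values in `{-1, 0, 1}`
(`jacobiSym.trichotomy`) and is periodic modulo `q = 4 |D|`: for odd `n` by `jacobiSym.mod_right`, and
`n % q` has the parity of `n`. If `chi D a = -1` for some `a` coprime to `q`, then the sum over a full
period vanishes (`n ↦ a n` permutes the residues modulo `q`, so the sum is equal to its negative), and
all partial sums are at most `q` in absolute value: write `N = q m + s`, `s < q`. Here `q = 4 d` for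
`D = d`, `q = 12 d` for `D = -3 d`, `q = 12` for `D = -3`.
The number `a`: for `D = -3` take `a = 5`. For `D = d` or `-3 d` let `p ∣ d` be a prime (`p ≥ 5`), `u` a
nonresidue modulo `p`, and by the Chinese remainder theorem `a ≡ u (mod p)`, `a ≡ 1 (mod 24 (d / p))`
(`p` is coprime to `24 (d / p)` as `d` is squarefree). As `a ≡ 1 (mod 4)`: `J(d | a) = J(a | d) = J(a | p) J(a | d / p) = -1`
(`jacobiSym.quadratic_reciprocity_one_mod_four'`…), `J(-1 | a) = 1` and `J(3 | a) = J(a | 3) = 1`.
-/

set_option autoImplicit false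

namespace Pool.Agent.PPC

open Finset

theorem chi_odd {D : ℤ} {n : ℕ} (h : n % 2 = 1) : chi D n = (jacobiSym D n : ℝ) := by
  unfold chi
  rw [if_neg (by omega)]

theorem chi_even {D : ℤ} {n : ℕ} (h : n % 2 = 0) : chi D n = 0 := by
  unfold chi
  rw [if_pos h]

theorem chi_per (D : ℤ) (n : ℕ) : chi D (n + 4 * D.natAbs) = chi D n := by
  rcases Nat.mod_two_eq_zero_or_one n with h | h
  · rw [chi_even h, chi_even (by omega)]
  · rw [chi_odd h, chi_odd (by omega), jacobiSym.mod_right D (Nat.odd_iff.2 h),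
      jacobiSym.mod_right D (Nat.odd_iff.2 (show (n + 4 * D.natAbs) % 2 = 1 by omega)),
      Nat.add_mod_right]

theorem chi_mul (D : ℤ) (m n : ℕ) : chi D (m * n) = chi D m * chi D n := by
  rcases Nat.mod_two_eq_zero_or_one m with h | h
  · rw [chi_even h, chi_even (by rw [Nat.mul_mod, h]; simp), zero_mul]
  · rcases Nat.mod_two_eq_zero_or_one n with h' | h'
    · rw [chi_even h', chi_even (by rw [Nat.mul_mod, h']; simp), mul_zero]
    · rw [chi_odd h, chi_odd h', chi_odd (by rw [Nat.mul_mod, h, h']),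
        jacobiSym.mul_right' D (by omega) (by omega)]
      push_cast
      rfl

theorem chi_val (D : ℤ) (n : ℕ) : chi D n = -1 ∨ chi D n = 0 ∨ chi D n = 1 := by
  rcases Nat.mod_two_eq_zero_or_one n with h | h
  · right; left; exact chi_even h
  · rw [chi_odd h]
    rcases jacobiSym.trichotomy D n with h1 | h1 | h1 <;> rw [h1] <;> simp

theorem sum_bound {f : ℕ → ℝ} {q a : ℕ} (hq : 0 < q) (hmul : ∀ m n, f (m * n) = f m * f n)
    (hab : ∀ n, |f n| ≤ 1) (hper : ∀ n, f (n + q) = f n) (ha : f a = -1) (hcop : a.Coprime q)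
    (N : ℕ) : |∑ n ∈ range N, f n| ≤ q := by
  have hmod : ∀ n, f (n % q) = f n := by
    intro n
    have h1 : ∀ k m, f (m + q * k) = f m := by
      intro k
      induction k with
      | zero => intro m; simp
      | succ k ih => intro m; rw [Nat.mul_succ, ← add_assoc, hper, ih]
    conv_rhs => rw [← Nat.mod_add_div n q]
    rw [h1]
  have hinj : Set.InjOn (fun n => (a * n) % q) (range q : Set ℕ) := by
    intro n hn m hm h
    have h1 : a * n ≡ a * m [MOD q] := h
    have h2 : n ≡ m [MOD q] := Nat.ModEq.cancel_left_of_coprime (Nat.coprime_comm.1 hcop) h1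
    rw [coe_range, Set.mem_Iio] at hn hm
    rw [Nat.ModEq, Nat.mod_eq_of_lt hn, Nat.mod_eq_of_lt hm] at h2
    exact h2
  have himg : (range q).image (fun n => (a * n) % q) = range q := by
    apply Finset.eq_of_subset_of_card_le
    · intro x hx
      rw [mem_image] at hx
      obtain ⟨n, -, rfl⟩ := hx
      exact mem_range.2 (Nat.mod_lt _ hq)
    · rw [Finset.card_image_of_injOn hinj]
  have hzero : ∑ n ∈ range q, f n = 0 := by
    have h1 : ∑ n ∈ range q, f n = -∑ n ∈ range q, f n := by
      conv_lhs => rw [← himg]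
      rw [Finset.sum_image hinj, ← Finset.sum_neg_distrib]
      refine Finset.sum_congr rfl fun n _ => ?_
      rw [hmod, hmul, ha]
      ring
    linarith
  have hadd : ∀ N, ∑ n ∈ range (N + q), f n = ∑ n ∈ range N, f n := by
    intro N
    induction N with
    | zero => rw [Nat.zero_add, hzero]; simp
    | succ N ih =>
      rw [show N + 1 + q = N + q + 1 by ring, Finset.sum_range_succ, ih, Finset.sum_range_succ, hper]
  induction N using Nat.strong_induction_on with
  | _ N ih =>
    rcases lt_or_ge N q with h | h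
    · refine (Finset.abs_sum_le_sum_abs _ _).trans ?_
      refine (Finset.sum_le_sum fun n _ => hab n).trans ?_
      rw [Finset.sum_const, card_range, nsmul_eq_mul, mul_one]
      exact_mod_cast h.le
    · obtain ⟨k, rfl⟩ := Nat.exists_eq_add_of_le h
      rw [show q + k = k + q by ring, hadd]
      exact ih k (by omega)

theorem ch_of_neg {D : ℤ} (hD : D ≠ 0) {a : ℕ} (ha : chi D a = -1) :
    Ch (chi D) ((4 * D.natAbs : ℕ) : ℝ) := by
  have hodd : a % 2 = 1 := by
    rcases Nat.mod_two_eq_zero_or_one a with h | h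
    · rw [chi_even h] at ha
      norm_num at ha
    · exact h
  have hcop : a.Coprime (4 * D.natAbs) := by
    rw [chi_odd hodd] at ha
    have h1 : jacobiSym D a ≠ 0 := by
      intro h
      rw [h] at ha
      norm_num at ha
    have h2 : D.gcd a = 1 := by
      by_contra h3
      exact h1 (jacobiSym.eq_zero_iff.2 ⟨by omega, h3⟩)
    have h3 : Nat.Coprime a D.natAbs := by
      rw [Nat.coprime_comm]
      have : Int.gcd D a = Nat.gcd D.natAbs a := by simp [Int.gcd]
      rw [this] at h2
      exact h2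
    have h4 : Nat.Coprime a 4 := by
      rw [show (4 : ℕ) = 2 ^ 2 by norm_num]
      exact Nat.Coprime.pow_right 2 (Nat.Coprime.symm (Nat.coprime_two_left.2 (Nat.odd_iff.2 hodd)))
    exact h4.mul_right h3
  have hab : ∀ n, |chi D n| ≤ 1 := by
    intro n
    rcases chi_val D n with h | h | h <;> rw [h] <;> norm_num
  have hq : 0 < 4 * D.natAbs := by
    have := Int.natAbs_pos.2 hD
    omega
  exact ⟨chi_even (by norm_num), by rw [chi_odd (by norm_num)]; simp, chi_mul D, chi_val D,
    fun N => sum_bound hq (chi_mul D) hab (chi_per D) ha hcop N⟩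

theorem Ch.mono {f : ℕ → ℝ} {M M' : ℝ} (h : Ch f M) (hM : M ≤ M') : Ch f M' :=
  ⟨h.zero, h.one, h.mul, h.val, fun N => (h.bd N).trans hM⟩

theorem exists_a {d : ℕ} (hd : 1 < d) (hsq : Squarefree d) (h6 : d.Coprime 6) :
    ∃ a : ℕ, a % 4 = 1 ∧ a % 3 = 1 ∧ jacobiSym d a = -1 := by
  obtain ⟨p, hp, hpd⟩ := Nat.exists_prime_and_dvd (show d ≠ 1 by omega)
  obtain ⟨e, rfl⟩ := hpd
  haveI : Fact p.Prime := ⟨hp⟩
  have hp6 : p.Coprime 6 := Nat.Coprime.coprime_mul_right h6
  have hpe : p.Coprime e := Nat.coprime_of_squarefree_mul hsq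
  have hp2 : p.Coprime 2 := Nat.Coprime.coprime_dvd_right (by norm_num) hp6
  have hp3 : p.Coprime 3 := Nat.Coprime.coprime_dvd_right (by norm_num) hp6
  have hp24 : p.Coprime (24 * e) := by
    refine Nat.Coprime.mul_right ?_ hpe
    rw [show (24 : ℕ) = 2 ^ 3 * 3 by norm_num]
    exact (hp2.pow_right 3).mul_right hp3
  have he0 : e ≠ 0 := by rintro rfl; simp at hd
  have hchar : ringChar (ZMod p) ≠ 2 := by
    rw [ZMod.ringChar_zmod_n]
    rintro rfl
    norm_num at hp2
  obtain ⟨u, hu⟩ := FiniteField.exists_nonsquare hchar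
  obtain ⟨k, hk1, hk2⟩ := Nat.chineseRemainder hp24 u.val 1
  have hk4 : k % 4 = 1 := (hk2.of_dvd (show 4 ∣ 24 * e from ⟨6 * e, by ring⟩))
  have hk3 : k % 3 = 1 := (hk2.of_dvd (show 3 ∣ 24 * e from ⟨8 * e, by ring⟩))
  have hke : k ≡ 1 [MOD e] := hk2.of_dvd (show e ∣ 24 * e from ⟨24, by ring⟩)
  refine ⟨k, hk4, hk3, ?_⟩
  have hodd : Odd (p * e) := by
    rw [← Nat.not_even_iff_odd, even_iff_two_dvd]
    intro h2
    have := Nat.dvd_gcd h2 (show 2 ∣ 6 by norm_num)
    rw [h6] at this
    norm_num at this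
  rw [jacobiSym.quadratic_reciprocity_one_mod_four' hodd hk4, jacobiSym.mul_right' _ hp.ne_zero he0]
  have h1 : jacobiSym (k : ℤ) p = -1 := by
    rw [← jacobiSym.legendreSym.to_jacobiSym, legendreSym.eq_neg_one_iff]
    have h2 : (((k : ℤ)) : ZMod p) = u := by
      rw [Int.cast_natCast, (ZMod.natCast_eq_natCast_iff _ _ _).2 hk1, ZMod.natCast_zmod_val]
    rw [h2]
    exact hu
  have h2 : jacobiSym (k : ℤ) e = 1 := by
    rw [jacobiSym.mod_left' (a₂ := 1), jacobiSym.one_left]
    have : ((k : ℕ) : ℤ) % (e : ℤ) = ((1 : ℕ) : ℤ) % (e : ℤ) := by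
      exact_mod_cast hke
    exact_mod_cast this
  rw [h1, h2]
  norm_num

theorem ch_chi {d : ℕ} (hd : 1 < d) (hsq : Squarefree d) (h6 : d.Coprime 6) :
    Ch (chi d) (12 * d) ∧ Ch (chi (-3 * d)) (12 * d) := by
  obtain ⟨a, ha4, ha3, ha⟩ := exists_a hd hsq h6
  have hodd : a % 2 = 1 := by omega
  have hOdd : Odd a := Nat.odd_iff.2 hodd
  constructor
  · refine (ch_of_neg (a := a) (by omega) ?_).mono ?_
    · rw [chi_odd hodd, ha]; norm_num
    · rw [Int.natAbs_natCast]
      push_cast
      have : (0 : ℝ) ≤ d := Nat.cast_nonneg d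
      linarith
  · refine (ch_of_neg (a := a) (by omega) ?_).mono ?_
    · rw [chi_odd hodd]
      have h1 : (-3 * (d : ℤ)) = -1 * ((3 : ℕ) : ℤ) * d := by push_cast; ring
      rw [h1, jacobiSym.mul_left, jacobiSym.mul_left, ha, jacobiSym.at_neg_one hOdd,
        ZMod.χ₄_nat_one_mod_four ha4,
        jacobiSym.quadratic_reciprocity_one_mod_four' (by decide) ha4]
      have h2 : jacobiSym (a : ℤ) 3 = 1 := by
        rw [jacobiSym.mod_left' (a₂ := 1), jacobiSym.one_left]
        omega
      rw [h2]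
      norm_num
    · have : (-3 * (d : ℤ)).natAbs = 3 * d := by
        rw [Int.natAbs_mul, Int.natAbs_natCast]; rfl
      rw [this]
      push_cast
      linarith

theorem ch_three : Ch (chi (-3)) 12 := by
  have h : chi (-3) 5 = -1 := by
    rw [chi_odd (by norm_num)]
    norm_num
  have := ch_of_neg (D := -3) (a := 5) (by norm_num) h
  norm_num at this
  exact this

end Pool.Agent.PPC
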