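import Pool.Agent.PPC.Part
import Pool.Agent.PPC.Chi
import Pool.Agent.PalSieve.Mertens

/-!
# Module PPC/Avg: the weight of the bad primes

PROOFS. Let `k = #T`, `b = ∏ T`, `r ∈ (z, w]` prime; `r > z ≥ 12 b + 2` is odd and coprime to all `p ∈ T`.
`p` is a square modulo `r` iff `J(p | r) = 1` (otherwise `J(p | r) = -1`; `jacobiSym.legendreSym.to_jacobiSym`,
`legendreSym.eq_one_iff`…), so the indicator of `¬ Bad T r` is
`∏_{p ∈ T} (1 + J(p | r)) / 2 = 2^(-k) ∑_{U ⊆ T} chi (∏ U) r` (`Finset.prod_one_add` / `prod_add`,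
`jacobiSym.mul_left`). For `U = ∅` the term is `1`, for `U ≠ ∅` the number `d = ∏ U` is squarefree, coprime to
`6`, `> 1`, `≤ b`, and `ch_chi`, `sum_inv_le` apply (`M = 12 d ≤ z`). So
`∑_{r bad} 1 / r = (1 - 2^(-k)) ∑_r 1 / r - 2^(-k) ∑_{U ≠ ∅} ∑_r chi (∏ U) r / r
  ≥ (1 - 2^(-k)) ∑_r 1 / r - C`
and `∑_r 1 / r ≥ log log w - log log z - C'` (`Pool.Agent.Sv.abs_sum_inv_sub_le`;
`log log (z + 1) ≤ log log z + 1`). This is `avg_neo`.
`avg_plane`: for a prime `r ≥ 5`: `rhoP r = 1 + chi (-3) r` (`J(-3 | r)` depends only on `r % 12`,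
`jacobiSym.mod_right`, and `norm_num`/`decide` for `r % 12 ∈ {1, 5, 7, 11}`), and
`chi (-3) r * chi d r = chi (-3 d) r`. So there are the additional terms
`(1 - 2^(-k)) ∑_r chi (-3) r / r ≥ -C` (`sum_inv_ge ch_three`; this is where a lower bound is needed) and
`-2^(-k) ∑_{U ≠ ∅} ∑_r chi (-3 ∏ U) r / r ≥ -C` (`ch_chi`, `sum_inv_le`).
-/

set_option autoImplicit false

namespace Pool.Agent.PPC

open Finset Classical

theorem chi_mul_left (a b : ℤ) (n : ℕ) : chi (a * b) n = chi a n * chi b n := by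
  unfold chi
  split_ifs with h
  · simp
  · rw [jacobiSym.mul_left]; push_cast; ring

theorem chi_prod_left (U : Finset ℕ) {n : ℕ} (hn : n % 2 ≠ 0) :
    chi ((∏ p ∈ U, p : ℕ) : ℤ) n = ∏ p ∈ U, chi (p : ℤ) n := by
  induction U using Finset.induction_on with
  | empty => simp [chi, hn, jacobiSym.one_left]
  | insert a U ha ih =>
    rw [prod_insert ha, prod_insert ha, Nat.cast_mul, chi_mul_left, ih]

theorem chi_prime_eq {p r : ℕ} (hr : r.Prime) (hr2 : r % 2 ≠ 0) (hp : p.Prime) (hpr : p < r) :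
    chi (p : ℤ) r = if IsSquare ((p : ℕ) : ZMod r) then 1 else -1 := by
  have : Fact r.Prime := ⟨hr⟩
  have h0 : ((p : ℕ) : ZMod r) ≠ 0 := by
    rw [Ne, ZMod.natCast_eq_zero_iff]
    intro h
    have := Nat.le_of_dvd hp.pos h
    omega
  have h1 : chi (p : ℤ) r = ((legendreSym r (p : ℤ) : ℤ) : ℝ) := by
    rw [jacobiSym.legendreSym.to_jacobiSym]
    unfold chi
    rw [if_neg hr2]
  rw [h1]
  split_ifs with h
  · rw [(legendreSym.eq_one_iff' r h0).2 h]; norm_num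
  · rw [(legendreSym.eq_neg_one_iff' r).2 h]; norm_num

theorem indic_bad {T : Finset ℕ} {r : ℕ} (hr : r.Prime) (hr2 : r % 2 ≠ 0)
    (hT : ∀ p ∈ T, p.Prime ∧ p < r) :
    (if Bad T r then (1 : ℝ) else 0) = (1 - 1 / 2 ^ #T) -
      1 / 2 ^ #T * ∑ U ∈ T.powerset.erase ∅, chi ((∏ p ∈ U, p : ℕ) : ℤ) r := by
  have h1 : ∑ U ∈ T.powerset, chi ((∏ p ∈ U, p : ℕ) : ℤ) r = ∏ p ∈ T, (1 + chi (p : ℤ) r) := by
    rw [Finset.prod_one_add]
    exact sum_congr rfl fun U _ => chi_prod_left U hr2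
  have h2 : ∑ U ∈ T.powerset, chi ((∏ p ∈ U, p : ℕ) : ℤ) r =
      1 + ∑ U ∈ T.powerset.erase ∅, chi ((∏ p ∈ U, p : ℕ) : ℤ) r := by
    rw [← Finset.add_sum_erase _ _ (Finset.empty_mem_powerset T)]
    congr 1
    rw [chi_prod_left _ hr2]; simp
  have h3 : (2 : ℝ) ^ #T ≠ 0 := by positivity
  by_cases hB : Bad T r
  · rw [if_pos hB]
    have h4 : ∏ p ∈ T, (1 + chi (p : ℤ) r) = 0 := by
      obtain ⟨p, hp, hps⟩ := hB
      refine prod_eq_zero hp ?_
      rw [chi_prime_eq hr hr2 (hT p hp).1 (hT p hp).2, if_neg hps]; norm_num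
    have h5 : ∑ U ∈ T.powerset.erase ∅, chi ((∏ p ∈ U, p : ℕ) : ℤ) r = -1 := by
      rw [h1, h4] at h2; linarith
    rw [h5]; ring
  · rw [if_neg hB]
    have h4 : ∏ p ∈ T, (1 + chi (p : ℤ) r) = 2 ^ #T := by
      rw [← prod_const]
      refine prod_congr rfl fun p hp => ?_
      have : IsSquare ((p : ℕ) : ZMod r) := by
        by_contra h
        exact hB ⟨p, hp, h⟩
      rw [chi_prime_eq hr hr2 (hT p hp).1 (hT p hp).2, if_pos this]; norm_num
    have h5 : ∑ U ∈ T.powerset.erase ∅, chi ((∏ p ∈ U, p : ℕ) : ℤ) r = 2 ^ #T - 1 := by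
      rw [h1, h4] at h2; linarith
    rw [h5]
    field_simp
    ring

theorem sum_bad (g : ℕ → ℝ) {T : Finset ℕ} {z w : ℕ} (hT : ∀ p ∈ T, p.Prime)
    (hz : ∀ p ∈ T, p ≤ z) (hz2 : 2 ≤ z) :
    ∑ r ∈ (Ioc z w).filter (fun r => r.Prime ∧ Bad T r), g r / r =
      (1 - 1 / 2 ^ #T) * ∑ r ∈ (Ioc z w).filter Nat.Prime, g r / r -
      1 / 2 ^ #T * ∑ U ∈ T.powerset.erase ∅, ∑ r ∈ (Ioc z w).filter Nat.Prime,
        g r * chi ((∏ p ∈ U, p : ℕ) : ℤ) r / r := by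
  have h1 : ∑ r ∈ (Ioc z w).filter (fun r => r.Prime ∧ Bad T r), g r / r =
      ∑ r ∈ (Ioc z w).filter Nat.Prime, (if Bad T r then (1 : ℝ) else 0) * (g r / r) := by
    rw [← filter_filter, sum_filter]
    refine sum_congr rfl fun r _ => ?_
    split_ifs <;> simp
  rw [h1, sum_comm, mul_sum, mul_sum, ← sum_sub_distrib]
  refine sum_congr rfl fun r hr => ?_
  rw [mem_filter, mem_Ioc] at hr
  have hr2 : r % 2 ≠ 0 := by
    have := hr.2.eq_two_or_odd
    omega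
  rw [indic_bad hr.2 hr2 fun p hp => ⟨hT p hp, by have := hz p hp; omega⟩]
  have h2 : ∑ U ∈ T.powerset.erase ∅, g r * chi ((∏ p ∈ U, p : ℕ) : ℤ) r / r =
      (∑ U ∈ T.powerset.erase ∅, chi ((∏ p ∈ U, p : ℕ) : ℤ) r) * (g r / r) := by
    rw [sum_mul]
    exact sum_congr rfl fun U _ => by ring
  rw [h2]; ring

theorem prod_facts {T U : Finset ℕ} (hT : ∀ p ∈ T, p.Prime ∧ 5 ≤ p) (hU : U ∈ T.powerset.erase ∅) :
    1 < ∏ p ∈ U, p ∧ Squarefree (∏ p ∈ U, p) ∧ (∏ p ∈ U, p).Coprime 6 ∧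
      ∏ p ∈ U, p ≤ ∏ p ∈ T, p := by
  rw [mem_erase, mem_powerset] at hU
  obtain ⟨hne, hUT⟩ := hU
  obtain ⟨q, hq⟩ := nonempty_iff_ne_empty.2 hne
  have hpos : ∀ p ∈ T, 1 ≤ p := fun p hp => by have := (hT p hp).2; omega
  refine ⟨?_, ?_, ?_, ?_⟩
  · have h1 : q ≤ ∏ p ∈ U, p :=
      Nat.le_of_dvd (prod_pos fun p hp => hpos p (hUT hp)) (dvd_prod_of_mem _ hq)
    have := (hT q (hUT hq)).2
    omega
  · have : ∀ V : Finset ℕ, V ⊆ T → Squarefree (∏ p ∈ V, p) := by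
      intro V
      induction V using Finset.induction_on with
      | empty => intro _; simp
      | insert a V ha ih =>
        intro hV
        rw [prod_insert ha, Nat.squarefree_mul_iff]
        refine ⟨?_, (hT a (hV (mem_insert_self _ _))).1.prime.squarefree,
          ih ((subset_insert _ _).trans hV)⟩
        refine Nat.Coprime.prod_right fun p hp => ?_
        rw [Nat.coprime_primes (hT a (hV (mem_insert_self _ _))).1
          (hT p (hV (mem_insert_of_mem hp))).1]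
        rintro rfl
        exact ha hp
    exact this U hUT
  · refine Nat.Coprime.prod_left fun p hp => ?_
    have hp' := hT p (hUT hp)
    have h2 : Nat.Coprime p 2 := (Nat.coprime_primes hp'.1 Nat.prime_two).2 (by omega)
    have h3 : Nat.Coprime p 3 := (Nat.coprime_primes hp'.1 Nat.prime_three).2 (by omega)
    exact Nat.Coprime.mul_right h2 h3
  · exact prod_le_prod_of_subset_of_one_le' hUT fun p hp _ => hpos p hp

theorem sum_prime_inv_ge {z w : ℕ} (hz : 14 ≤ z) (hzw : z ≤ w) :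
    Real.log (Real.log w) - Real.log (Real.log z) - 10 ≤
      ∑ r ∈ (Ioc z w).filter Nat.Prime, (1 : ℝ) / r := by
  have hset : (Ioc z w).filter Nat.Prime = (Ico (z + 1) (w + 1)).filter Nat.Prime := by
    congr 1
    ext x; simp only [mem_Ioc, mem_Ico]; omega
  rw [hset]
  have h2 := (abs_le.mp (Pool.Agent.Sv.abs_sum_inv_sub_le (n := z + 1) (m := w + 1) (by omega)
    (by omega))).1
  have hz0 : (14 : ℝ) ≤ z := by exact_mod_cast hz
  have hlz : 1 ≤ Real.log z := by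
    rw [Real.le_log_iff_exp_le (by linarith)]
    have := Real.exp_one_lt_d9
    linarith
  have hlw : Real.log z ≤ Real.log w :=
    Real.log_le_log (by linarith) (by exact_mod_cast hzw)
  have hlz1 : Real.log z ≤ Real.log ((z + 1 : ℕ) : ℝ) :=
    Real.log_le_log (by linarith) (by push_cast; linarith)
  have hlw1 : Real.log w ≤ Real.log ((w + 1 : ℕ) : ℝ) :=
    Real.log_le_log (by have : (z : ℝ) ≤ w := by exact_mod_cast hzw
                        linarith) (by push_cast; linarith)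
  have h3 : 9 / Real.log ((z + 1 : ℕ) : ℝ) ≤ 9 := by
    rw [div_le_iff₀ (by linarith)]; nlinarith
  have h4 : Real.log ((z + 1 : ℕ) : ℝ) ≤ 2 * Real.log z := by
    have h6 : ((z + 1 : ℕ) : ℝ) ≤ (z : ℝ) ^ 2 := by
      have : z + 1 ≤ z ^ 2 := by nlinarith
      exact_mod_cast this
    calc Real.log ((z + 1 : ℕ) : ℝ) ≤ Real.log ((z : ℝ) ^ 2) :=
          Real.log_le_log (by positivity) h6
      _ = 2 * Real.log z := by rw [Real.log_pow]; norm_num
  have h5 : Real.log (Real.log ((z + 1 : ℕ) : ℝ)) ≤ Real.log (Real.log z) + 1 := by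
    calc Real.log (Real.log ((z + 1 : ℕ) : ℝ)) ≤ Real.log (2 * Real.log z) :=
          Real.log_le_log (by linarith) h4
      _ = Real.log 2 + Real.log (Real.log z) := Real.log_mul (by norm_num) (by linarith)
      _ ≤ Real.log (Real.log z) + 1 := by have := Real.log_two_lt_d9; linarith
  have h6 : Real.log (Real.log w) ≤ Real.log (Real.log ((w + 1 : ℕ) : ℝ)) :=
    Real.log_le_log (by linarith) hlw1
  linarith

theorem main_term {T : Finset ℕ} {z w : ℕ} (hz : 14 ≤ z) (hzw : z ≤ w) :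
    (1 - 1 / 2 ^ #T) * (Real.log (Real.log w) - Real.log (Real.log z)) - 10 ≤
      (1 - 1 / 2 ^ #T) * ∑ r ∈ (Ioc z w).filter Nat.Prime, (1 : ℝ) / r := by
  have h1 := sum_prime_inv_ge hz hzw
  have h2 : (0 : ℝ) ≤ 1 - 1 / 2 ^ #T := by
    rw [sub_nonneg, div_le_one (by positivity)]
    exact one_le_pow₀ (by norm_num)
  have h3 : (1 : ℝ) - 1 / 2 ^ #T ≤ 1 := by
    have : (0 : ℝ) ≤ 1 / 2 ^ #T := by positivity
    linarith
  nlinarith [mul_le_mul_of_nonneg_left h1 h2]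

theorem err_term {T : Finset ℕ} (F : Finset ℕ → ℝ) {C : ℝ} (hC : 0 ≤ C)
    (h : ∀ U ∈ T.powerset.erase ∅, F U ≤ C) :
    1 / 2 ^ #T * ∑ U ∈ T.powerset.erase ∅, F U ≤ C := by
  have h1 : ∑ U ∈ T.powerset.erase ∅, F U ≤ 2 ^ #T * C := by
    calc ∑ U ∈ T.powerset.erase ∅, F U ≤ ∑ _U ∈ T.powerset.erase ∅, C := sum_le_sum h
      _ = #(T.powerset.erase ∅) * C := by rw [sum_const, nsmul_eq_mul]
      _ ≤ 2 ^ #T * C := by
        refine mul_le_mul_of_nonneg_right ?_ hC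
        have : #(T.powerset.erase ∅) ≤ 2 ^ #T := by
          rw [← card_powerset]; exact card_le_card (erase_subset _ _)
        exact_mod_cast this
  have h2 : (0 : ℝ) < 2 ^ #T := by positivity
  rw [one_div, inv_mul_le_iff₀ h2]
  exact h1

theorem le_z {T : Finset ℕ} {z : ℕ} (hT : ∀ p ∈ T, p.Prime ∧ 5 ≤ p)
    (hz : 12 * (∏ p ∈ T, p) + 2 ≤ z) : 14 ≤ z ∧ ∀ p ∈ T, p ≤ z := by
  have h1 : 1 ≤ ∏ p ∈ T, p := prod_pos fun p hp => (hT p hp).1.pos
  refine ⟨by omega, fun p hp => ?_⟩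
  have := Nat.le_of_dvd h1 (dvd_prod_of_mem (fun p => p) hp)
  omega

theorem avg_neo : ∃ C : ℝ, ∀ (T : Finset ℕ) (z w : ℕ), (∀ p ∈ T, p.Prime ∧ 5 ≤ p) →
    12 * (∏ p ∈ T, p) + 2 ≤ z → z ≤ w →
    (1 - 1 / 2 ^ #T) * (Real.log (Real.log w) - Real.log (Real.log z)) - C ≤
      ∑ r ∈ (Ioc z w).filter (fun r => r.Prime ∧ Bad T r), ((1 : ℕ) : ℝ) / r := by
  obtain ⟨C, hC0, hC⟩ := sum_inv_le
  refine ⟨C + 10, fun T z w hT hz hzw => ?_⟩
  obtain ⟨hz14, hTz⟩ := le_z hT hz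
  have h1 := sum_bad (fun _ => ((1 : ℕ) : ℝ)) (w := w) (fun p hp => (hT p hp).1) hTz
    (by omega : 2 ≤ z)
  rw [h1]
  have h2 := main_term (T := T) hz14 hzw
  have h3 := err_term (T := T) (fun U => ∑ r ∈ (Ioc z w).filter Nat.Prime,
        ((1 : ℕ) : ℝ) * chi ((∏ p ∈ U, p : ℕ) : ℤ) r / r) hC0.le (fun U hU => by
      obtain ⟨a1, a2, a3, a4⟩ := prod_facts hT hU
      have := hC _ _ (ch_chi a1 a2 a3).1 z w (by omega) (by
        have : 12 * ∏ p ∈ U, p ≤ z := by omega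
        exact_mod_cast this) hzw
      simpa using this)
  simp only [Nat.cast_one] at h2 h3 ⊢
  linarith

theorem rhoP_eq {r : ℕ} (hr : r.Prime) (h5 : 5 ≤ r) : (rhoP r : ℝ) = 1 + chi (-3) r := by
  have hodd : r % 2 = 1 := by
    have := hr.eq_two_or_odd
    omega
  have h3 : r % 3 ≠ 0 := by
    intro h
    have := (Nat.prime_dvd_prime_iff_eq Nat.prime_three hr).1 (Nat.dvd_of_mod_eq_zero h)
    omega
  have h12 : r % 12 = 1 ∨ r % 12 = 5 ∨ r % 12 = 7 ∨ r % 12 = 11 := by omega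
  unfold rhoP chi
  rw [if_neg (by omega : ¬ r % 2 = 0), jacobiSym.mod_right (-3) (Nat.odd_iff.2 hodd)]
  have h4 : 4 * (-3 : ℤ).natAbs = 12 := by norm_num
  rw [h4]
  rcases h12 with h | h | h | h <;> rw [h]
  · rw [if_pos (by omega)]; norm_num
  · rw [if_neg (by omega)]
    have : jacobiSym (-3) 5 = -1 := by norm_num
    rw [this]; norm_num
  · rw [if_pos (by omega)]
    have : jacobiSym (-3) 7 = 1 := by norm_num
    rw [this]; norm_num
  · rw [if_neg (by omega)]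
    have : jacobiSym (-3) 11 = -1 := by norm_num
    rw [this]; norm_num

theorem avg_plane : ∃ C : ℝ, ∀ (T : Finset ℕ) (z w : ℕ), (∀ p ∈ T, p.Prime ∧ 5 ≤ p) →
    12 * (∏ p ∈ T, p) + 2 ≤ z → z ≤ w →
    (1 - 1 / 2 ^ #T) * (Real.log (Real.log w) - Real.log (Real.log z)) - C ≤
      ∑ r ∈ (Ioc z w).filter (fun r => r.Prime ∧ Bad T r), (rhoP r : ℝ) / r := by
  obtain ⟨C, hC0, hC⟩ := sum_inv_le
  obtain ⟨C₃, hC30, hC3⟩ := sum_inv_ge ch_three
  refine ⟨2 * C + C₃ + 10, fun T z w hT hz hzw => ?_⟩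
  obtain ⟨hz14, hTz⟩ := le_z hT hz
  have h1 := sum_bad (fun r => (rhoP r : ℝ)) (w := w) (fun p hp => (hT p hp).1) hTz
    (by omega : 2 ≤ z)
  rw [h1]
  have h2 := main_term (T := T) hz14 hzw
  have e1 : ∑ r ∈ (Ioc z w).filter Nat.Prime, (rhoP r : ℝ) / r =
      ∑ r ∈ (Ioc z w).filter Nat.Prime, (1 : ℝ) / r +
      ∑ r ∈ (Ioc z w).filter Nat.Prime, chi (-3) r / r := by
    rw [← sum_add_distrib]
    refine sum_congr rfl fun r hr => ?_
    rw [mem_filter, mem_Ioc] at hr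
    rw [rhoP_eq hr.2 (by omega)]; ring
  have e2 : ∀ U : Finset ℕ, ∑ r ∈ (Ioc z w).filter Nat.Prime,
      (rhoP r : ℝ) * chi ((∏ p ∈ U, p : ℕ) : ℤ) r / r =
      ∑ r ∈ (Ioc z w).filter Nat.Prime, chi ((∏ p ∈ U, p : ℕ) : ℤ) r / r +
      ∑ r ∈ (Ioc z w).filter Nat.Prime, chi (-3 * ((∏ p ∈ U, p : ℕ) : ℤ)) r / r := by
    intro U
    rw [← sum_add_distrib]
    refine sum_congr rfl fun r hr => ?_
    rw [mem_filter, mem_Ioc] at hr
    rw [rhoP_eq hr.2 (by omega), chi_mul_left]; ring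
  have h3 := err_term (T := T) (fun U => ∑ r ∈ (Ioc z w).filter Nat.Prime,
        (rhoP r : ℝ) * chi ((∏ p ∈ U, p : ℕ) : ℤ) r / r) (C := 2 * C) (by positivity)
      (fun U hU => by
      obtain ⟨a1, a2, a3, a4⟩ := prod_facts hT hU
      have hM : ((12 : ℝ) * ((∏ p ∈ U, p : ℕ) : ℝ)) ≤ z := by
        have : 12 * ∏ p ∈ U, p ≤ z := by omega
        exact_mod_cast this
      have b1 := hC _ _ (ch_chi a1 a2 a3).1 z w (by omega) hM hzw
      have b2 := hC _ _ (ch_chi a1 a2 a3).2 z w (by omega) hM hzw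
      simp only [e2]
      linarith)
  rw [e1, mul_add]
  have h4 : -C₃ ≤ (1 - 1 / 2 ^ #T) * ∑ r ∈ (Ioc z w).filter Nat.Prime, chi (-3) r / r := by
    have b1 := hC3 z w (by omega) hzw
    have b2 : (0 : ℝ) ≤ 1 - 1 / 2 ^ #T := by
      rw [sub_nonneg, div_le_one (by positivity)]
      exact one_le_pow₀ (by norm_num)
    have b3 : (1 : ℝ) - 1 / 2 ^ #T ≤ 1 := by
      have : (0 : ℝ) ≤ 1 / 2 ^ #T := by positivity
      linarith
    nlinarith [mul_le_mul_of_nonneg_left b1 b2]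
  simp only [one_div] at h2 h3 h4 ⊢
  linarith

end Pool.Agent.PPC
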