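import Pool.Agent.PPC.Defs

/-!
# Module PPC/Cheb: Chebyshev type estimates

Summation by parts in the form of an induction, from `ψ x ≤ C x` and `ψ x - θ x ≤ C √x`.
-/

set_option autoImplicit false

namespace Pool.Agent.PPC

open Finset
open scoped ArithmeticFunction.vonMangoldt

theorem sum_L_le (t : ℕ) : ∑ e ∈ Icc 1 t, Λ e ≤ (Real.log 4 + 4) * t := by
  have h := Chebyshev.psi_le_const_mul_self (x := (t : ℝ)) (Nat.cast_nonneg t)
  unfold Chebyshev.psi at h
  rwa [Nat.floor_natCast] at h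

theorem sum_sqrt_le : ∃ C : ℝ, 0 < C ∧ ∀ t : ℕ, ∑ e ∈ Icc 1 t, Λ e / √(e : ℝ) ≤ C * √(t : ℝ) := by
  set c : ℝ := Real.log 4 + 4 with hc
  have hc0 : 0 < c := by
    have : 0 < Real.log 4 := Real.log_pos (by norm_num)
    rw [hc]
    linarith
  have key : ∀ t : ℕ, ∑ e ∈ Icc 1 (t + 1), Λ e / √(e : ℝ) ≤
      (∑ e ∈ Icc 1 (t + 1), Λ e) / √((t + 1 : ℕ) : ℝ) + c * √((t + 1 : ℕ) : ℝ) := by
    intro t
    induction t with
    | zero =>
      simp only [zero_add, Icc_self, sum_singleton, Nat.cast_one, Real.sqrt_one, div_one, mul_one]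
      linarith
    | succ t ih =>
      have hI : ∀ g : ℕ → ℝ, ∑ e ∈ Icc 1 (t + 1 + 1), g e =
          ∑ e ∈ Icc 1 (t + 1), g e + g (t + 1 + 1) := fun g =>
        sum_Icc_succ_top (by omega) g
      rw [hI, hI]
      have hS := sum_L_le (t + 1)
      set S := ∑ e ∈ Icc 1 (t + 1), Λ e with hSdef
      set F := ∑ e ∈ Icc 1 (t + 1), Λ e / √(e : ℝ) with hF
      set L := Λ (t + 1 + 1)
      set a : ℝ := √((t + 1 : ℕ) : ℝ) with ha
      set b : ℝ := √((t + 1 + 1 : ℕ) : ℝ) with hb
      have ha0 : 0 < a := Real.sqrt_pos.2 (by positivity)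
      have hb0 : 0 < b := Real.sqrt_pos.2 (by positivity)
      have ha2 : a * a = ((t + 1 : ℕ) : ℝ) := Real.mul_self_sqrt (by positivity)
      have hb2 : b * b = ((t + 1 : ℕ) : ℝ) + 1 := by
        rw [hb, Real.mul_self_sqrt (by positivity)]
        push_cast
        ring
      have hab : a ≤ b := Real.sqrt_le_sqrt (by push_cast; linarith)
      have h1 : S / a - S / b ≤ c * (b - a) := by
        have h2 : S ≤ c * (a * a) := by rw [ha2]; exact hS
        have h3 : S / a - S / b = S * ((b - a) / (a * b)) := by field_simp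
        have h4 : 0 ≤ (b - a) / (a * b) := div_nonneg (by linarith) (by positivity)
        calc S / a - S / b = S * ((b - a) / (a * b)) := h3
          _ ≤ c * (a * a) * ((b - a) / (a * b)) := mul_le_mul_of_nonneg_right h2 h4
          _ = c * (b - a) * (a / b) := by field_simp
          _ ≤ c * (b - a) * 1 := by
            refine mul_le_mul_of_nonneg_left ?_ (mul_nonneg hc0.le (by linarith))
            rw [div_le_one hb0]
            exact hab
          _ = c * (b - a) := mul_one _
      have h5 : (S + L) / b = S / b + L / b := add_div _ _ _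
      rw [h5]
      linarith
  refine ⟨2 * c, by linarith, fun t => ?_⟩
  rcases t with _ | t
  · simp
  · have h1 := key t
    have h2 := sum_L_le (t + 1)
    have h3 : 0 < √((t + 1 : ℕ) : ℝ) := Real.sqrt_pos.2 (by positivity)
    have h4 : (∑ e ∈ Icc 1 (t + 1), Λ e) / √((t + 1 : ℕ) : ℝ) ≤ c * √((t + 1 : ℕ) : ℝ) := by
      rw [div_le_iff₀ h3, mul_assoc, Real.mul_self_sqrt (by positivity)]
      exact h2
    linarith

theorem sum_nonprime_le : ∃ C : ℝ, 0 < C ∧
    ∀ t : ℕ, ∑ e ∈ (Icc 1 t).filter (fun e => ¬ e.Prime), Λ e / e ≤ C := by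
  obtain ⟨c0, hc0⟩ := Chebyshev.psi_sub_theta_le_mul_sqrt
  set c : ℝ := max c0 1 with hc
  have hcpos : 0 < c := lt_of_lt_of_le one_pos (le_max_right _ _)
  have hD : ∀ t : ℕ, ∑ e ∈ (Icc 1 t).filter (fun e => ¬ e.Prime), Λ e ≤ c * √(t : ℝ) := by
    intro t
    have h1 := hc0 (t : ℝ)
    rw [Chebyshev.psi_sub_theta_eq_sum_not_prime, Nat.floor_natCast] at h1
    exact h1.trans (mul_le_mul_of_nonneg_right (le_max_left _ _) (Real.sqrt_nonneg _))
  have key : ∀ t : ℕ, ∑ e ∈ (Icc 1 (t + 1)).filter (fun e => ¬ e.Prime), Λ e / e ≤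
      (∑ e ∈ (Icc 1 (t + 1)).filter (fun e => ¬ e.Prime), Λ e) / ((t + 1 : ℕ) : ℝ) +
        2 * c * (1 - 1 / √((t + 1 : ℕ) : ℝ)) := by
    intro t
    induction t with
    | zero =>
      have h1 : (Icc 1 (0 + 1)).filter (fun e => ¬ e.Prime) = {1} := by decide
      rw [h1]
      simp
    | succ t ih =>
      have hI : ∀ g : ℕ → ℝ, ∑ e ∈ (Icc 1 (t + 1 + 1)).filter (fun e => ¬ e.Prime), g e =
          ∑ e ∈ (Icc 1 (t + 1)).filter (fun e => ¬ e.Prime), g e +
            (if ¬ (t + 1 + 1).Prime then g (t + 1 + 1) else 0) := fun g => by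
        rw [sum_filter, sum_filter, sum_Icc_succ_top (by omega)]
      rw [hI, hI]
      have hS := hD (t + 1)
      set S := ∑ e ∈ (Icc 1 (t + 1)).filter (fun e => ¬ e.Prime), Λ e with hSdef
      set F := ∑ e ∈ (Icc 1 (t + 1)).filter (fun e => ¬ e.Prime), Λ e / e with hF
      have hL : (if ¬ (t + 1 + 1).Prime then Λ (t + 1 + 1) / ((t + 1 + 1 : ℕ) : ℝ) else 0) =
          (if ¬ (t + 1 + 1).Prime then Λ (t + 1 + 1) else 0) / ((t + 1 + 1 : ℕ) : ℝ) := by
        split_ifs <;> simp
      rw [hL]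
      set L := (if ¬ (t + 1 + 1).Prime then Λ (t + 1 + 1) else 0)
      set a : ℝ := √((t + 1 : ℕ) : ℝ) with ha
      set b : ℝ := √((t + 1 + 1 : ℕ) : ℝ) with hb
      have ha0 : 0 < a := Real.sqrt_pos.2 (by positivity)
      have hb0 : 0 < b := Real.sqrt_pos.2 (by positivity)
      have ha2 : ((t + 1 : ℕ) : ℝ) = a * a := (Real.mul_self_sqrt (by positivity)).symm
      have hb2 : ((t + 1 + 1 : ℕ) : ℝ) = b * b := (Real.mul_self_sqrt (by positivity)).symm
      have hab2 : b * b = a * a + 1 := by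
        rw [← ha2, ← hb2]
        push_cast
        ring
      have hab : a ≤ b := Real.sqrt_le_sqrt (by push_cast; linarith)
      rw [ha2] at ih
      rw [hb2]
      have h1 : S / (a * a) - S / (b * b) ≤ 2 * c * (1 / a - 1 / b) := by
        have h3 : S / (a * a) - S / (b * b) = S * (1 / (a * a * (b * b))) := by
          field_simp
          linear_combination S * hab2
        have h4 : 0 ≤ 1 / (a * a * (b * b)) := by positivity
        have h5 : 1 / a - 1 / b = 1 / (a * b * (a + b)) := by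
          field_simp
          nlinarith
        rw [h3, h5]
        calc S * (1 / (a * a * (b * b))) ≤ c * a * (1 / (a * a * (b * b))) :=
              mul_le_mul_of_nonneg_right hS h4
          _ = 2 * c * (1 / (a * b * (2 * b))) := by field_simp
          _ ≤ 2 * c * (1 / (a * b * (a + b))) := by
            refine mul_le_mul_of_nonneg_left ?_ (by positivity)
            refine one_div_le_one_div_of_le (by positivity) ?_
            refine mul_le_mul_of_nonneg_left (by linarith) (by positivity)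
      have h5 : (S + L) / (b * b) = S / (b * b) + L / (b * b) := add_div _ _ _
      rw [h5]
      have h6 : 2 * c * (1 - 1 / b) = 2 * c * (1 - 1 / a) + 2 * c * (1 / a - 1 / b) := by ring
      rw [h6]
      linarith
  refine ⟨3 * c, by linarith, fun t => ?_⟩
  rcases t with _ | t
  · simp
    linarith
  · have h1 := key t
    have h2 := hD (t + 1)
    have ht : (0 : ℝ) < ((t + 1 : ℕ) : ℝ) := by positivity
    have h3 : 0 < √((t + 1 : ℕ) : ℝ) := Real.sqrt_pos.2 ht
    have h4 : (∑ e ∈ (Icc 1 (t + 1)).filter (fun e => ¬ e.Prime), Λ e) / ((t + 1 : ℕ) : ℝ) ≤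
        c := by
      rw [div_le_iff₀ ht]
      refine h2.trans (mul_le_mul_of_nonneg_left ?_ hcpos.le)
      rw [Real.sqrt_le_left ht.le]
      have : (1 : ℝ) ≤ ((t + 1 : ℕ) : ℝ) := by push_cast; linarith [Nat.cast_nonneg (α := ℝ) t]
      nlinarith
    have h5 : 2 * c * (1 - 1 / √((t + 1 : ℕ) : ℝ)) ≤ 2 * c * 1 := by
      refine mul_le_mul_of_nonneg_left ?_ (by positivity)
      have : 0 < 1 / √((t + 1 : ℕ) : ℝ) := by positivity
      linarith
    linarith

end Pool.Agent.PPC
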