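import Pool.Agent.PPC.Avg

/-!
# Module PPC/CondPN: the relations for planes and for neofields

PROOFS. `avg`: `avg_plane`, `avg_neo`. Periodicity: clear. Number of residues for a prime `r ≥ 5`:
`n ≡ 1 (mod r)` has one solution in `range r`. `n² + n + 1 ≡ 0`: if `r % 3 = 1` there is an element `ω ≠ 1`
with `ω³ = 1` in `ZMod r` (e.g. `IsCyclic`/Cauchy in `(ZMod r)ˣ`, or `ZMod.exists…`), the two roots are
`ω`, `ω²`, different and there are no others (a quadratic polynomial; `n² + n + 1 = (n - ω)(n - ω²)`);
if `r % 3 = 2` a root would have `n³ = 1`, `n ≠ 1` (as `r ∤ 3`), order `3 ∣ r - 1`; `r % 3 = 0` is impossible.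
-/

set_option autoImplicit false

namespace Pool.Agent.PPC

open Finset Classical

private theorem condPN_three_ne {r : ℕ} (h5 : 5 ≤ r) : (3 : ZMod r) ≠ 0 := by
  intro h
  have h' : ((3 : ℕ) : ZMod r) = 0 := by exact_mod_cast h
  rw [ZMod.natCast_eq_zero_iff] at h'
  have := Nat.le_of_dvd (by norm_num) h'
  omega

private theorem condPN_card_eq {r : ℕ} [Fact r.Prime] :
    #((range r).filter (RP r)) =
      #((Finset.univ : Finset (ZMod r)).filter (fun x => x ^ 2 + x + 1 = 0)) := by
  have key : ∀ n : ℕ, RP r n ↔ ((n : ZMod r) ^ 2 + (n : ZMod r) + 1 = 0) := by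
    intro n
    unfold RP
    rw [← ZMod.natCast_eq_zero_iff]
    push_cast
    rfl
  refine Finset.card_bij (fun n _ => (n : ZMod r)) ?_ ?_ ?_
  · intro n hn
    rw [Finset.mem_filter] at hn ⊢
    exact ⟨Finset.mem_univ _, (key n).1 hn.2⟩
  · intro a ha b hb hab
    rw [Finset.mem_filter, Finset.mem_range] at ha hb
    have := congrArg ZMod.val hab
    rwa [ZMod.val_natCast_of_lt ha.1, ZMod.val_natCast_of_lt hb.1] at this
  · intro x hx
    rw [Finset.mem_filter] at hx
    refine ⟨x.val, ?_, ZMod.natCast_zmod_val x⟩
    rw [Finset.mem_filter, Finset.mem_range, key, ZMod.natCast_zmod_val]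
    exact ⟨ZMod.val_lt x, hx.2⟩

private theorem condPN_card {r : ℕ} (hr : r.Prime) (h5 : 5 ≤ r) :
    #((range r).filter (RP r)) = rhoP r := by
  have : Fact r.Prime := ⟨hr⟩
  rw [condPN_card_eq]
  unfold rhoP
  have h3 := condPN_three_ne h5
  split_ifs with hm
  · obtain ⟨u, hu⟩ : ∃ u : (ZMod r)ˣ, orderOf u = 3 := by
      have : Fact (Nat.Prime 3) := ⟨Nat.prime_three⟩
      apply exists_prime_orderOf_dvd_card 3
      rw [ZMod.card_units]
      omega
    set w : ZMod r := (u : ZMod r) with hw
    have hw0 : w ≠ 0 := u.ne_zero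
    have hw3 : w ^ 3 = 1 := by
      have : u ^ 3 = 1 := by rw [← hu]; exact pow_orderOf_eq_one u
      have := congrArg (fun v : (ZMod r)ˣ => (v : ZMod r)) this
      simpa using this
    have hw1 : w ≠ 1 := by
      intro h
      have : u = 1 := Units.ext (by rw [Units.val_one]; exact h)
      rw [this, orderOf_one] at hu
      omega
    have hq : w ^ 2 + w + 1 = 0 := by
      have : (w - 1) * (w ^ 2 + w + 1) = 0 := by linear_combination hw3
      exact (mul_eq_zero.1 this).resolve_left (sub_ne_zero.2 hw1)
    have hne : w ≠ w ^ 2 := by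
      intro h
      have : w * (w - 1) = 0 := by linear_combination -h
      exact (mul_eq_zero.1 this).elim hw0 (sub_ne_zero.2 hw1)
    have : (Finset.univ : Finset (ZMod r)).filter (fun x => x ^ 2 + x + 1 = 0) = {w, w ^ 2} := by
      ext x
      simp only [Finset.mem_filter, Finset.mem_univ, true_and, Finset.mem_insert,
        Finset.mem_singleton]
      constructor
      · intro hx
        have : (x - w) * (x - w ^ 2) = 0 := by
          linear_combination hx - (x : ZMod r) * hq + hw3
        rcases mul_eq_zero.1 this with h | h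
        · exact Or.inl (sub_eq_zero.1 h)
        · exact Or.inr (sub_eq_zero.1 h)
      · rintro (h | h)
        · rw [h]; exact hq
        · rw [h]
          linear_combination w * hw3 + hq
    rw [this, Finset.card_pair hne]
  · rw [Finset.card_eq_zero, Finset.filter_eq_empty_iff]
    intro x _ hx
    have hx3 : x ^ 3 = 1 := by linear_combination (x - 1) * hx
    have hx1 : x ≠ 1 := by
      intro h
      rw [h] at hx
      apply h3
      linear_combination hx
    have hx0 : x ≠ 0 := by
      intro h
      rw [h] at hx
      simp at hx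
    have hord : orderOf x = 3 := by
      have : Fact (Nat.Prime 3) := ⟨Nat.prime_three⟩
      exact orderOf_eq_prime hx3 hx1
    have hd : 3 ∣ r - 1 := by
      rw [← hord]
      exact ZMod.orderOf_dvd_card_sub_one hx0
    have := hr.two_le
    omega

theorem cond_plane : Cond RP rhoP where
  per := by
    intro r _ _ n
    unfold RP
    have : (n + r) ^ 2 + (n + r) + 1 = (n ^ 2 + n + 1) + r * (2 * n + r + 1) := by ring
    rw [this]
    exact (Nat.dvd_add_left (dvd_mul_right _ _))
  card := fun r hr h5 => condPN_card hr h5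
  le := by
    intro r
    unfold rhoP
    split_ifs <;> norm_num
  avg := avg_plane

theorem cond_neo : Cond RN (fun _ => 1) where
  per := by
    intro r _ _ n
    unfold RN Nat.ModEq
    rw [Nat.add_mod_right]
  card := by
    intro r hr h5
    have : (range r).filter (RN r) = {1} := by
      ext n
      simp only [Finset.mem_filter, Finset.mem_range, Finset.mem_singleton]
      unfold RN Nat.ModEq
      constructor
      · rintro ⟨h1, h2⟩
        rwa [Nat.mod_eq_of_lt h1, Nat.mod_eq_of_lt (by omega)] at h2
      · rintro rfl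
        exact ⟨by omega, rfl⟩
    rw [this, Finset.card_singleton]
  le := by intro r; norm_num
  avg := avg_neo

end Pool.Agent.PPC
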