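import Pool.Agent.PPC.Defs

/-!
# Module PPC/Conv: the divisor sums `gg f`

The divisor sums are the convolution of `f` with the constant function, as arithmetic functions.
-/

set_option autoImplicit false

namespace Pool.Agent.PPC

open Finset
open scoped ArithmeticFunction.vonMangoldt ArithmeticFunction.zeta

/-- `f` as an arithmetic function. -/
noncomputable def fa (f : ℕ → ℝ) : ArithmeticFunction ℝ :=
  ⟨fun n => if n = 0 then 0 else f n, if_pos rfl⟩

theorem fa_apply (f : ℕ → ℝ) {n : ℕ} (hn : n ≠ 0) : fa f n = f n := if_neg hn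

theorem gg_eq (f : ℕ → ℝ) (n : ℕ) :
    gg f n = (fa f * ((ζ : ArithmeticFunction ℕ) : ArithmeticFunction ℝ)) n := by
  rw [ArithmeticFunction.coe_mul_zeta_apply, gg]
  refine sum_congr rfl fun d hd => (fa_apply f ?_).symm
  exact (Nat.pos_of_mem_divisors hd).ne'

theorem icc_eq_ioc (t : ℕ) : Icc 1 t = Ioc 0 t := rfl

theorem GG_eq (f : ℕ → ℝ) {t N : ℕ} (hN : t ≤ N) :
    GG f t = ∑ d ∈ Icc 1 N, f d * ((t / d : ℕ) : ℝ) := by
  have h1 : GG f t = ∑ d ∈ Icc 1 t, f d * ((t / d : ℕ) : ℝ) := by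
    unfold GG
    simp only [gg_eq]
    rw [icc_eq_ioc, ArithmeticFunction.sum_Ioc_mul_zeta_eq_sum]
    refine sum_congr rfl fun d hd => ?_
    rw [fa_apply f (mem_Ioc.1 hd).1.ne']
  rw [h1]
  refine sum_subset (Icc_subset_Icc_right hN) fun d hd hd' => ?_
  rw [mem_Icc] at hd hd'
  have h2 : t / d = 0 := Nat.div_eq_of_lt (by omega)
  rw [h2, Nat.cast_zero, mul_zero]

theorem fa_mult {f : ℕ → ℝ} {M : ℝ} (h : Ch f M) : (fa f).IsMultiplicative := by
  rw [ArithmeticFunction.IsMultiplicative.iff_ne_zero]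
  refine ⟨by rw [fa_apply f one_ne_zero, h.one], fun {m n} hm hn _ => ?_⟩
  rw [fa_apply f hm, fa_apply f hn, fa_apply f (Nat.mul_ne_zero hm hn), h.mul]

theorem gg_mult {f : ℕ → ℝ} {M : ℝ} (h : Ch f M) :
    (fa f * ((ζ : ArithmeticFunction ℕ) : ArithmeticFunction ℝ)).IsMultiplicative :=
  (fa_mult h).mul ArithmeticFunction.isMultiplicative_zeta.natCast

theorem f_pow {f : ℕ → ℝ} {M : ℝ} (h : Ch f M) (p i : ℕ) : f (p ^ i) = f p ^ i := by
  induction i with
  | zero => rw [pow_zero, pow_zero, h.one]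
  | succ i ih => rw [pow_succ, pow_succ, h.mul, ih]

theorem gg_pow {f : ℕ → ℝ} {M : ℝ} (h : Ch f M) {p : ℕ} (hp : p.Prime) (a : ℕ) :
    gg f (p ^ a) = ∑ i ∈ range (a + 1), f p ^ i := by
  unfold gg
  rw [Nat.sum_divisors_prime_pow hp]
  exact sum_congr rfl fun i _ => f_pow h p i

theorem gg_pow_nonneg {f : ℕ → ℝ} {M : ℝ} (h : Ch f M) {p : ℕ} (hp : p.Prime) (a : ℕ) :
    0 ≤ gg f (p ^ a) ∧ (Even a → 1 ≤ gg f (p ^ a)) := by
  rw [gg_pow h hp]
  rcases h.val p with h1 | h1 | h1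
  · rw [h1, neg_one_geom_sum]
    constructor
    · split_ifs <;> norm_num
    · intro h2
      rw [if_neg (by rw [Nat.even_add_one]; exact not_not.2 h2)]
  · rw [h1]
    have h2 : ∑ i ∈ range (a + 1), (0 : ℝ) ^ i = 1 := by
      rw [sum_range_succ']
      simp
    rw [h2]
    exact ⟨zero_le_one, fun _ => le_rfl⟩
  · rw [h1]
    have h2 : ∑ i ∈ range (a + 1), (1 : ℝ) ^ i = a + 1 := by simp
    rw [h2]
    have h3 : (0 : ℝ) ≤ a := Nat.cast_nonneg a
    exact ⟨by linarith, fun _ => by linarith⟩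

theorem gg_nonneg {f : ℕ → ℝ} {M : ℝ} (h : Ch f M) (n : ℕ) : 0 ≤ gg f n := by
  rcases Nat.eq_zero_or_pos n with rfl | hn
  · simp [gg]
  · rw [gg_eq, (gg_mult h).multiplicative_factorization _ hn.ne']
    refine prod_nonneg fun p hp => ?_
    beta_reduce
    rw [← gg_eq]
    exact (gg_pow_nonneg h (Nat.prime_of_mem_primeFactors
      (by simpa using hp)) _).1

theorem one_le_gg_sq {f : ℕ → ℝ} {M : ℝ} (h : Ch f M) {m : ℕ} (hm : 1 ≤ m) :
    1 ≤ gg f (m ^ 2) := by
  have hm2 : m ^ 2 ≠ 0 := pow_ne_zero _ (by omega)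
  rw [gg_eq, (gg_mult h).multiplicative_factorization _ hm2]
  unfold Finsupp.prod
  refine prod_induction _ (fun x : ℝ => 1 ≤ x) (fun a b ha hb => ?_) le_rfl fun p hp => ?_
  · nlinarith
  · beta_reduce
    rw [← gg_eq]
    refine (gg_pow_nonneg h (Nat.prime_of_mem_primeFactors (by simpa using hp)) _).2 ?_
    rw [Nat.factorization_pow]
    exact ⟨m.factorization p, by simp [two_mul]⟩

theorem fa_log {f : ℕ → ℝ} {M : ℝ} (h : Ch f M) {n : ℕ} (hn : n ≠ 0) :
    f n * Real.log n = ∑ x ∈ n.divisorsAntidiagonal, Λ x.1 * f x.1 * f x.2 := by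
  rw [← ArithmeticFunction.vonMangoldt_sum, mul_sum, ← Nat.sum_divisorsAntidiagonal (fun a _ => f n * Λ a)]
  refine sum_congr rfl fun x hx => ?_
  rw [← (Nat.mem_divisorsAntidiagonal.1 hx).1, h.mul]
  ring

/-- The logarithm is a derivation. -/
theorem gg_log_aux {f : ℕ → ℝ} {M : ℝ} (h : Ch f M) :
    (fa f * ((ζ : ArithmeticFunction ℕ) : ArithmeticFunction ℝ)).pmul ArithmeticFunction.log =
      ((Λ + (fa f).pmul Λ) * (fa f * ((ζ : ArithmeticFunction ℕ) : ArithmeticFunction ℝ))) := by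
  have h1 : (fa f).pmul ArithmeticFunction.log = ((fa f).pmul Λ) * fa f := by
    ext n
    rcases eq_or_ne n 0 with rfl | hn
    · simp
    · rw [ArithmeticFunction.pmul_apply, fa_apply f hn, ArithmeticFunction.log_apply, fa_log h hn, ArithmeticFunction.mul_apply]
      refine sum_congr rfl fun x hx => ?_
      have hx0 := (Nat.mem_divisorsAntidiagonal.1 hx)
      have h2 : x.1 ≠ 0 := by
        rintro h3
        rw [h3, zero_mul] at hx0
        exact hx0.2 hx0.1.symm
      have h3 : x.2 ≠ 0 := by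
        rintro h3
        rw [h3, mul_zero] at hx0
        exact hx0.2 hx0.1.symm
      rw [ArithmeticFunction.pmul_apply, fa_apply f h2, fa_apply f h3]
      ring
  have h2 : (fa f * ((ζ : ArithmeticFunction ℕ) : ArithmeticFunction ℝ)).pmul
      ArithmeticFunction.log =
      (fa f).pmul ArithmeticFunction.log * ((ζ : ArithmeticFunction ℕ) : ArithmeticFunction ℝ) +
        fa f * ArithmeticFunction.log := by
    ext n
    rw [ArithmeticFunction.pmul_apply, ArithmeticFunction.add_apply, ArithmeticFunction.mul_apply, ArithmeticFunction.mul_apply, ArithmeticFunction.mul_apply, sum_mul, ← sum_add_distrib]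
    refine sum_congr rfl fun x hx => ?_
    have hx0 := (Nat.mem_divisorsAntidiagonal.1 hx)
    have h2 : x.1 ≠ 0 := by
      rintro h3
      rw [h3, zero_mul] at hx0
      exact hx0.2 hx0.1.symm
    have h3 : x.2 ≠ 0 := by
      rintro h3
      rw [h3, mul_zero] at hx0
      exact hx0.2 hx0.1.symm
    rw [ArithmeticFunction.pmul_apply, ArithmeticFunction.log_apply, ArithmeticFunction.log_apply, ArithmeticFunction.log_apply, ← hx0.1, Nat.cast_mul,
      Real.log_mul (by exact_mod_cast h2) (by exact_mod_cast h3), ArithmeticFunction.natCoe_apply, ArithmeticFunction.zeta_apply_ne h3]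
    push_cast
    ring
  rw [h2, h1, ← ArithmeticFunction.vonMangoldt_mul_zeta]
  ring

theorem gg_log {f : ℕ → ℝ} {M : ℝ} (h : Ch f M) (n : ℕ) :
    gg f n * Real.log n =
      ((Λ + (fa f).pmul Λ) * (fa f * ((ζ : ArithmeticFunction ℕ) : ArithmeticFunction ℝ))) n := by
  rw [← gg_log_aux h, ArithmeticFunction.pmul_apply, ArithmeticFunction.log_apply, gg_eq]

theorem sum_gg_log {f : ℕ → ℝ} {M : ℝ} (h : Ch f M) (t : ℕ) :
    ∑ n ∈ Icc 1 t, gg f n * Real.log n =
      ∑ e ∈ Icc 1 t, Λ e * (1 + f e) * GG f (t / e) := by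
  simp only [gg_log h]
  rw [icc_eq_ioc, ArithmeticFunction.sum_Ioc_mul_eq_sum_sum]
  refine sum_congr rfl fun e he => ?_
  have he0 : e ≠ 0 := (mem_Ioc.1 he).1.ne'
  rw [ArithmeticFunction.add_apply, ArithmeticFunction.pmul_apply, fa_apply f he0, GG, icc_eq_ioc]
  simp only [gg_eq]
  ring

end Pool.Agent.PPC
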