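import Pool.Agent.PPC.SieveDefs

/-!
# Module PPC/SFew: the sieve when `T` has less than `k` elements

PROOF. `w = 8 ^ (2 ^ J)`. `Pool.Agent.H14Trans.fundamental 1 16` with `y₀ = 8`,
`D = {r prime, 5 ≤ r ≤ w, r ∉ T}`, `bad r m := r ∣ m + 1`, `ω = 1` (compare
`Pool.Agent.TotGap.bt`, `good_primes`, `lay_mass`). So for `X ≥ w ^ s₁`:
`#{m ∈ Icc 1 X | Few} ≤ 2 X ∏_D (1 - 1 / r)`, and the product is at most `2 ^ (k + 2)` times the product over
all primes up to `w`.
-/

set_option autoImplicit false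

namespace Pool.Agent.PPC

open Finset Classical Pool.Agent.H14Trans Pool.Agent.TotGap

theorem sieve_few (k : ℕ) :
    ∃ C : ℝ, 0 < C ∧ ∃ s J₀ : ℕ, ∀ J ≥ J₀, ∀ T : Finset ℕ, #T < k →
      (∀ p ∈ T, p.Prime ∧ 5 ≤ p ∧ p ≤ 8 ^ (2 ^ J)) → ∀ X : ℕ, (8 ^ (2 ^ J)) ^ s ≤ X →
      (#((Icc 1 X).filter (Few T (8 ^ (2 ^ J)))) : ℝ) ≤
        C * X / Real.log ((8 ^ (2 ^ J) : ℕ) : ℝ) := by
  obtain ⟨s₁, hs₁, H⟩ := fundamental 1 16 (by norm_num)
  obtain ⟨J₀, HJ⟩ := H 8 (by norm_num)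
  have hl2 : 0 < Real.log 2 := Real.log_pos (by norm_num)
  refine ⟨2 * (2 ^ (k + 2) * (2 * Real.exp 14 * Real.log 2)), by positivity, s₁, J₀, ?_⟩
  intro J hJ T hTk hT X hX
  set w := 8 ^ (2 ^ J) with hw
  have hw2 : 2 ≤ w := by
    calc 2 ≤ 8 := by norm_num
      _ ≤ 8 ^ (2 ^ J) := Nat.le_self_pow (by positivity) _
  set P := (Icc 2 w).filter Nat.Prime with hP
  set D := P.filter (fun r => 5 ≤ r ∧ r ∉ T) with hD
  have hDP : D ⊆ P := filter_subset _ _
  obtain ⟨_, hN⟩ := HJ J hJ (bd 1 (0 + 1) {0}) (fun _ => 1) D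
    ((good_primes 0 w).mono hDP) (fun b hb => by
      have hb' := hDP hb
      rw [hP, mem_filter] at hb'
      exact ⟨le_rfl, hb'.2.one_lt⟩) (fun b hb => by
      have hb' := hDP hb
      rw [hP, mem_filter, mem_Icc] at hb'
      exact hb'.1.2) (fun i _ => by
      refine le_trans (sum_le_sum_of_subset_of_nonneg ?_ (fun b _ _ => by positivity))
        (lay_mass (y₀ := 8) (i := i) (w := w) (by norm_num))
      exact filter_subset_filter _ hDP)
  have hub := (hN X hX).2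
  have hcard : #((Icc 1 X).filter (Few T w)) ≤
      #((range X).filter (Sift (bd 1 (0 + 1) {0}) D)) := by
    refine card_le_card_of_injOn (fun m => m - 1) ?_ ?_
    · intro m hm
      simp only [coe_filter, mem_Icc] at hm
      obtain ⟨⟨h1, h2⟩, h3⟩ := hm
      simp only [coe_filter, mem_range]
      refine ⟨by omega, ?_⟩
      intro b hb hbad
      obtain ⟨a, ha, hdiv⟩ := hbad
      rw [mem_singleton] at ha
      subst ha
      have e : 1 * (m - 1) + (0 + 1 + 0) = m := by omega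
      rw [e] at hdiv
      rw [hD, mem_filter, hP, mem_filter, mem_Icc] at hb
      exact h3 b hb.1.2 hb.2.1 hb.1.1.2 hb.2.2 hdiv
    · intro p hp q hq hpq
      simp only [coe_filter, mem_Icc] at hp hq
      have h1 := hp.1.1
      have h2 := hq.1.1
      simp only at hpq
      omega
  -- the product
  have hfac : ∀ b ∈ P, (1 : ℝ) / 2 ≤ 1 - 1 / b := by
    intro b hb
    rw [hP, mem_filter] at hb
    have h2 : (2 : ℝ) ≤ b := by exact_mod_cast hb.2.two_le
    have : (1 : ℝ) / b ≤ 1 / 2 := by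
      apply one_div_le_one_div_of_le (by norm_num) h2
    linarith
  have hrest : #(P \ D) ≤ k + 2 := by
    have hsub : P \ D ⊆ T ∪ {2, 3} := by
      intro b hb
      obtain ⟨hbP, hbD⟩ := mem_sdiff.1 hb
      have hbP' : b ∈ Icc 2 w ∧ b.Prime := mem_filter.1 hbP
      rw [mem_Icc] at hbP'
      rw [mem_union]
      by_cases hbT : b ∈ T
      · left; exact hbT
      · right
        have h5 : ¬ 5 ≤ b := fun h => hbD (mem_filter.2 ⟨hbP, h, hbT⟩)
        have hb2 := hbP'.2.two_le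
        have hb4 : b ≠ 4 := by
          rintro rfl
          exact absurd hbP'.2 (by norm_num)
        simp only [mem_insert, mem_singleton]
        omega
    refine (card_le_card hsub).trans ((card_union_le _ _).trans ?_)
    have : #({2, 3} : Finset ℕ) ≤ 2 := card_le_two
    omega
  have hprodrest : (1 / 2 : ℝ) ^ (k + 2) ≤ ∏ b ∈ P \ D, (1 - (1 : ℝ) / b) := by
    calc (1 / 2 : ℝ) ^ (k + 2) ≤ (1 / 2 : ℝ) ^ (#(P \ D)) :=
          pow_le_pow_of_le_one (by norm_num) (by norm_num) hrest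
      _ = ∏ b ∈ P \ D, (1 / 2 : ℝ) := by rw [prod_const]
      _ ≤ _ := prod_le_prod (fun _ _ => by norm_num)
          (fun b hb => hfac b (mem_sdiff.1 hb).1)
  have hprodD0 : 0 ≤ ∏ b ∈ D, (1 - (1 : ℝ) / b) :=
    prod_nonneg fun b hb => by linarith [hfac b (hDP hb)]
  have hprod : ∏ b ∈ D, (1 - (1 : ℝ) / b) ≤
      2 ^ (k + 2) * (2 * Real.exp 14 * (Real.log 2 / Real.log w)) := by
    have h1 := prod_primes_le hw2
    rw [← hP, ← prod_sdiff hDP] at h1
    have h2 : (1 / 2 : ℝ) ^ (k + 2) * ∏ b ∈ D, (1 - (1 : ℝ) / b) ≤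
        2 * Real.exp 14 * (Real.log 2 / Real.log w) :=
      (mul_le_mul_of_nonneg_right hprodrest hprodD0).trans h1
    calc ∏ b ∈ D, (1 - (1 : ℝ) / b)
        = 2 ^ (k + 2) * ((1 / 2 : ℝ) ^ (k + 2) * ∏ b ∈ D, (1 - (1 : ℝ) / b)) := by
          rw [← mul_assoc, ← mul_pow]; norm_num
      _ ≤ _ := mul_le_mul_of_nonneg_left h2 (by positivity)
  calc (#((Icc 1 X).filter (Few T w)) : ℝ)
      ≤ (#((range X).filter (Sift (bd 1 (0 + 1) {0}) D)) : ℝ) := by exact_mod_cast hcard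
    _ ≤ 2 * X * ∏ b ∈ D, (1 - (1 : ℝ) / b) := by
        refine hub.trans (le_of_eq ?_)
        simp
    _ ≤ 2 * X * (2 ^ (k + 2) * (2 * Real.exp 14 * (Real.log 2 / Real.log w))) :=
        mul_le_mul_of_nonneg_left hprod (by positivity)
    _ = _ := by ring

end Pool.Agent.PPC
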