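import Pool.Agent.PPC.SFull
import Pool.Agent.PPC.SFew

/-!
# Module PPC/Count: counting the admissible integers

PROOF. Let `w = 8 ^ (2 ^ J)`, `S` = the primes in `[5, w]`, `Q n = S.filter (· ∣ n)`. Let `n ∈ Icc 1 x` satisfy
`Adm R n`.
(1) If `#(Q n) ≥ k`, let `T` be the set of the `k` smallest elements of `Q n` (e.g. by induction, or
`Finset.orderEmbOfFin`), `b = ∏ T ∣ n`, `n = b m`, `m ∈ Icc 1 (x / b)`. Then `Full R T w m`: a prime `r ≥ 5`,
`r ∉ T`, `r ≤ p ∈ T` does not divide `n`; if `Bad T r` then some `p ∈ T`, `p ∣ n`, is not a square modulo `r`,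
so `¬ R r n`.
(2) If `#(Q n) < k`, let `T = Q n`, `n = (∏ T) m`, `m ∈ Icc 1 (x / ∏ T)`, `Few T w m`.
So the count is at most `∑_{T ∈ S.powersetCard k} #{m ∈ Icc 1 (x / ∏ T) | Full R T w m} +
∑_{j < k} ∑_{T ∈ S.powersetCard j} #{m ∈ Icc 1 (x / ∏ T) | Few T w m}` (`card_biUnion_le`, `card_image_le`). As
`∏ T ≤ w ^ k` and `x ≥ w ^ (s₁ + k)`: `x / ∏ T ≥ w ^ s₁`. `sieve_full`, `sieve_few`, and
`∑_{T ∈ S.powersetCard j} ∏_{p ∈ T} 1 / p ≤ (∑_{p ∈ S} 1 / p) ^ j` (`sum_powersetCard_le`, induction on `S`,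
`Finset.powersetCard_succ_insert`), `∑_{p ∈ S} 1 / p ≤ log log w + C`
(`Pool.Agent.Sv.abs_sum_inv_sub_le`); note `log w ≥ (log w) ^ (1 - 1 / 2^k)`, `log log w + C ≥ 1`.
-/

set_option autoImplicit false

namespace Pool.Agent.PPC

open Finset Classical

theorem sum_powersetCard_le (S : Finset ℕ) (a : ℕ → ℝ) (ha : ∀ p ∈ S, 0 ≤ a p) (j : ℕ) :
    ∑ T ∈ S.powersetCard j, ∏ p ∈ T, a p ≤ (∑ p ∈ S, a p) ^ j := by
  induction S using Finset.induction_on generalizing j with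
  | empty =>
    cases j with
    | zero => simp
    | succ j =>
      rw [powersetCard_eq_empty.2 (by simp)]
      simp
  | insert x S hx ih =>
    have hax : 0 ≤ a x := ha x (mem_insert_self x S)
    have haS : ∀ p ∈ S, 0 ≤ a p := fun p hp => ha p (mem_insert_of_mem hp)
    have hA : 0 ≤ ∑ p ∈ S, a p := sum_nonneg haS
    cases j with
    | zero => simp
    | succ j =>
      rw [powersetCard_succ_insert hx, sum_union, sum_image]
      · have h1 : ∑ T ∈ S.powersetCard j, ∏ p ∈ insert x T, a p =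
            a x * ∑ T ∈ S.powersetCard j, ∏ p ∈ T, a p := by
          rw [mul_sum]
          refine sum_congr rfl fun T hT => ?_
          rw [mem_powersetCard] at hT
          rw [prod_insert (fun h => hx (hT.1 h))]
        rw [h1, sum_insert hx]
        have h2 := ih haS (j + 1)
        have h3 := ih haS j
        calc ∑ T ∈ S.powersetCard (j + 1), ∏ p ∈ T, a p +
              a x * ∑ T ∈ S.powersetCard j, ∏ p ∈ T, a p
            ≤ (∑ p ∈ S, a p) ^ (j + 1) + a x * (∑ p ∈ S, a p) ^ j :=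
              add_le_add h2 (mul_le_mul_of_nonneg_left h3 hax)
          _ = (a x + ∑ p ∈ S, a p) * (∑ p ∈ S, a p) ^ j := by ring
          _ ≤ (a x + ∑ p ∈ S, a p) * (a x + ∑ p ∈ S, a p) ^ j := by
              apply mul_le_mul_of_nonneg_left _ (by positivity)
              exact pow_le_pow_left₀ hA (by linarith) j
          _ = _ := by ring
      · intro T hT T' hT' h
        rw [mem_coe, mem_powersetCard] at hT hT'
        have h1 : x ∉ T := fun h => hx (hT.1 h)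
        have h2 : x ∉ T' := fun h => hx (hT'.1 h)
        rw [← erase_insert h1, ← erase_insert h2]
        exact congrArg (fun U => erase U x) h
      · rw [disjoint_left]
        intro T hT hT'
        rw [mem_powersetCard] at hT
        rw [mem_image] at hT'
        obtain ⟨T'', _, rfl⟩ := hT'
        exact hx (hT.1 (mem_insert_self x T''))

/-- the `k` smallest elements -/
theorem exists_smallest (Q : Finset ℕ) (k : ℕ) (hk : k ≤ #Q) :
    ∃ T ⊆ Q, #T = k ∧ ∀ r ∈ Q, r ∉ T → ∀ p ∈ T, p < r := by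
  induction k with
  | zero => exact ⟨∅, empty_subset _, rfl, fun _ _ _ p hp => absurd hp (notMem_empty p)⟩
  | succ k ih =>
    obtain ⟨T, hTQ, hTk, hT⟩ := ih (by omega)
    have hne : (Q \ T).Nonempty := by
      rw [← card_pos, card_sdiff_of_subset hTQ]
      omega
    set m := (Q \ T).min' hne with hm
    have hmem : m ∈ Q \ T := min'_mem _ _
    obtain ⟨hmQ, hmT⟩ := mem_sdiff.1 hmem
    refine ⟨insert m T, insert_subset hmQ hTQ, by rw [card_insert_of_notMem hmT, hTk], ?_⟩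
    intro r hr hrT p hp
    rw [mem_insert, not_or] at hrT
    rw [mem_insert] at hp
    rcases hp with rfl | hp
    · exact lt_of_le_of_ne (min'_le _ _ (mem_sdiff.2 ⟨hr, hrT.2⟩)) (Ne.symm hrT.1)
    · exact hT r hr hrT.2 p hp

theorem prod_dvd_of_primes {T : Finset ℕ} {n : ℕ} (hT : ∀ p ∈ T, p.Prime ∧ p ∣ n) :
    ∏ p ∈ T, p ∣ n :=
  Finset.prod_primes_dvd n (fun p hp => (hT p hp).1.prime) (fun p hp => (hT p hp).2)

theorem card_adm_le (R : ℕ → ℕ → Prop) (k w x : ℕ) :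
    #((Icc 1 x).filter (Adm R)) ≤
      ∑ T ∈ ((Icc 5 w).filter Nat.Prime).powersetCard k,
        #((Icc 1 (x / ∏ p ∈ T, p)).filter (Full R T w)) +
      ∑ j ∈ range k, ∑ T ∈ ((Icc 5 w).filter Nat.Prime).powersetCard j,
        #((Icc 1 (x / ∏ p ∈ T, p)).filter (Few T w)) := by
  set S := (Icc 5 w).filter Nat.Prime with hS
  have hsub : (Icc 1 x).filter (Adm R) ⊆
      ((S.powersetCard k).biUnion fun T =>
        ((Icc 1 (x / ∏ p ∈ T, p)).filter (Full R T w)).image fun m => (∏ p ∈ T, p) * m) ∪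
      ((range k).biUnion fun j => (S.powersetCard j).biUnion fun T =>
        ((Icc 1 (x / ∏ p ∈ T, p)).filter (Few T w)).image fun m => (∏ p ∈ T, p) * m) := by
    intro n hn
    rw [mem_filter, mem_Icc] at hn
    obtain ⟨⟨hn1, hnx⟩, hadm⟩ := hn
    set Q := S.filter (· ∣ n) with hQ
    have key : ∀ T ⊆ Q, ∃ m, n = (∏ p ∈ T, p) * m ∧ m ∈ Icc 1 (x / ∏ p ∈ T, p) := by
      intro T hT
      have hT' : ∀ p ∈ T, p.Prime ∧ p ∣ n := by
        intro p hp
        have h1 := mem_filter.1 (hT hp)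
        exact ⟨(mem_filter.1 h1.1).2, h1.2⟩
      obtain ⟨m, hm⟩ := prod_dvd_of_primes hT'
      have hpos : 0 < ∏ p ∈ T, p := prod_pos fun p hp => (hT' p hp).1.pos
      refine ⟨m, hm, ?_⟩
      rw [mem_Icc]
      refine ⟨?_, ?_⟩
      · rcases Nat.eq_zero_or_pos m with h | h
        · rw [h, mul_zero] at hm; omega
        · exact h
      · rw [Nat.le_div_iff_mul_le hpos, mul_comm, ← hm]
        exact hnx
    rw [mem_union]
    rcases le_or_gt k #Q with hk | hk
    · left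
      obtain ⟨T, hTQ, hTk, hT⟩ := exists_smallest Q k hk
      obtain ⟨m, hnm, hm⟩ := key T hTQ
      rw [mem_biUnion]
      refine ⟨T, mem_powersetCard.2 ⟨hTQ.trans (filter_subset _ _), hTk⟩, ?_⟩
      rw [mem_image]
      refine ⟨m, mem_filter.2 ⟨hm, ?_, ?_⟩, hnm.symm⟩
      · rintro r hr h5 ⟨p, hp, hrp⟩ hrT hrm
        have hpS := mem_filter.1 ((mem_filter.1 (hTQ hp)).1)
        have hrw : r ≤ w := hrp.trans (mem_Icc.1 hpS.1).2
        have hrQ : r ∈ Q := mem_filter.2 ⟨mem_filter.2 ⟨mem_Icc.2 ⟨h5, hrw⟩, hr⟩, by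
          rw [hnm]; exact hrm.mul_left _⟩
        have := hT r hrQ hrT p hp
        omega
      · rintro r hr _ _ ⟨p, hp, hpsq⟩ hRr
        rw [← hnm] at hRr
        have h1 := mem_filter.1 (hTQ hp)
        exact hpsq (hadm p r (mem_filter.1 h1.1).2 hr h1.2 hRr)
    · right
      obtain ⟨m, hnm, hm⟩ := key Q subset_rfl
      rw [mem_biUnion]
      refine ⟨#Q, mem_range.2 hk, ?_⟩
      rw [mem_biUnion]
      refine ⟨Q, mem_powersetCard.2 ⟨filter_subset _ _, rfl⟩, ?_⟩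
      rw [mem_image]
      refine ⟨m, mem_filter.2 ⟨hm, ?_⟩, hnm.symm⟩
      intro r hr h5 hrw hrQ hrm
      apply hrQ
      refine mem_filter.2 ⟨mem_filter.2 ⟨mem_Icc.2 ⟨h5, hrw⟩, hr⟩, ?_⟩
      rw [hnm]; exact hrm.mul_left _
  refine (card_le_card hsub).trans ((card_union_le _ _).trans (add_le_add ?_ ?_))
  · refine card_biUnion_le.trans (sum_le_sum fun T _ => card_image_le)
  · refine card_biUnion_le.trans (sum_le_sum fun j _ => ?_)
    exact card_biUnion_le.trans (sum_le_sum fun T _ => card_image_le)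

theorem sum_inv_primes_le : ∃ C : ℝ, 0 < C ∧ ∀ w : ℕ, 2 ≤ w →
    ∑ p ∈ (Icc 5 w).filter Nat.Prime, (1 : ℝ) / p ≤ Real.log (Real.log w) + C := by
  have hl2 : 0 < Real.log 2 := Real.log_pos (by norm_num)
  refine ⟨1 + |Real.log (Real.log 2)| + 9 / Real.log 2, by positivity, ?_⟩
  intro w hw
  have hsub : (Icc 5 w).filter Nat.Prime ⊆ insert w ((Ico 2 w).filter Nat.Prime) := by
    intro p hp
    rw [mem_filter, mem_Icc] at hp
    rw [mem_insert, mem_filter, mem_Ico]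
    rcases eq_or_ne p w with h | h
    · left; exact h
    · right; exact ⟨⟨by omega, by omega⟩, hp.2⟩
  have h1 : ∑ p ∈ (Icc 5 w).filter Nat.Prime, (1 : ℝ) / p ≤
      ∑ p ∈ insert w ((Ico 2 w).filter Nat.Prime), (1 : ℝ) / p :=
    sum_le_sum_of_subset_of_nonneg hsub (fun _ _ _ => by positivity)
  have hnot : w ∉ (Ico 2 w).filter Nat.Prime := by
    rw [mem_filter, mem_Ico]; omega
  rw [sum_insert hnot] at h1
  have h2 := (abs_le.1 (Pool.Agent.Sv.abs_sum_inv_sub_le (n := 2) (m := w) le_rfl hw)).2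
  have h3 : (1 : ℝ) / w ≤ 1 := by
    have : (1 : ℝ) ≤ w := by exact_mod_cast (by omega : 1 ≤ w)
    rw [div_le_one (by linarith)]; exact this
  have h4 := neg_abs_le (Real.log (Real.log 2))
  push_cast at h2
  linarith

theorem count_adm {R : ℕ → ℕ → Prop} {ρ : ℕ → ℕ} (hc : Cond R ρ) (k : ℕ) (hk : 1 ≤ k) :
    ∃ C : ℝ, 0 < C ∧ ∃ s J₀ : ℕ, ∀ J ≥ J₀, ∀ x : ℕ, (8 ^ (2 ^ J)) ^ s ≤ x →
      (#((Icc 1 x).filter (Adm R)) : ℝ) ≤
        C * x * (Real.log (Real.log ((8 ^ (2 ^ J) : ℕ) : ℝ)) + C) ^ k /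
          (Real.log ((8 ^ (2 ^ J) : ℕ) : ℝ)) ^ (1 - 1 / 2 ^ k : ℝ) := by
  obtain ⟨C1, hC1, s1, J1, H1⟩ := sieve_full hc k hk
  obtain ⟨C2, hC2, s2, J2, H2⟩ := sieve_few k
  obtain ⟨C3, hC3, H3⟩ := sum_inv_primes_le
  set C : ℝ := C1 + k * C2 + C3 + 1 with hC
  refine ⟨C, by positivity, max s1 s2 + k, max J1 J2, ?_⟩
  intro J hJ x hx
  have hJ1 : J ≥ J1 := le_trans (le_max_left _ _) hJ
  have hJ2 : J ≥ J2 := le_trans (le_max_right _ _) hJ
  set w := 8 ^ (2 ^ J) with hw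
  have hw8 : 8 ≤ w := Nat.le_self_pow (by positivity) _
  have hw1 : 1 ≤ w := by omega
  set L := Real.log (w : ℝ) with hL
  have hL1 : 1 ≤ L := by
    have h8 : (1 : ℝ) ≤ Real.log 8 := by
      rw [show (8 : ℝ) = 2 ^ 3 by norm_num, Real.log_pow]
      have := Real.log_two_gt_d9
      push_cast; linarith
    exact h8.trans (Real.log_le_log (by norm_num) (by exact_mod_cast hw8))
  have hL0 : 0 < L := by linarith
  have hLL : 0 ≤ Real.log L := Real.log_nonneg hL1
  set θ : ℝ := 1 - 1 / 2 ^ k with hθ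
  have hθ1 : θ ≤ 1 := by
    have : (0 : ℝ) ≤ 1 / 2 ^ k := by positivity
    linarith
  have hLθ0 : 0 < L ^ θ := Real.rpow_pos_of_pos hL0 _
  have hLθ : L ^ θ ≤ L := by
    calc L ^ θ ≤ L ^ (1 : ℝ) := Real.rpow_le_rpow_of_exponent_le hL1 hθ1
      _ = L := Real.rpow_one L
  set B : ℝ := Real.log L + C with hB
  have hB1 : 1 ≤ B := by
    have : 0 ≤ C1 + k * C2 + C3 := by positivity
    linarith
  set S := (Icc 5 w).filter Nat.Prime with hS
  have hSB : ∑ p ∈ S, (1 : ℝ) / p ≤ B := by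
    have := H3 w (by omega)
    have h0 : 0 ≤ C1 + k * C2 + 1 := by positivity
    linarith
  have hS0 : 0 ≤ ∑ p ∈ S, (1 : ℝ) / p := sum_nonneg fun _ _ => by positivity
  have hx0 : (0 : ℝ) ≤ x := by positivity
  -- properties of T
  have hTw : ∀ j ≤ k, ∀ T ∈ S.powersetCard j, (∀ p ∈ T, p.Prime ∧ 5 ≤ p ∧ p ≤ w) ∧
      w ^ (max s1 s2) ≤ x / ∏ p ∈ T, p ∧
      (((x / ∏ p ∈ T, p : ℕ)) : ℝ) ≤ x * ∏ p ∈ T, (1 : ℝ) / p := by
    intro j hj T hT
    rw [mem_powersetCard] at hT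
    have h1 : ∀ p ∈ T, p.Prime ∧ 5 ≤ p ∧ p ≤ w := by
      intro p hp
      have := mem_filter.1 (hT.1 hp)
      rw [mem_Icc] at this
      exact ⟨this.2, this.1.1, this.1.2⟩
    have hpos : 0 < ∏ p ∈ T, p := prod_pos fun p hp => (h1 p hp).1.pos
    have hle : ∏ p ∈ T, p ≤ w ^ k := by
      calc ∏ p ∈ T, p ≤ w ^ #T := prod_le_pow_card _ _ _ fun p hp => (h1 p hp).2.2
        _ ≤ w ^ k := Nat.pow_le_pow_right hw1 (by omega)
    refine ⟨h1, ?_, ?_⟩
    · rw [Nat.le_div_iff_mul_le hpos]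
      calc w ^ (max s1 s2) * ∏ p ∈ T, p ≤ w ^ (max s1 s2) * w ^ k := Nat.mul_le_mul_left _ hle
        _ = w ^ (max s1 s2 + k) := by rw [pow_add]
        _ ≤ x := hx
    · calc (((x / ∏ p ∈ T, p : ℕ)) : ℝ) ≤ (x : ℝ) / ((∏ p ∈ T, p : ℕ) : ℝ) := Nat.cast_div_le
        _ = x * ∏ p ∈ T, (1 : ℝ) / p := by
            rw [prod_div_distrib, prod_const_one]
            push_cast
            ring
  have hfull : ∑ T ∈ S.powersetCard k,
      (#((Icc 1 (x / ∏ p ∈ T, p)).filter (Full R T w)) : ℝ) ≤ C1 * x * B ^ k / L ^ θ := by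
    calc ∑ T ∈ S.powersetCard k, (#((Icc 1 (x / ∏ p ∈ T, p)).filter (Full R T w)) : ℝ)
        ≤ ∑ T ∈ S.powersetCard k, C1 * x / L ^ θ * ∏ p ∈ T, (1 : ℝ) / p := by
          refine sum_le_sum fun T hT => ?_
          obtain ⟨h1, h2, h3⟩ := hTw k le_rfl T hT
          have h4 := H1 J hJ1 T (mem_powersetCard.1 hT).2 h1 (x / ∏ p ∈ T, p)
            ((Nat.pow_le_pow_right hw1 (le_max_left _ _)).trans h2)
          refine h4.trans ?_
          rw [← hw, ← hL]
          calc C1 * ((x / ∏ p ∈ T, p : ℕ) : ℝ) / L ^ θ ≤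
              C1 * (x * ∏ p ∈ T, (1 : ℝ) / p) / L ^ θ := by gcongr
            _ = _ := by ring
      _ = C1 * x / L ^ θ * ∑ T ∈ S.powersetCard k, ∏ p ∈ T, (1 : ℝ) / p := by rw [mul_sum]
      _ ≤ C1 * x / L ^ θ * B ^ k := by
          apply mul_le_mul_of_nonneg_left _ (by positivity)
          exact (sum_powersetCard_le S (fun p => (1 : ℝ) / p) (fun _ _ => by positivity) k).trans
            (pow_le_pow_left₀ hS0 hSB k)
      _ = _ := by ring
  have hfew : ∑ j ∈ range k, ∑ T ∈ S.powersetCard j,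
      (#((Icc 1 (x / ∏ p ∈ T, p)).filter (Few T w)) : ℝ) ≤ k * C2 * x * B ^ k / L ^ θ := by
    calc ∑ j ∈ range k, ∑ T ∈ S.powersetCard j,
          (#((Icc 1 (x / ∏ p ∈ T, p)).filter (Few T w)) : ℝ)
        ≤ ∑ j ∈ range k, C2 * x / L ^ θ * B ^ k := by
          refine sum_le_sum fun j hj => ?_
          rw [mem_range] at hj
          calc ∑ T ∈ S.powersetCard j, (#((Icc 1 (x / ∏ p ∈ T, p)).filter (Few T w)) : ℝ)
              ≤ ∑ T ∈ S.powersetCard j, C2 * x / L ^ θ * ∏ p ∈ T, (1 : ℝ) / p := by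
                refine sum_le_sum fun T hT => ?_
                obtain ⟨h1, h2, h3⟩ := hTw j hj.le T hT
                have h4 := H2 J hJ2 T (by rw [(mem_powersetCard.1 hT).2]; exact hj) h1
                  (x / ∏ p ∈ T, p) ((Nat.pow_le_pow_right hw1 (le_max_right _ _)).trans h2)
                refine h4.trans ?_
                rw [← hw, ← hL]
                calc C2 * ((x / ∏ p ∈ T, p : ℕ) : ℝ) / L ≤
                    C2 * (x * ∏ p ∈ T, (1 : ℝ) / p) / L ^ θ := by gcongr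
                  _ = _ := by ring
            _ = C2 * x / L ^ θ * ∑ T ∈ S.powersetCard j, ∏ p ∈ T, (1 : ℝ) / p := by rw [mul_sum]
            _ ≤ C2 * x / L ^ θ * B ^ k := by
                apply mul_le_mul_of_nonneg_left _ (by positivity)
                calc ∑ T ∈ S.powersetCard j, ∏ p ∈ T, (1 : ℝ) / p
                    ≤ (∑ p ∈ S, (1 : ℝ) / p) ^ j :=
                      sum_powersetCard_le S (fun p => (1 : ℝ) / p) (fun _ _ => by positivity) j
                  _ ≤ B ^ j := pow_le_pow_left₀ hS0 hSB j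
                  _ ≤ B ^ k := pow_le_pow_right₀ hB1 hj.le
      _ = _ := by
          rw [sum_const, card_range, nsmul_eq_mul]
          ring
  have hmain := card_adm_le R k w x
  have hmain' : (#((Icc 1 x).filter (Adm R)) : ℝ) ≤
      ∑ T ∈ S.powersetCard k, (#((Icc 1 (x / ∏ p ∈ T, p)).filter (Full R T w)) : ℝ) +
      ∑ j ∈ range k, ∑ T ∈ S.powersetCard j,
        (#((Icc 1 (x / ∏ p ∈ T, p)).filter (Few T w)) : ℝ) := by
    exact_mod_cast hmain
  have hfin : C1 * x * B ^ k / L ^ θ + k * C2 * x * B ^ k / L ^ θ ≤ C * x * B ^ k / L ^ θ := by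
    rw [← add_div, ← add_mul, ← add_mul]
    gcongr
    rw [hC]
    linarith
  linarith

end Pool.Agent.PPC
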