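import Mathlib

/-!
# Orders of abelian projective planes and of planar neofields: basic definitions

See `BLUEPRINT.md`.
-/

set_option autoImplicit false

namespace Pool.Agent.PPC

open Finset

/-- A completely multiplicative function with values in `{-1, 0, 1}` all of whose partial sums are
bounded by `M`. -/
structure Ch (f : ℕ → ℝ) (M : ℝ) : Prop where
  zero : f 0 = 0
  one : f 1 = 1
  mul : ∀ m n, f (m * n) = f m * f n
  val : ∀ n, f n = -1 ∨ f n = 0 ∨ f n = 1
  bd : ∀ N : ℕ, |∑ n ∈ range N, f n| ≤ M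

theorem Ch.one_le {f : ℕ → ℝ} {M : ℝ} (h : Ch f M) : 1 ≤ M := by
  have := h.bd 2
  simpa [sum_range_succ, h.zero, h.one] using this

theorem Ch.abs_le {f : ℕ → ℝ} {M : ℝ} (h : Ch f M) (n : ℕ) : |f n| ≤ 1 := by
  rcases h.val n with h | h | h <;> rw [h] <;> norm_num

/-- The divisor sums of `f`. -/
noncomputable def gg (f : ℕ → ℝ) (n : ℕ) : ℝ := ∑ d ∈ n.divisors, f d

/-- The summatory function of `gg f`. -/
noncomputable def GG (f : ℕ → ℝ) (t : ℕ) : ℝ := ∑ n ∈ Icc 1 t, gg f n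

/-- The partial sums of the `L`-series at `1`. -/
noncomputable def LL (f : ℕ → ℝ) (u : ℕ) : ℝ := ∑ n ∈ Icc 1 u, f n / n

/-- The partial sums of `f p log p / p`. -/
noncomputable def HH (f : ℕ → ℝ) (T : ℕ) : ℝ :=
  ∑ p ∈ (Icc 1 T).filter Nat.Prime, f p * Real.log p / p

/-- The real character with numerator `D` (zero on even numbers). -/
noncomputable def chi (D : ℤ) (n : ℕ) : ℝ := if n % 2 = 0 then 0 else (jacobiSym D n : ℝ)

/-- Some element of `T` is not a square modulo `r`. -/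
def Bad (T : Finset ℕ) (r : ℕ) : Prop := ∃ p ∈ T, ¬ IsSquare ((p : ℕ) : ZMod r)

/-- Every prime divisor of `n` is a square modulo every prime `r` with `R r n`. -/
def Adm (R : ℕ → ℕ → Prop) (n : ℕ) : Prop :=
  ∀ p r : ℕ, p.Prime → r.Prime → p ∣ n → R r n → IsSquare ((p : ℕ) : ZMod r)

open Classical in
/-- What the sieve uses about the relation `R r n`: it is periodic modulo `r` with `ρ r ≤ 2` residue
classes for every prime `r ≥ 5`, and the primes `r` which are bad for `T` have at least the expected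
weight. -/
structure Cond (R : ℕ → ℕ → Prop) (ρ : ℕ → ℕ) : Prop where
  per : ∀ r : ℕ, r.Prime → 5 ≤ r → ∀ n, R r (n + r) ↔ R r n
  card : ∀ r : ℕ, r.Prime → 5 ≤ r → #((range r).filter (R r)) = ρ r
  le : ∀ r, ρ r ≤ 2
  avg : ∃ C : ℝ, ∀ (T : Finset ℕ) (z w : ℕ), (∀ p ∈ T, p.Prime ∧ 5 ≤ p) →
    12 * (∏ p ∈ T, p) + 2 ≤ z → z ≤ w →
    (1 - 1 / 2 ^ #T) * (Real.log (Real.log w) - Real.log (Real.log z)) - C ≤
      ∑ r ∈ (Ioc z w).filter (fun r => r.Prime ∧ Bad T r), (ρ r : ℝ) / r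

/-- The relation for planes: `r` divides `n² + n + 1`. -/
def RP (r n : ℕ) : Prop := r ∣ n ^ 2 + n + 1

/-- The number of roots of `x² + x + 1` modulo a prime `r ≥ 5`. -/
def rhoP (r : ℕ) : ℕ := if r % 3 = 1 then 2 else 0

/-- The relation for neofields: `r` divides `n - 1`. -/
def RN (r n : ℕ) : Prop := n ≡ 1 [MOD r]

end Pool.Agent.PPC
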