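import Pool.Agent.PPC.Conv
import Pool.Agent.PalSieve.Mertens

/-!
# Module PPC/Low: the lower bound `L(1) ≥ 1 / (256 M)`

PROOF. Let `K = (16 ⌈M⌉₊)²` and `r = 1 - 1 / K`. For every `N`
`∑_{n ≤ N} gg f n r^n = ∑_{d ≤ N} f d ∑_{j ≤ N / d} r^(d j)
  = ∑_{d ≤ N} f d (r^d - r^(d (⌊N/d⌋ + 1))) / (1 - r^d)`.
The second term contributes at most `N K r^N` in absolute value, because `1 - r^d ≥ 1 - r = 1 / K` and
`d (⌊N/d⌋ + 1) ≥ N`. In the first term write `r^d / (1 - r^d) = K / d - c d` with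
`c d = K / d - r^d / (1 - r^d)`. CLAIM: `c` is nonnegative and nonincreasing on `d ≥ 1`, and `c 1 = 1`.
So `|∑_{d ≤ N} f d c d| ≤ 2 M` (`Pool.Agent.Sv.abel_bound`), and

  `∑_{n ≤ N} gg f n r^n ≤ K LL f N + 2 M + N K r^N`.

The left side is at least `∑_{m ≤ 16 ⌈M⌉} r^(m²) ≥ 16 ⌈M⌉ r^K ≥ 4 ⌈M⌉` for `N ≥ K` (`gg_nonneg`,
`one_le_gg_sq`, `(1 - 1 / K)^K ≥ 1 / 4` for `K ≥ 2`). For `N → ∞`: `4 ⌈M⌉ ≤ K lam + 2 M`, so
`lam ≥ 2 ⌈M⌉ / (256 ⌈M⌉²) = 1 / (128 ⌈M⌉) ≥ 1 / (256 M)`.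

PROOF OF THE CLAIM. Let `S d = 1 + r + … + r^(d-1)`, so `1 - r^d = (1 - r) S d` and
`r^d / (1 - r^d) = K r^d / S d`. `c d ≥ 0`: `S d ≥ d r^(d - 1) ≥ d r^d`.
`c d - c (d + 1) = K (1 / d - 1 / (d + 1)) - K (r^d / S d - r^(d+1) / S (d+1))
  = K / (d (d + 1)) - K r^d / (S d S (d + 1))`
(as `r^d S (d+1) - r^(d+1) S d = r^d`). With `s = √r`: `S d ≥ d s^(d-1)` by induction
(`S (d+1) = 1 + s² S d ≥ 1 + d s^(d+1) ≥ (d + 1) s^d`, the last inequality by induction: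
`1 + d s^(d+1) - (d+1) s^d = s (1 + (d-1) s^d - d s^(d-1)) + (1 - s) (1 - s^d)`), hence
`S d S (d + 1) ≥ d (d + 1) s^(2 d - 1) ≥ d (d + 1) r^d`.
-/

set_option autoImplicit false

namespace Pool.Agent.PPC

open Finset Filter Topology

namespace Low

/-- the geometric sum -/
noncomputable def S (r : ℝ) (d : ℕ) : ℝ := ∑ i ∈ range d, r ^ i

theorem one_sub_pow (r : ℝ) (d : ℕ) : 1 - r ^ d = (1 - r) * S r d := by
  unfold S
  have := mul_neg_geom_sum r d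
  linarith

theorem S_succ (r : ℝ) (d : ℕ) : S r (d + 1) = 1 + r * S r d := by
  unfold S
  rw [sum_range_succ', mul_sum]
  simp only [pow_succ, pow_zero]
  rw [add_comm]
  congr 1
  exact sum_congr rfl fun i _ => by ring

theorem B_ineq {s : ℝ} (h0 : 0 ≤ s) (h1 : s ≤ 1) (d : ℕ) :
    ((d : ℝ) + 2) * s ^ (d + 1) ≤ 1 + ((d : ℝ) + 1) * s ^ (d + 2) := by
  induction d with
  | zero =>
    have := sq_nonneg (1 - s)
    norm_num
    nlinarith
  | succ d ih =>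
    have e : 1 + (((d + 1 : ℕ) : ℝ) + 1) * s ^ (d + 1 + 2) - (((d + 1 : ℕ) : ℝ) + 2) * s ^ (d + 1 + 1) =
        s * (1 + ((d : ℝ) + 1) * s ^ (d + 2) - ((d : ℝ) + 2) * s ^ (d + 1)) +
          (1 - s) * (1 - s ^ (d + 2)) := by
      push_cast
      ring
    have h2 : s ^ (d + 2) ≤ 1 := pow_le_one₀ h0 h1
    have h3 : 0 ≤ s * (1 + ((d : ℝ) + 1) * s ^ (d + 2) - ((d : ℝ) + 2) * s ^ (d + 1)) :=
      mul_nonneg h0 (by linarith)
    have h4 : 0 ≤ (1 - s) * (1 - s ^ (d + 2)) := mul_nonneg (by linarith) (by linarith)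
    linarith

theorem S_ge {s : ℝ} (h0 : 0 ≤ s) (h1 : s ≤ 1) (d : ℕ) :
    ((d : ℝ) + 1) * s ^ d ≤ S (s ^ 2) (d + 1) := by
  induction d with
  | zero => simp [S]
  | succ d ih =>
    rw [S_succ]
    have h2 := B_ineq h0 h1 d
    have h3 : s ^ 2 * (((d : ℝ) + 1) * s ^ d) ≤ s ^ 2 * S (s ^ 2) (d + 1) :=
      mul_le_mul_of_nonneg_left ih (sq_nonneg s)
    have e : s ^ 2 * (((d : ℝ) + 1) * s ^ d) = ((d : ℝ) + 1) * s ^ (d + 2) := by ring
    push_cast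
    linarith

theorem S_mul_ge {r : ℝ} (h0 : 0 ≤ r) (h1 : r ≤ 1) {d : ℕ} (hd : 1 ≤ d) :
    (d : ℝ) * ((d : ℝ) + 1) * r ^ d ≤ S r d * S r (d + 1) := by
  obtain ⟨e, rfl⟩ : ∃ e, d = e + 1 := ⟨d - 1, by omega⟩
  set s := √r with hs
  have hs0 : 0 ≤ s := Real.sqrt_nonneg r
  have hs1 : s ≤ 1 := Real.sqrt_le_one.2 h1
  have hsr : s ^ 2 = r := Real.sq_sqrt h0
  have a1 := S_ge hs0 hs1 e
  have a2 := S_ge hs0 hs1 (e + 1)
  rw [hsr] at a1 a2
  have a3 : (0 : ℝ) ≤ ((e : ℝ) + 1) * s ^ e := by positivity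
  have a4 : (0 : ℝ) ≤ (((e + 1 : ℕ) : ℝ) + 1) * s ^ (e + 1) := by positivity
  have a5 := mul_le_mul a1 a2 a4 (a3.trans a1)
  refine le_trans ?_ a5
  rw [← hsr]
  have a6 : ((e : ℝ) + 1) * s ^ e * ((((e + 1 : ℕ) : ℝ) + 1) * s ^ (e + 1)) =
      ((e : ℝ) + 1) * ((e : ℝ) + 2) * s ^ (2 * e + 1) := by
    push_cast
    ring
  have a7 : ((e + 1 : ℕ) : ℝ) * (((e + 1 : ℕ) : ℝ) + 1) * (s ^ 2) ^ (e + 1) =
      ((e : ℝ) + 1) * ((e : ℝ) + 2) * s ^ (2 * e + 1 + 1) := by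
    push_cast
    ring
  rw [a6, a7]
  have a8 : s ^ (2 * e + 1 + 1) ≤ s ^ (2 * e + 1) := pow_le_pow_of_le_one hs0 hs1 (by omega)
  exact mul_le_mul_of_nonneg_left a8 (by positivity)

theorem S_pos {r : ℝ} (h0 : 0 ≤ r) {d : ℕ} (hd : 1 ≤ d) : 0 < S r d := by
  obtain ⟨e, rfl⟩ : ∃ e, d = e + 1 := ⟨d - 1, by omega⟩
  rw [S_succ]
  have : 0 ≤ S r e := sum_nonneg fun i _ => by positivity
  have := mul_nonneg h0 this
  linarith

theorem S_ge_mul {r : ℝ} (h0 : 0 ≤ r) (h1 : r ≤ 1) (d : ℕ) : (d : ℝ) * r ^ d ≤ S r d := by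
  unfold S
  calc (d : ℝ) * r ^ d = ∑ i ∈ range d, r ^ d := by simp
    _ ≤ _ := sum_le_sum fun i hi => pow_le_pow_of_le_one h0 h1 (mem_range.1 hi).le

/-- the correction `c d` -/
noncomputable def c (K r : ℝ) (d : ℕ) : ℝ := K / d - K * r ^ d / S r d

theorem c_nonneg {K r : ℝ} (hK : 0 ≤ K) (h0 : 0 ≤ r) (h1 : r ≤ 1) {d : ℕ} (hd : 1 ≤ d) :
    0 ≤ c K r d := by
  unfold c
  have hd' : (0 : ℝ) < d := by exact_mod_cast (by omega : 0 < d)
  have hS := S_pos h0 hd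
  rw [sub_nonneg, div_le_div_iff₀ hS hd']
  have := S_ge_mul h0 h1 d
  nlinarith [mul_le_mul_of_nonneg_left this hK]

theorem c_anti {K r : ℝ} (hK : 0 ≤ K) (h0 : 0 ≤ r) (h1 : r ≤ 1) {d : ℕ} (hd : 1 ≤ d) :
    c K r (d + 1) ≤ c K r d := by
  unfold c
  have hd' : (0 : ℝ) < d := by exact_mod_cast (by omega : 0 < d)
  have hS := S_pos h0 hd
  have hS' := S_pos (r := r) h0 (by omega : 1 ≤ d + 1)
  have hm := S_mul_ge h0 h1 hd
  have e1 : K / (d : ℝ) - K * r ^ d / S r d - (K / ((d + 1 : ℕ) : ℝ) -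
      K * r ^ (d + 1) / S r (d + 1)) = K * (1 / ((d : ℝ) * ((d : ℝ) + 1)) -
        r ^ d * (S r (d + 1) - r * S r d) / (S r d * S r (d + 1))) := by
    push_cast
    field_simp
    ring
  have e2 : S r (d + 1) - r * S r d = 1 := by rw [S_succ]; ring
  have e3 : r ^ d * 1 / (S r d * S r (d + 1)) ≤ 1 / ((d : ℝ) * ((d : ℝ) + 1)) := by
    rw [div_le_div_iff₀ (mul_pos hS hS') (by positivity)]
    linarith
  have e4 : 0 ≤ K * (1 / ((d : ℝ) * ((d : ℝ) + 1)) -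
        r ^ d * (S r (d + 1) - r * S r d) / (S r d * S r (d + 1))) := by
    rw [e2]
    exact mul_nonneg hK (by linarith)
  linarith

/-- exchange of summation -/
theorem sum_gg_pow (f : ℕ → ℝ) (r : ℝ) (N : ℕ) :
    ∑ n ∈ Icc 1 N, gg f n * r ^ n =
      ∑ d ∈ Icc 1 N, f d * ∑ j ∈ Icc 1 (N / d), (r ^ d) ^ j := by
  unfold gg
  simp only [sum_mul, mul_sum]
  rw [sum_sigma', sum_sigma']
  refine sum_bij' (fun x _ => (⟨x.2, x.1 / x.2⟩ : Σ _ : ℕ, ℕ))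
    (fun x _ => (⟨x.1 * x.2, x.1⟩ : Σ _ : ℕ, ℕ)) ?_ ?_ ?_ ?_ ?_
  · rintro ⟨n, d⟩ hx
    simp only [mem_sigma, mem_Icc, Nat.mem_divisors] at hx ⊢
    obtain ⟨⟨h1, h2⟩, ⟨e, rfl⟩, h3⟩ := hx
    have hd : 0 < d := Nat.pos_of_ne_zero (by rintro rfl; simp at h3)
    have he : 0 < e := Nat.pos_of_ne_zero (by rintro rfl; simp at h3)
    rw [Nat.mul_div_cancel_left _ hd]
    refine ⟨⟨hd, le_trans (Nat.le_mul_of_pos_right d he) h2⟩, he, ?_⟩
    rw [Nat.le_div_iff_mul_le hd]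
    linarith [mul_comm d e]
  · rintro ⟨d, j⟩ hx
    simp only [mem_sigma, mem_Icc, Nat.mem_divisors] at hx ⊢
    obtain ⟨⟨h1, h2⟩, h3, h4⟩ := hx
    rw [Nat.le_div_iff_mul_le (by omega)] at h4
    have h5 : 0 < d * j := Nat.mul_pos (by omega) (by omega)
    exact ⟨⟨h5, by linarith [mul_comm d j]⟩, Dvd.intro _ rfl, by omega⟩
  · rintro ⟨n, d⟩ hx
    simp only [mem_sigma, mem_Icc, Nat.mem_divisors] at hx ⊢
    obtain ⟨⟨h1, h2⟩, h3, h4⟩ := hx
    simp [Nat.mul_div_cancel' h3]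
  · rintro ⟨d, j⟩ hx
    simp only [mem_sigma, mem_Icc] at hx ⊢
    obtain ⟨⟨h1, h2⟩, h3, h4⟩ := hx
    simp [Nat.mul_div_cancel_left j (by omega : 0 < d)]
  · rintro ⟨n, d⟩ hx
    simp only [mem_sigma, mem_Icc, Nat.mem_divisors] at hx ⊢
    obtain ⟨⟨h1, h2⟩, h3, h4⟩ := hx
    rw [← pow_mul, Nat.mul_div_cancel' h3]

theorem geom_Icc {x : ℝ} (hx : x ≠ 1) (m : ℕ) :
    ∑ j ∈ Icc 1 m, x ^ j = (x - x ^ (m + 1)) / (1 - x) := by
  have h1 : 1 - x ≠ 0 := sub_ne_zero.2 (Ne.symm hx)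
  rw [eq_div_iff h1]
  induction m with
  | zero => simp
  | succ m ih =>
    rw [sum_Icc_succ_top (by omega), add_mul, ih]
    ring

/-- the upper bound for the smoothed sum -/
theorem upper {f : ℕ → ℝ} {M : ℝ} (h : Ch f M) {K r : ℝ} (hK : 1 < K) (hr : r = 1 - 1 / K)
    (N : ℕ) :
    ∑ n ∈ Icc 1 N, gg f n * r ^ n ≤ K * LL f N + 2 * M + N * K * r ^ N := by
  have hK0 : 0 < K := by linarith
  have hr0 : 0 ≤ r := by
    rw [hr, sub_nonneg, div_le_one hK0]; exact hK.le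
  have hr1 : r < 1 := by
    rw [hr]
    have : 0 < 1 / K := by positivity
    linarith
  have hrK : (1 - r) * K = 1 := by
    rw [hr]
    field_simp
    ring
  rw [sum_gg_pow]
  have key : ∀ d ∈ Icc 1 N, f d * ∑ j ∈ Icc 1 (N / d), (r ^ d) ^ j ≤
      K * (f d / d) - f d * c K r d + K * r ^ N := by
    intro d hd
    rw [mem_Icc] at hd
    have hd' : (0 : ℝ) < d := by exact_mod_cast (by omega : 0 < d)
    have hrd : r ^ d < 1 := pow_lt_one₀ hr0 hr1 (by omega)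
    have hS := S_pos hr0 hd.1
    have e0 : 1 - r ^ d = (1 - r) * S r d := one_sub_pow r d
    have e1 : (1 - r ^ d) * K = S r d := by
      rw [e0]
      calc (1 - r) * S r d * K = ((1 - r) * K) * S r d := by ring
        _ = S r d := by rw [hrK, one_mul]
    have hne : 1 - r ^ d ≠ 0 := by linarith
    rw [geom_Icc hrd.ne]
    have e2 : r ^ d / (1 - r ^ d) = K / d - c K r d := by
      unfold c
      rw [← e1]
      field_simp
      ring
    have e3 : f d * ((r ^ d - (r ^ d) ^ (N / d + 1)) / (1 - r ^ d)) =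
        K * (f d / d) - f d * c K r d - f d * ((r ^ d) ^ (N / d + 1) / (1 - r ^ d)) := by
      rw [sub_div, e2]
      ring
    have h3 : (r ^ d) ^ (N / d + 1) ≤ r ^ N := by
      rw [← pow_mul]
      refine pow_le_pow_of_le_one hr0 hr1.le ?_
      have := Nat.lt_div_mul_add (a := N) (b := d) (by omega)
      nlinarith
    have h4 : (r ^ d) ^ (N / d + 1) / (1 - r ^ d) ≤ K * r ^ N := by
      rw [div_le_iff₀ (by linarith)]
      have h5 : 1 ≤ S r d := by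
        obtain ⟨e, rfl⟩ : ∃ e, d = e + 1 := ⟨d - 1, by omega⟩
        rw [S_succ]
        have : 0 ≤ S r e := sum_nonneg fun i _ => by positivity
        nlinarith
      have h6 : 0 ≤ r ^ N := by positivity
      calc (r ^ d) ^ (N / d + 1) ≤ r ^ N := h3
        _ ≤ r ^ N * S r d := by nlinarith
        _ = K * r ^ N * (1 - r ^ d) := by rw [← e1]; ring
    have h7 : 0 ≤ (r ^ d) ^ (N / d + 1) / (1 - r ^ d) :=
      div_nonneg (by positivity) (by linarith)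
    have h8 := (abs_le.1 (h.abs_le d)).1
    rw [e3]
    nlinarith
  refine (sum_le_sum key).trans ?_
  rw [sum_add_distrib, sum_sub_distrib, ← mul_sum]
  have h1 : |∑ k ∈ Ico 1 (N + 1), f k * c K r k| ≤ 2 * M * c K r 1 := by
    have h1 := Pool.Agent.Sv.abel_bound (E := fun k => ∑ j ∈ range k, f j) (g := c K r) (M := M)
      (n := 1) (fun k _ => h.bd k) (fun k hk => c_anti hK0.le hr0 hr1.le hk)
      (fun k hk => c_nonneg hK0.le hr0 hr1.le hk) (by omega : 1 ≤ N + 1)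
    have e : ∀ k, (∑ j ∈ range (k + 1), f j) - ∑ j ∈ range k, f j = f k := by
      intro k
      rw [sum_range_succ]; ring
    simpa only [e] using h1
  have hc1 : c K r 1 = 1 := by
    unfold c S
    simp
    nlinarith
  have hI : Icc 1 N = Ico 1 (N + 1) := by
    ext x
    simp only [mem_Icc, mem_Ico]
    omega
  have h2 : ∑ x ∈ Icc 1 N, K * r ^ N = N * K * r ^ N := by
    simp [Nat.card_Icc]
    ring
  rw [h2, hI, ← hI]
  rw [hc1, mul_one, ← hI] at h1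
  have h3 := (abs_le.1 h1).1
  unfold LL
  linarith

/-- the lower bound for the smoothed sum -/
theorem lower {f : ℕ → ℝ} {M : ℝ} (h : Ch f M) {r : ℝ} (hr0 : 0 ≤ r) (hr1 : r ≤ 1) {m N : ℕ}
    (hN : m ^ 2 ≤ N) : (m : ℝ) * r ^ (m ^ 2) ≤ ∑ n ∈ Icc 1 N, gg f n * r ^ n := by
  have hinj : Set.InjOn (fun j : ℕ => j ^ 2) (Icc 1 m : Finset ℕ) := by
    intro a _ b _ hab
    exact Nat.pow_left_injective (by norm_num) hab
  have h1 : ∑ n ∈ (Icc 1 m).image (fun j => j ^ 2), gg f n * r ^ n ≤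
      ∑ n ∈ Icc 1 N, gg f n * r ^ n := by
    refine sum_le_sum_of_subset_of_nonneg ?_ ?_
    · intro x hx
      simp only [mem_image, mem_Icc] at hx ⊢
      obtain ⟨j, ⟨h1, h2⟩, rfl⟩ := hx
      exact ⟨Nat.one_le_pow _ _ (by omega), (Nat.pow_le_pow_left h2 2).trans hN⟩
    · intro x _ _
      exact mul_nonneg (gg_nonneg h x) (by positivity)
  refine le_trans ?_ h1
  rw [sum_image hinj]
  calc (m : ℝ) * r ^ (m ^ 2) = ∑ j ∈ Icc 1 m, r ^ (m ^ 2) := by simp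
    _ ≤ _ := by
        refine sum_le_sum fun j hj => ?_
        rw [mem_Icc] at hj
        have h2 := one_le_gg_sq h hj.1
        have h3 : r ^ (m ^ 2) ≤ r ^ (j ^ 2) :=
          pow_le_pow_of_le_one hr0 hr1 (Nat.pow_le_pow_left hj.2 2)
        have h4 : 0 ≤ r ^ (j ^ 2) := by positivity
        show r ^ (m ^ 2) ≤ gg f (j ^ 2) * r ^ (j ^ 2)
        nlinarith

end Low

theorem lam_ge {f : ℕ → ℝ} {M : ℝ} (h : Ch f M) {lam : ℝ}
    (hl : Tendsto (LL f) atTop (𝓝 lam)) : 1 / (256 * M) ≤ lam := by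
  have hM := h.one_le
  set a := ⌈M⌉₊ with ha
  have ha1 : M ≤ a := Nat.le_ceil M
  have ha2 : (a : ℝ) < M + 1 := Nat.ceil_lt_add_one (by linarith)
  have ha0 : (1 : ℝ) ≤ a := hM.trans ha1
  have ha0' : 1 ≤ a := by exact_mod_cast ha0
  set m : ℕ := 16 * a with hm
  have hm1 : (m : ℝ) = 16 * a := by rw [hm]; push_cast; ring
  set K : ℝ := (m : ℝ) ^ 2 with hK
  have hK1 : 1 < K := by
    rw [hK, hm1]
    nlinarith
  have hK0 : 0 < K := by linarith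
  set r : ℝ := 1 - 1 / K with hr
  have hr0 : 0 ≤ r := by
    rw [hr, sub_nonneg, div_le_one hK0]; exact hK1.le
  have hr1 : r < 1 := by
    rw [hr]
    have : 0 < 1 / K := by positivity
    linarith
  have hpow : 1 / 4 ≤ r ^ (m ^ 2) := by
    have e : m ^ 2 = (128 * a ^ 2) * 2 := by rw [hm]; ring
    rw [e, pow_mul]
    have h1 : 1 + ((128 * a ^ 2 : ℕ) : ℝ) * (-(1 / K)) ≤ (1 + (-(1 / K))) ^ (128 * a ^ 2) := by
      refine one_add_mul_le_pow ?_ _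
      have : 1 / K ≤ 1 := by rw [div_le_one hK0]; exact hK1.le
      linarith
    have h2 : 1 + ((128 * a ^ 2 : ℕ) : ℝ) * (-(1 / K)) = 1 / 2 := by
      rw [hK, hm1]
      push_cast
      field_simp
      ring
    have h3 : (1 + (-(1 / K))) = r := by rw [hr]; ring
    rw [h2, h3] at h1
    nlinarith
  have hbd : ∀ᶠ N in atTop, 4 * (a : ℝ) ≤ K * LL f N + 2 * M + N * K * r ^ N := by
    filter_upwards [eventually_ge_atTop (m ^ 2)] with N hN
    have h1 := Low.upper h hK1 hr N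
    have h2 := Low.lower h hr0 hr1.le hN
    have h3 : 4 * (a : ℝ) ≤ (m : ℝ) * r ^ (m ^ 2) := by
      rw [hm1]
      nlinarith
    linarith
  have hlim : Tendsto (fun N : ℕ => K * LL f N + 2 * M + N * K * r ^ N) atTop
      (𝓝 (K * lam + 2 * M + 0)) := by
    refine ((hl.const_mul K).add tendsto_const_nhds).add ?_
    have h1 := tendsto_self_mul_const_pow_of_lt_one hr0 hr1
    have h2 := h1.const_mul K
    rw [mul_zero] at h2
    refine h2.congr fun N => by ring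
  have h1 : 4 * (a : ℝ) ≤ K * lam + 2 * M + 0 := ge_of_tendsto hlim hbd
  have h2 : 2 * (a : ℝ) ≤ K * lam := by linarith
  rw [hK, hm1] at h2
  rw [div_le_iff₀ (by positivity)]
  have h3 : 1 ≤ 128 * a * lam := by
    by_contra hcon
    push Not at hcon
    nlinarith
  have h4 : 0 < lam := by
    by_contra hcon
    push Not at hcon
    nlinarith
  nlinarith

end Pool.Agent.PPC
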