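import Pool.Agent.PPC.Lim
import Pool.Agent.PPC.Low
import Pool.Agent.PPC.Cheb

/-!
# Module PPC/Dn: lower bound for `∑_{p ≤ t} f p log p / p`, for a fixed `f`

PROOF. `lam > 0` from `exists_lam` and `lam_ge`. All constants may depend on `f` and `M`.
By parts (`GG f` is the summatory function of `gg f`)
`∑_{n ≤ t} gg f n log n = GG f t log t - ∑_{n < t} GG f n (log (n+1) - log n)
  ≥ (lam t - 6 √(M t)) log t - ∑_{n < t} (lam n + 6 √(M n)) / n ≥ lam t log t - C t`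
(`log t ≤ 2 √t`, `∑_{n ≤ t} 1/√n ≤ 2 √t`). And by `sum_gg_log`
`∑_{n ≤ t} gg f n log n = ∑_{e ≤ t} Λ e (1 + f e) GG f (t / e)
  ≤ ∑_{e ≤ t} Λ e (1 + f e) (lam t / e + 6 √(M t / e)) ≤ lam t ∑_{e ≤ t} Λ e (1 + f e) / e + C t`
(`sum_sqrt_le`). So `∑_{e ≤ t} Λ e (1 + f e) / e ≥ log t - C`; the non-primes contribute at most a
constant (`sum_nonprime_le`), and `∑_{p ≤ t} log p / p ≤ log t + log 4` (`Pool.Agent.Sv.A_le`).
-/

set_option autoImplicit false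

namespace Pool.Agent.PPC

open Finset
open scoped ArithmeticFunction.vonMangoldt

theorem Dn_GG_nonneg {f : ℕ → ℝ} {M : ℝ} (h : Ch f M) (t : ℕ) : 0 ≤ GG f t :=
  Finset.sum_nonneg fun n _ => gg_nonneg h n

theorem Dn_abel (f : ℕ → ℝ) {t : ℕ} (ht : 1 ≤ t) :
    ∑ n ∈ Icc 1 t, gg f n * Real.log n =
      GG f t * Real.log t -
        ∑ n ∈ Ico 1 t, GG f n * (Real.log ((n + 1 : ℕ) : ℝ) - Real.log n) := by
  induction t, ht using Nat.le_induction with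
  | base => simp
  | succ t ht ih =>
    have h1 : GG f (t + 1) = GG f t + gg f (t + 1) := by
      unfold GG
      rw [sum_Icc_succ_top (by omega)]
    rw [sum_Icc_succ_top (by omega), ih, sum_Ico_succ_top ht, h1]
    ring

theorem Dn_sum_inv_sqrt (t : ℕ) : ∑ n ∈ Icc 1 t, 1 / √(n : ℝ) ≤ 2 * √(t : ℝ) := by
  induction t with
  | zero => simp
  | succ t ih =>
    rw [sum_Icc_succ_top (by omega)]
    have h0 : (0 : ℝ) ≤ t := Nat.cast_nonneg t
    have h1 : 0 < √((t + 1 : ℕ) : ℝ) := Real.sqrt_pos.2 (by positivity)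
    have h2 : √(t : ℝ) ≤ √((t + 1 : ℕ) : ℝ) := Real.sqrt_le_sqrt (by push_cast; linarith)
    have h3 : √((t + 1 : ℕ) : ℝ) * √((t + 1 : ℕ) : ℝ) = t + 1 := by
      rw [Real.mul_self_sqrt (by positivity)]
      push_cast; ring
    have h4 : √(t : ℝ) * √(t : ℝ) = t := Real.mul_self_sqrt h0
    have h5 : 1 / √((t + 1 : ℕ) : ℝ) ≤ 2 * √((t + 1 : ℕ) : ℝ) - 2 * √(t : ℝ) := by
      rw [div_le_iff₀ h1]
      nlinarith [sq_nonneg (√((t + 1 : ℕ) : ℝ) - √(t : ℝ))]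
    linarith

theorem Dn_log_le {t : ℕ} (ht : 1 ≤ t) : Real.log t ≤ 2 * √(t : ℝ) := by
  have h0 : (0 : ℝ) < t := by exact_mod_cast ht
  have h1 : 0 < √(t : ℝ) := Real.sqrt_pos.2 h0
  have h2 : Real.log t = 2 * Real.log (√(t : ℝ)) := by
    rw [Real.log_sqrt h0.le]; ring
  have h3 := Real.log_le_sub_one_of_pos h1
  rw [h2]
  linarith

theorem Dn_log_succ {n : ℕ} (hn : 1 ≤ n) :
    Real.log ((n + 1 : ℕ) : ℝ) - Real.log n ≤ 1 / n := by
  have hn0 : (0 : ℝ) < n := by exact_mod_cast hn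
  push_cast
  rw [← Real.log_div (by positivity) (by positivity)]
  have := Real.log_le_sub_one_of_pos (show (0 : ℝ) < (n + 1) / n by positivity)
  refine this.trans (le_of_eq ?_)
  field_simp
  ring

theorem Dn_lower {f : ℕ → ℝ} {M : ℝ} (h : Ch f M) {lam : ℝ} (hlam : 0 < lam)
    (hl : ∀ u : ℕ, 1 ≤ u → |LL f u - lam| ≤ 2 * M / u) {t : ℕ} (ht : 1 ≤ t) :
    lam * t * Real.log t - (lam + 24 * √M) * t ≤ ∑ n ∈ Icc 1 t, gg f n * Real.log n := by
  have hM := h.one_le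
  have ht0 : (1 : ℝ) ≤ t := by exact_mod_cast ht
  rw [Dn_abel f ht]
  have h1 := GG_asymp h hl ht
  rw [abs_le] at h1
  have hs : √(M * t) = √M * √(t : ℝ) := Real.sqrt_mul (by linarith) _
  have hss : √(t : ℝ) * √(t : ℝ) = t := Real.mul_self_sqrt (by linarith)
  have hM0 : 0 ≤ √M := Real.sqrt_nonneg M
  have hst : 0 ≤ √(t : ℝ) := Real.sqrt_nonneg _
  have hlog0 : 0 ≤ Real.log t := Real.log_natCast_nonneg t
  have h2 : (lam * t - 6 * (√M * √(t : ℝ))) * Real.log t ≤ GG f t * Real.log t := by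
    refine mul_le_mul_of_nonneg_right ?_ hlog0
    rw [hs] at h1
    linarith [h1.1]
  have h3 : ∑ n ∈ Ico 1 t, GG f n * (Real.log ((n + 1 : ℕ) : ℝ) - Real.log n) ≤
      ∑ n ∈ Ico 1 t, (lam + 6 * √M * (1 / √(n : ℝ))) := by
    refine Finset.sum_le_sum fun n hn => ?_
    rw [mem_Ico] at hn
    have hn0 : (1 : ℝ) ≤ n := by exact_mod_cast hn.1
    have g1 := GG_asymp h hl hn.1
    rw [abs_le, Real.sqrt_mul (by linarith)] at g1
    have g2 := Dn_log_succ hn.1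
    have g3 : 0 ≤ Real.log ((n + 1 : ℕ) : ℝ) - Real.log n := by
      rw [sub_nonneg]
      refine Real.log_le_log (by linarith) ?_
      push_cast; linarith
    have g4 : 0 ≤ √(n : ℝ) := Real.sqrt_nonneg _
    have g5 : √(n : ℝ) * √(n : ℝ) = n := Real.mul_self_sqrt (by linarith)
    have g6 : 0 < √(n : ℝ) := Real.sqrt_pos.2 (by linarith)
    calc GG f n * (Real.log ((n + 1 : ℕ) : ℝ) - Real.log n)
        ≤ (lam * n + 6 * (√M * √(n : ℝ))) * (1 / n) := by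
          refine mul_le_mul (by linarith [g1.2]) g2 g3 (by positivity)
      _ = lam + 6 * √M * (1 / √(n : ℝ)) := by
          have : (1 : ℝ) / n = 1 / (√(n : ℝ) * √(n : ℝ)) := by rw [g5]
          have e1 : lam * n * (1 / n) = lam := by field_simp
          have e2 : 6 * (√M * √(n : ℝ)) * (1 / (√(n : ℝ) * √(n : ℝ))) =
              6 * √M * (1 / √(n : ℝ)) := by field_simp
          rw [add_mul, e1, this, e2]
  have h4 : ∑ n ∈ Ico 1 t, (lam + 6 * √M * (1 / √(n : ℝ))) ≤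
      lam * t + 6 * √M * (2 * √(t : ℝ)) := by
    rw [Finset.sum_add_distrib, ← Finset.mul_sum, Finset.sum_const, Nat.card_Ico, nsmul_eq_mul]
    have e1 : ∑ n ∈ Ico 1 t, 1 / √(n : ℝ) ≤ 2 * √(t : ℝ) := by
      refine le_trans ?_ (Dn_sum_inv_sqrt t)
      refine Finset.sum_le_sum_of_subset_of_nonneg ?_ fun _ _ _ => by positivity
      intro x hx
      rw [mem_Ico] at hx
      rw [mem_Icc]
      omega
    have e2 : ((t - 1 : ℕ) : ℝ) * lam ≤ lam * t := by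
      rw [Nat.cast_sub ht]
      push_cast
      nlinarith
    have e3 : 6 * √M * ∑ n ∈ Ico 1 t, 1 / √(n : ℝ) ≤ 6 * √M * (2 * √(t : ℝ)) :=
      mul_le_mul_of_nonneg_left e1 (by positivity)
    linarith
  have h5 : √M * √(t : ℝ) * Real.log t ≤ 2 * √M * t := by
    have e1 := mul_le_mul_of_nonneg_left (Dn_log_le ht) (mul_nonneg hM0 hst)
    calc √M * √(t : ℝ) * Real.log t ≤ √M * √(t : ℝ) * (2 * √(t : ℝ)) := e1
      _ = 2 * √M * (√(t : ℝ) * √(t : ℝ)) := by ring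
      _ = 2 * √M * t := by rw [hss]
  have h6 : √(t : ℝ) ≤ t := by
    have : (1 : ℝ) ≤ √(t : ℝ) := by
      rw [Real.one_le_sqrt]; exact ht0
    nlinarith
  have h7 : √M * √(t : ℝ) ≤ √M * t := mul_le_mul_of_nonneg_left h6 hM0
  nlinarith

theorem Dn_upper {f : ℕ → ℝ} {M : ℝ} (h : Ch f M) {lam : ℝ} (hlam : 0 < lam)
    (hl : ∀ u : ℕ, 1 ≤ u → |LL f u - lam| ≤ 2 * M / u) {C : ℝ}
    (hC : ∀ t : ℕ, ∑ e ∈ Icc 1 t, Λ e / √(e : ℝ) ≤ C * √(t : ℝ)) {t : ℕ} (ht : 1 ≤ t) :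
    ∑ n ∈ Icc 1 t, gg f n * Real.log n ≤
      lam * t * ∑ e ∈ Icc 1 t, Λ e * (1 + f e) / e + 12 * C * √M * t := by
  have hM := h.one_le
  have ht0 : (1 : ℝ) ≤ t := by exact_mod_cast ht
  have hM0 : 0 ≤ √M := Real.sqrt_nonneg M
  have hst : 0 ≤ √(t : ℝ) := Real.sqrt_nonneg _
  have hss : √(t : ℝ) * √(t : ℝ) = t := Real.mul_self_sqrt (by linarith)
  rw [sum_gg_log h]
  have h1 : ∑ e ∈ Icc 1 t, Λ e * (1 + f e) * GG f (t / e) ≤
      ∑ e ∈ Icc 1 t, (lam * t * (Λ e * (1 + f e) / e) +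
        12 * √M * √(t : ℝ) * (Λ e / √(e : ℝ))) := by
    refine Finset.sum_le_sum fun e he => ?_
    rw [mem_Icc] at he
    have he0 : (1 : ℝ) ≤ e := by exact_mod_cast he.1
    have hse : 0 < √(e : ℝ) := Real.sqrt_pos.2 (by linarith)
    have hte : 1 ≤ t / e := (Nat.one_le_div_iff (by omega)).2 he.2
    have g1 := GG_asymp h hl hte
    rw [abs_le, Real.sqrt_mul (by linarith)] at g1
    have g2 : ((t / e : ℕ) : ℝ) ≤ (t : ℝ) / e := Nat.cast_div_le
    have g3 : √((t / e : ℕ) : ℝ) ≤ √(t : ℝ) / √(e : ℝ) := by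
      rw [← Real.sqrt_div (by linarith)]
      exact Real.sqrt_le_sqrt g2
    have g4 : GG f (t / e) ≤ lam * (t / e) + 6 * √M * (√(t : ℝ) / √(e : ℝ)) := by
      have a1 : lam * ((t / e : ℕ) : ℝ) ≤ lam * ((t : ℝ) / e) :=
        mul_le_mul_of_nonneg_left g2 hlam.le
      have a2 : √M * √((t / e : ℕ) : ℝ) ≤ √M * (√(t : ℝ) / √(e : ℝ)) :=
        mul_le_mul_of_nonneg_left g3 hM0
      nlinarith [g1.2]
    have g5 : 0 ≤ Λ e := ArithmeticFunction.vonMangoldt_nonneg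
    have g6 := h.abs_le e
    rw [abs_le] at g6
    have g7 : 0 ≤ Λ e * (1 + f e) := mul_nonneg g5 (by linarith [g6.1])
    have g8 : Λ e * (1 + f e) ≤ 2 * Λ e := by nlinarith [g6.2]
    calc Λ e * (1 + f e) * GG f (t / e)
        ≤ Λ e * (1 + f e) * (lam * (t / e) + 6 * √M * (√(t : ℝ) / √(e : ℝ))) :=
          mul_le_mul_of_nonneg_left g4 g7
      _ = lam * t * (Λ e * (1 + f e) / e) +
          Λ e * (1 + f e) * (6 * √M * (√(t : ℝ) / √(e : ℝ))) := by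
          field_simp
      _ ≤ lam * t * (Λ e * (1 + f e) / e) +
          2 * Λ e * (6 * √M * (√(t : ℝ) / √(e : ℝ))) := by
          have := mul_le_mul_of_nonneg_right g8
            (show 0 ≤ 6 * √M * (√(t : ℝ) / √(e : ℝ)) by positivity)
          linarith
      _ = lam * t * (Λ e * (1 + f e) / e) + 12 * √M * √(t : ℝ) * (Λ e / √(e : ℝ)) := by
          ring
  refine h1.trans ?_
  rw [Finset.sum_add_distrib, ← Finset.mul_sum, ← Finset.mul_sum]
  have h2 := mul_le_mul_of_nonneg_left (hC t) (show 0 ≤ 12 * √M * √(t : ℝ) by positivity)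
  have h3 : 12 * √M * √(t : ℝ) * (C * √(t : ℝ)) = 12 * C * √M * t := by
    calc 12 * √M * √(t : ℝ) * (C * √(t : ℝ)) = 12 * C * √M * (√(t : ℝ) * √(t : ℝ)) := by ring
      _ = 12 * C * √M * t := by rw [hss]
  linarith

theorem Dn_split {f : ℕ → ℝ} {M : ℝ} (h : Ch f M) {C : ℝ}
    (hC : ∀ t : ℕ, ∑ e ∈ (Icc 1 t).filter (fun e => ¬ e.Prime), Λ e / e ≤ C) {t : ℕ}
    (ht : 1 ≤ t) :
    ∑ e ∈ Icc 1 t, Λ e * (1 + f e) / e ≤ Real.log t + Real.log 4 + HH f t + 2 * C := by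
  rw [← Finset.sum_filter_add_sum_filter_not (Icc 1 t) Nat.Prime]
  have h1 : ∑ e ∈ (Icc 1 t).filter Nat.Prime, Λ e * (1 + f e) / e =
      ∑ e ∈ (Icc 1 t).filter Nat.Prime, Real.log e / e + HH f t := by
    unfold HH
    rw [← Finset.sum_add_distrib]
    refine Finset.sum_congr rfl fun e he => ?_
    rw [ArithmeticFunction.vonMangoldt_apply_prime (mem_filter.1 he).2]
    ring
  have h2 : ∑ e ∈ (Icc 1 t).filter Nat.Prime, Real.log e / e ≤ Real.log t + Real.log 4 := by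
    refine le_trans (le_of_eq ?_) (Pool.Agent.Sv.A_le t ht)
    unfold Pool.Agent.Sv.A
    refine Finset.sum_congr ?_ fun _ _ => rfl
    ext p
    simp only [mem_filter, mem_range, mem_Icc]
    constructor
    · rintro ⟨⟨h1, h2⟩, h3⟩
      exact ⟨by omega, h3⟩
    · rintro ⟨h1, h2⟩
      exact ⟨⟨h2.one_lt.le, by omega⟩, h2⟩
  have h3 : ∑ e ∈ (Icc 1 t).filter (fun e => ¬ e.Prime), Λ e * (1 + f e) / e ≤ 2 * C := by
    have h4 : ∑ e ∈ (Icc 1 t).filter (fun e => ¬ e.Prime), Λ e * (1 + f e) / e ≤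
        ∑ e ∈ (Icc 1 t).filter (fun e => ¬ e.Prime), 2 * (Λ e / e) := by
      refine Finset.sum_le_sum fun e _ => ?_
      have g5 : 0 ≤ Λ e := ArithmeticFunction.vonMangoldt_nonneg
      have g6 := h.abs_le e
      rw [abs_le] at g6
      have g8 : Λ e * (1 + f e) ≤ 2 * Λ e := by nlinarith [g6.2]
      have g9 : Λ e * (1 + f e) / e ≤ 2 * Λ e / e :=
        div_le_div_of_nonneg_right g8 (Nat.cast_nonneg e)
      linarith [mul_div_assoc 2 (Λ e) (e : ℝ)]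
    rw [← Finset.mul_sum] at h4
    linarith [hC t]
  rw [h1]
  linarith

theorem HH_ge {f : ℕ → ℝ} {M : ℝ} (h : Ch f M) : ∃ C : ℝ, 0 < C ∧ ∀ T : ℕ, 1 ≤ T → -C ≤ HH f T := by
  obtain ⟨lam, hl1, hl2⟩ := exists_lam h
  have hM := h.one_le
  have hlam : 0 < lam := lt_of_lt_of_le (by positivity) (lam_ge h hl1)
  obtain ⟨C1, hC1, h1⟩ := sum_sqrt_le
  obtain ⟨C2, hC2, h2⟩ := sum_nonprime_le
  have hlog4 : 0 ≤ Real.log 4 := Real.log_nonneg (by norm_num)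
  refine ⟨(lam + 24 * √M + 12 * C1 * √M) / lam + Real.log 4 + 2 * C2, by positivity, ?_⟩
  intro t ht
  have ht0 : (1 : ℝ) ≤ t := by exact_mod_cast ht
  have a1 := Dn_lower h hlam hl2 ht
  have a2 := Dn_upper h hlam hl2 h1 ht
  have a3 := Dn_split h h2 ht
  set S := ∑ e ∈ Icc 1 t, Λ e * (1 + f e) / e with hS
  have a4 : Real.log t - (lam + 24 * √M + 12 * C1 * √M) / lam ≤ S := by
    rw [sub_le_iff_le_add, ← sub_le_iff_le_add', le_div_iff₀ hlam]
    have a5 : t * ((Real.log t - S) * lam) ≤ t * (lam + 24 * √M + 12 * C1 * √M) := by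
      nlinarith
    exact le_of_mul_le_mul_left a5 (by linarith)
  linarith

end Pool.Agent.PPC
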