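import Pool.Agent.PPC.Conv
import Pool.Agent.PalSieve.Mertens

/-!
# Module PPC/Lim: the value at 1 and the average of `gg f`

PROOFS.
* `exists_lam`: with `E k = ∑_{n < k} f n` (`|E k| ≤ M`) `Pool.Agent.Sv.abel_bound` (weights `1 / k`,
  from `k = u + 1`) gives `|LL f v - LL f u| ≤ 2 M / (u + 1)` for `1 ≤ u ≤ v`; so `LL f` is Cauchy,
  has a limit `lam`, and `|LL f u - lam| ≤ 2 M / u`.
* `GG_asymp`: let `u = ⌈√(M t)⌉₊ ≥ 1`, `N = max t u`. `GG_eq`. The part `d > u` is at most `2 M (t / u) ≤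
  2 √(M t)` by `abel_bound` with the nonincreasing weights `(t / d : ℕ)`. In the part `d ≤ u` replace
  `(t / d : ℕ)` by `t / d`: error at most `u ≤ √(M t) + 1 ≤ 2 √(M t)` (as `M t ≥ 1`); and
  `t LL f u = lam t + O(2 M t / u)`, `2 M t / u ≤ 2 √(M t)`. Total `6 √(M t)`.
-/

set_option autoImplicit false

namespace Pool.Agent.PPC

open Finset Filter Topology

/-- partial sums of a `Ch` function against nonincreasing nonnegative weights -/
theorem Ch.abel {f : ℕ → ℝ} {M : ℝ} (h : Ch f M) {g : ℕ → ℝ} {n m : ℕ} (hnm : n ≤ m)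
    (hg : ∀ k, n ≤ k → g (k + 1) ≤ g k) (hg0 : ∀ k, n ≤ k → 0 ≤ g k) :
    |∑ k ∈ Ico n m, f k * g k| ≤ 2 * M * g n := by
  have h1 := Pool.Agent.Sv.abel_bound (E := fun k => ∑ j ∈ range k, f j) (g := g) (M := M)
    (n := n) (fun k _ => h.bd k) hg hg0 hnm
  have e : ∀ k, (∑ j ∈ range (k + 1), f j) - ∑ j ∈ range k, f j = f k := by
    intro k
    rw [sum_range_succ]; ring
  simpa only [e] using h1

theorem Icc_one_eq (u : ℕ) : Icc 1 u = Ico 1 (u + 1) := by
  ext x
  simp only [mem_Icc, mem_Ico]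
  omega

theorem LL_sub (f : ℕ → ℝ) {u v : ℕ} (huv : u ≤ v) :
    LL f v - LL f u = ∑ k ∈ Ico (u + 1) (v + 1), f k * (1 / (k : ℝ)) := by
  unfold LL
  rw [Icc_one_eq, Icc_one_eq, ← sum_Ico_consecutive _ (by omega : 1 ≤ u + 1)
    (by omega : u + 1 ≤ v + 1), add_sub_cancel_left]
  exact sum_congr rfl fun k _ => by ring

theorem abs_LL_sub {f : ℕ → ℝ} {M : ℝ} (h : Ch f M) {u v : ℕ} (huv : u ≤ v) :
    |LL f v - LL f u| ≤ 2 * M / ((u : ℝ) + 1) := by
  rw [LL_sub f huv]
  have := h.abel (g := fun k => 1 / (k : ℝ)) (n := u + 1) (m := v + 1) (by omega)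
    (fun k hk => by
      have : (0 : ℝ) < k := by exact_mod_cast (by omega : 0 < k)
      exact one_div_le_one_div_of_le this (by push_cast; linarith))
    (fun k _ => by positivity)
  refine this.trans (le_of_eq ?_)
  push_cast
  ring

theorem exists_lam {f : ℕ → ℝ} {M : ℝ} (h : Ch f M) :
    ∃ lam : ℝ, Tendsto (LL f) atTop (𝓝 lam) ∧ ∀ u : ℕ, 1 ≤ u → |LL f u - lam| ≤ 2 * M / u := by
  have hM := h.one_le
  have hc : CauchySeq (LL f) := by
    refine cauchySeq_of_le_tendsto_0 (fun n : ℕ => 4 * M / ((n : ℝ) + 1)) ?_ ?_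
    · intro n m N hn hm
      rw [Real.dist_eq]
      have h1 := abs_LL_sub h hn
      have h2 := abs_LL_sub h hm
      have h3 : LL f n - LL f m = (LL f n - LL f N) - (LL f m - LL f N) := by ring
      rw [h3]
      refine (abs_sub _ _).trans ?_
      have : 4 * M / ((N : ℝ) + 1) = 2 * M / ((N : ℝ) + 1) + 2 * M / ((N : ℝ) + 1) := by ring
      linarith
    · have := (tendsto_one_div_add_atTop_nhds_zero_nat (𝕜 := ℝ)).const_mul (4 * M)
      simpa [div_eq_mul_inv] using this
  obtain ⟨lam, hlam⟩ := cauchySeq_tendsto_of_complete hc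
  refine ⟨lam, hlam, fun u hu => ?_⟩
  have h1 : Tendsto (fun v => |LL f u - LL f v|) atTop (𝓝 |LL f u - lam|) :=
    (tendsto_const_nhds.sub hlam).abs
  refine le_of_tendsto h1 ?_
  filter_upwards [eventually_ge_atTop u] with v hv
  rw [abs_sub_comm]
  refine (abs_LL_sub h hv).trans ?_
  have hu' : (0 : ℝ) < u := by exact_mod_cast (by omega : 0 < u)
  have : 0 ≤ 2 * M := by linarith
  exact div_le_div_of_nonneg_left this hu' (by linarith)

theorem GG_asymp {f : ℕ → ℝ} {M : ℝ} (h : Ch f M) {lam : ℝ}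
    (hl : ∀ u : ℕ, 1 ≤ u → |LL f u - lam| ≤ 2 * M / u) {t : ℕ} (ht : 1 ≤ t) :
    |GG f t - lam * t| ≤ 6 * √(M * t) := by
  have hM := h.one_le
  have ht' : (1 : ℝ) ≤ t := by exact_mod_cast ht
  have hMt : 1 ≤ M * t := by nlinarith
  set s := √(M * t) with hs
  have hs1 : 1 ≤ s := by
    rw [hs]
    exact Real.one_le_sqrt.2 hMt
  have hss : s * s = M * t := Real.mul_self_sqrt (by linarith)
  set u := ⌈s⌉₊ with hu
  have hu1 : s ≤ u := Nat.le_ceil s
  have hu2 : (u : ℝ) < s + 1 := Nat.ceil_lt_add_one (by linarith)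
  have hu0 : 1 ≤ u := by
    have : (1 : ℝ) ≤ u := hs1.trans hu1
    exact_mod_cast this
  have hupos : (0 : ℝ) < u := by linarith
  rw [GG_eq f (le_max_left t u), Icc_one_eq,
    ← sum_Ico_consecutive _ (by omega : 1 ≤ u + 1) (by omega : u + 1 ≤ max t u + 1)]
  -- the part above `u`
  have h1 : |∑ d ∈ Ico (u + 1) (max t u + 1), f d * ((t / d : ℕ) : ℝ)| ≤ 2 * s := by
    have h2 := h.abel (g := fun d => ((t / d : ℕ) : ℝ)) (n := u + 1) (m := max t u + 1) (by omega)
      (fun k hk => by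
        have : t / (k + 1) ≤ t / k := Nat.div_le_div_left (by omega) (by omega)
        exact_mod_cast this)
      (fun k _ => by positivity)
    refine h2.trans ?_
    have h3 : ((t / (u + 1) : ℕ) : ℝ) ≤ (t : ℝ) / ((u + 1 : ℕ) : ℝ) := Nat.cast_div_le
    have h4 : (t : ℝ) / ((u + 1 : ℕ) : ℝ) ≤ t / s := by
      refine div_le_div_of_nonneg_left (by linarith) (by linarith) ?_
      push_cast
      linarith
    have h5 : 2 * M * (t / s) = 2 * s := by
      have : s ≠ 0 := by linarith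
      field_simp
      nlinarith
    calc 2 * M * ((t / (u + 1) : ℕ) : ℝ) ≤ 2 * M * (t / s) := by
          refine mul_le_mul_of_nonneg_left (h3.trans h4) (by linarith)
      _ = 2 * s := h5
  -- the part up to `u`
  have h2 : |∑ d ∈ Ico 1 (u + 1), f d * ((t / d : ℕ) : ℝ) - t * LL f u| ≤ u := by
    unfold LL
    rw [Icc_one_eq, mul_sum, ← sum_sub_distrib]
    refine (abs_sum_le_sum_abs _ _).trans ?_
    have : ∀ d ∈ Ico 1 (u + 1), |f d * ((t / d : ℕ) : ℝ) - t * (f d / d)| ≤ 1 := by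
      intro d hd
      rw [mem_Ico] at hd
      have hd' : (0 : ℝ) < d := by exact_mod_cast (by omega : 0 < d)
      have e : f d * ((t / d : ℕ) : ℝ) - t * (f d / d) = f d * (((t / d : ℕ) : ℝ) - t / d) := by
        ring
      rw [e, abs_mul]
      have h3 : ((t / d : ℕ) : ℝ) ≤ (t : ℝ) / d := Nat.cast_div_le
      have h4 : (t : ℝ) / d < ((t / d : ℕ) : ℝ) + 1 := by
        rw [div_lt_iff₀ hd']
        have := Nat.lt_div_mul_add (a := t) (b := d) (by omega)
        have h5 : (t : ℝ) < ((t / d : ℕ) : ℝ) * d + d := by exact_mod_cast this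
        linarith
      have h5 : |((t / d : ℕ) : ℝ) - t / d| ≤ 1 := by
        rw [abs_le]; constructor <;> linarith
      have h6 := h.abs_le d
      calc |f d| * |((t / d : ℕ) : ℝ) - t / d| ≤ 1 * 1 :=
            mul_le_mul h6 h5 (abs_nonneg _) (by norm_num)
        _ = 1 := by norm_num
    refine (sum_le_sum this).trans ?_
    simp
  have h3 : |t * LL f u - lam * t| ≤ 2 * s := by
    have e : t * LL f u - lam * t = t * (LL f u - lam) := by ring
    rw [e, abs_mul, abs_of_nonneg (by linarith : (0 : ℝ) ≤ t)]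
    have h4 := hl u hu0
    have h5 : 2 * M / u ≤ 2 * M / s := div_le_div_of_nonneg_left (by linarith) (by linarith) hu1
    calc (t : ℝ) * |LL f u - lam| ≤ t * (2 * M / s) :=
          mul_le_mul_of_nonneg_left (h4.trans h5) (by linarith)
      _ = 2 * s := by
          have : s ≠ 0 := by linarith
          field_simp
          nlinarith
  rw [abs_le] at h1 h2 h3 ⊢
  constructor <;> linarith [h1.1, h1.2, h2.1, h2.2, h3.1, h3.2]

end Pool.Agent.PPC
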