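import Pool.Agent.PPC.Mult

/-!
# Module PPC/Mann: the test for planes

PROOF of `PDS.not_dvd`. `v = n² + n + 1` is odd, so `q` is odd and `j` with `q ∣ p^j + 1` would be `≥ 1` (not needed).
Suppose `q ∣ p ^ j + 1`. `G` is finite, its dual (`AddChar G ℂ`, of the same cardinality, `AddChar.card_eq`) has an
element `χ` of order `q` (`exists_prime_orderOf_dvd_card`). Let `c t = ∑_{d ∈ D} χ d ^ t`, and `g` from
`exists_shift_pow` for `p ^ j`.
(a) for `t` not divisible by `q`: `ψ = χ ^ t` is nontrivial and `c t * conj (c t) = ∑_{d, e} ψ (d - e) =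
(n + 1) + ∑_{x ≠ 0} ψ x = n` (`AddChar.sum_eq_zero_of_ne_one`…).
(b) `conj (c t) = ∑_d ψ (-d) = ∑_d ψ (p^j • d) = ∑_d ψ (d + g) = χ g ^ t * c t` (as
`χ ((p^j + 1) • d) = 1`).
So `(c t)² (χ g)^t = n`; let `β = (χ g) ^ ((q + 1) / 2)`, `β² = χ g` (as `(χ g)^q = 1`), so `(c t * β ^ t)² = n` and
`c t * β^t = ± √n`.
(c) `∑_{t < q} c t * β ^ t = ∑_{d ∈ D} ∑_{t < q} (χ d * β)^t = q * #{d ∈ D | χ d * β = 1}` (`(χ d β)^q = 1`,
geometric sum). The term `t = 0` is `n + 1`. So `q e = n + 1 + m √n` with integers `e`, `m`; as `n` is not a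
square, `√n` is irrational (`Nat.Prime.irrational_sqrt`/`irrational_sqrt_natCast_iff`…), `m = 0`, and `q ∣ n + 1`. With
`q ∣ n² + n + 1 = n (n + 1) + 1` this gives `q ∣ 1`.

PROOF of `isSquare_of_not_dvd`. `p` is a unit modulo `q`; let `o` be its order in `(ZMod q)ˣ`. If `o` is odd, then
`p = p ^ (o + 1) = (p ^ ((o+1)/2))²`. If `o = 2 j`, then `(p ^ j)² = 1`, `p ^ j ≠ 1`, so `p ^ j = -1` and
`q ∣ p ^ j + 1`.
`adm_plane` : `p ∣ n`, `r ∣ n² + n + 1` prime, so `r ≠ p`.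
-/

set_option autoImplicit false

namespace Pool.Agent.PPC

open Finset

/-- Sums over the differences. -/
theorem PDS.sum_sub {G : Type} [AddCommGroup G] [Fintype G] {n : ℕ} {D : Finset G} (h : PDS n D)
    (F : G → ℂ) : ∑ d ∈ D, ∑ e ∈ D, F (d - e) = n * F 0 + ∑ x, F x := by
  classical
  rw [← sum_product' D D (fun d e => F (d - e))]
  rw [← Finset.sum_fiberwise (D ×ˢ D) (fun p : G × G => p.1 - p.2) (fun p => F (p.1 - p.2))]
  have h1 : ∀ x : G, ∑ p ∈ D ×ˢ D with p.1 - p.2 = x, F (p.1 - p.2) =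
      F x + if x = 0 then n * F 0 else 0 := by
    intro x
    have h2 : ∑ p ∈ D ×ˢ D with p.1 - p.2 = x, F (p.1 - p.2) =
        ∑ p ∈ D ×ˢ D with p.1 - p.2 = x, F x :=
      sum_congr rfl fun p hp => by rw [(mem_filter.1 hp).2]
    rw [h2, sum_const, nsmul_eq_mul]
    by_cases hx : x = 0
    · rw [if_pos hx]
      have h3 : ((D ×ˢ D).filter fun p : G × G => p.1 - p.2 = x) = D.image fun d => (d, d) := by
        ext ⟨a, b⟩
        simp only [mem_filter, mem_product, mem_image, Prod.mk.injEq, hx, sub_eq_zero]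
        constructor
        · rintro ⟨⟨ha, _⟩, hab⟩
          exact ⟨a, ha, rfl, hab⟩
        · rintro ⟨d, hd, rfl, rfl⟩
          exact ⟨⟨hd, hd⟩, rfl⟩
      rw [h3, card_image_of_injective _ (fun a b hab => (Prod.mk.inj hab).1), h.2.1, hx]
      push_cast
      ring
    · rw [if_neg hx, add_zero]
      obtain ⟨p0, hp0, hu⟩ := h.2.2 x hx
      have h3 : ((D ×ˢ D).filter fun p : G × G => p.1 - p.2 = x) = {p0} := by
        ext p
        simp only [mem_filter, mem_product, mem_singleton]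
        constructor
        · rintro ⟨⟨ha, hb⟩, hab⟩
          exact hu p ⟨ha, hb, hab⟩
        · rintro rfl
          exact ⟨⟨hp0.1, hp0.2.1⟩, hp0.2.2⟩
      rw [h3, card_singleton, Nat.cast_one, one_mul]
  rw [sum_congr rfl fun x _ => h1 x, sum_add_distrib, sum_ite_eq' univ (0 : G), if_pos (mem_univ _),
    add_comm]

/-- The conclusion of the argument with the characters. -/
theorem mann_irrational {n q : ℕ} (hn : ¬ IsSquare n) (hq : q.Prime) (hqn : q ∣ n ^ 2 + n + 1)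
    (e : ℕ) (m : ℤ) (h : ((q * e : ℕ) : ℂ) = n + 1 + m * ((Real.sqrt n : ℝ) : ℂ)) : False := by
  have h1 : ((q * e : ℕ) : ℝ) = n + 1 + m * Real.sqrt n := by
    exact_mod_cast h
  have hirr : Irrational (Real.sqrt n) := irrational_sqrt_natCast_iff.2 hn
  have hm : m = 0 := by
    by_contra hm0
    apply (hirr.intCast_mul hm0)
    refine ⟨((q * e : ℕ) : ℚ) - n - 1, ?_⟩
    push_cast
    push_cast at h1
    linarith
  rw [hm, Int.cast_zero, zero_mul, add_zero] at h1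
  have h2 : q * e = n + 1 := by exact_mod_cast h1
  have h3 : q ∣ n + 1 := ⟨e, h2.symm⟩
  have h4 : q ∣ 1 := by
    have h5 : n ^ 2 + n + 1 = n * (n + 1) + 1 := by ring
    rw [h5] at hqn
    exact (Nat.dvd_add_right (Dvd.dvd.mul_left h3 n)).1 hqn
  exact hq.one_lt.ne' (Nat.dvd_one.1 h4)

/-- Geometric sums of roots of unity. -/
theorem mann_geom {q : ℕ} {x : ℂ} (hx : x ^ q = 1) :
    ∑ t ∈ range q, x ^ t = if x = 1 then (q : ℂ) else 0 := by
  split_ifs with h1
  · rw [h1]; simp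
  · rw [geom_sum_eq h1, hx, sub_self, zero_div]

theorem PDS.not_dvd {G : Type} [AddCommGroup G] {n : ℕ} {D : Finset G} (h : PDS n D)
    (hn : ¬ IsSquare n) {p : ℕ} (hp : p.Prime) (hpn : p ∣ n) {q : ℕ} (hq : q.Prime)
    (hqn : q ∣ n ^ 2 + n + 1) (j : ℕ) : ¬ q ∣ p ^ j + 1 := by
  classical
  intro hqj
  have hfin : Finite G := Nat.finite_of_card_ne_zero (by rw [h.1]; positivity)
  cases nonempty_fintype G
  have : Fact q.Prime := ⟨hq⟩
  have hodd : Odd q := by
    refine Odd.of_dvd_nat ?_ hqn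
    have h1 : n ^ 2 + n + 1 = n * (n + 1) + 1 := by ring
    rw [h1]
    exact (Nat.even_mul_succ_self n).add_one
  -- the character
  have hcard : q ∣ Fintype.card (AddChar G ℂ) := by
    rw [AddChar.card_eq, ← Nat.card_eq_fintype_card, h.1]
    exact hqn
  obtain ⟨χ, hχ⟩ := exists_prime_orderOf_dvd_card q hcard
  have hχq : ∀ x, χ x ^ q = 1 := by
    intro x
    have h1 : χ ^ q = 1 := by rw [← hχ]; exact pow_orderOf_eq_one χ
    have h2 := congrArg (fun ψ : AddChar G ℂ => ψ x) h1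
    simpa using h2
  obtain ⟨g, hg⟩ := h.exists_shift_pow hp hpn j
  set c : ℕ → ℂ := fun t => ∑ d ∈ D, χ d ^ t with hc
  set β : ℂ := χ g ^ ((q + 1) / 2) with hβ
  have hβ2 : β ^ 2 = χ g := by
    rw [hβ, ← pow_mul, Nat.div_mul_cancel (hodd.add_one.two_dvd), pow_succ, hχq, one_mul]
  have hβq : β ^ q = 1 := by
    rw [hβ, ← pow_mul, mul_comm, pow_mul, hχq, one_pow]
  -- (a), (b)
  have hsq : ∀ t, ¬ q ∣ t → (c t * β ^ t) ^ 2 = n := by
    intro t ht
    have hne : χ ^ t ≠ 0 := by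
      intro h0
      apply ht
      rw [← hχ]
      exact orderOf_dvd_of_pow_eq_one h0
    have h1 : ∑ x, (χ ^ t) x = 0 := AddChar.sum_eq_zero_iff_ne_zero.2 hne
    have h2 := h.sum_sub (fun x => (χ ^ t) x)
    rw [h1, add_zero, AddChar.map_zero_eq_one, mul_one] at h2
    have h3 : ∑ e ∈ D, (χ ^ t) (-e) = χ g ^ t * c t := by
      have h4 : ∀ e ∈ D, (χ ^ t) (-e) = (χ ^ t) ((p ^ j) • e) := by
        intro e _
        obtain ⟨w, hw⟩ := hqj
        have h5 : (χ ^ t) ((p ^ j + 1) • e) = 1 := by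
          rw [AddChar.pow_apply, AddChar.map_nsmul_eq_pow, hw, pow_mul, hχq, one_pow, one_pow]
        rw [add_smul, one_smul, AddChar.map_add_eq_mul] at h5
        rw [AddChar.map_neg_eq_inv]
        exact inv_eq_of_mul_eq_one_left h5
      rw [sum_congr rfl h4, hg, mul_sum]
      refine sum_congr rfl fun d _ => ?_
      rw [AddChar.pow_apply, AddChar.map_add_eq_mul, mul_pow, mul_comm]
    have h6 : ∑ d ∈ D, ∑ e ∈ D, (χ ^ t) (d - e) = c t * (χ g ^ t * c t) := by
      rw [← h3, hc, sum_mul]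
      refine sum_congr rfl fun d _ => ?_
      rw [mul_sum]
      refine sum_congr rfl fun e _ => ?_
      rw [sub_eq_add_neg, AddChar.map_add_eq_mul, AddChar.pow_apply χ t d]
    rw [h6] at h2
    rw [← h2, mul_pow, ← pow_mul, mul_comm t 2, pow_mul, hβ2]
    ring
  -- the signs
  have hsign : ∀ t, ∃ s : ℤ, ¬ q ∣ t → c t * β ^ t = s * ((Real.sqrt n : ℝ) : ℂ) := by
    intro t
    by_cases ht : q ∣ t
    · exact ⟨0, fun h0 => absurd ht h0⟩
    · have h1 := hsq t ht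
      have h2 : (((Real.sqrt n : ℝ) : ℂ)) ^ 2 = n := by
        rw [← Complex.ofReal_pow, Real.sq_sqrt (Nat.cast_nonneg n), Complex.ofReal_natCast]
      rw [← h2] at h1
      rcases sq_eq_sq_iff_eq_or_eq_neg.1 h1 with h3 | h3
      · exact ⟨1, fun _ => by rw [h3, Int.cast_one, one_mul]⟩
      · exact ⟨-1, fun _ => by rw [h3]; push_cast; ring⟩
  choose s hs using hsign
  -- (c)
  have hsum1 : ∑ t ∈ range q, c t * β ^ t =
      ((q * (D.filter fun d => χ d * β = 1).card : ℕ) : ℂ) := by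
    have h1 : ∀ t ∈ range q, c t * β ^ t = ∑ d ∈ D, (χ d * β) ^ t := by
      intro t _
      rw [hc, sum_mul]
      exact sum_congr rfl fun d _ => (mul_pow _ _ _).symm
    rw [sum_congr rfl h1, sum_comm]
    have h2 : ∀ d ∈ D, ∑ t ∈ range q, (χ d * β) ^ t = if χ d * β = 1 then (q : ℂ) else 0 := by
      intro d _
      refine mann_geom ?_
      rw [mul_pow, hχq, hβq, one_mul]
    rw [sum_congr rfl h2, ← sum_filter, sum_const, nsmul_eq_mul]
    push_cast
    ring
  have hsum2 : ∑ t ∈ range q, c t * β ^ t =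
      n + 1 + ((∑ t ∈ (range q).erase 0, s t : ℤ) : ℂ) * ((Real.sqrt n : ℝ) : ℂ) := by
    rw [← add_sum_erase (range q) _ (mem_range.2 hq.pos)]
    congr 1
    · simp [hc, h.2.1]
    · push_cast
      rw [sum_mul]
      refine sum_congr rfl fun t ht => ?_
      rw [mem_erase, mem_range] at ht
      exact hs t (fun hd => ht.1 (Nat.eq_zero_of_dvd_of_lt hd ht.2))
  rw [hsum1] at hsum2
  exact mann_irrational hn hq hqn _ _ hsum2

theorem isSquare_of_not_dvd {p q : ℕ} (hp : p.Prime) (hq : q.Prime) (hpq : p ≠ q)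
    (h : ∀ j : ℕ, ¬ q ∣ p ^ j + 1) : IsSquare ((p : ℕ) : ZMod q) := by
  have : Fact q.Prime := ⟨hq⟩
  have hp0 : ((p : ℕ) : ZMod q) ≠ 0 := by
    rw [Ne, ZMod.natCast_eq_zero_iff]
    intro hd
    exact hpq ((Nat.prime_dvd_prime_iff_eq hq hp).1 hd).symm
  have hfin : IsOfFinOrder ((p : ℕ) : ZMod q) := by
    rw [isOfFinOrder_iff_pow_eq_one]
    exact ⟨q - 1, Nat.sub_pos_of_lt hq.one_lt, ZMod.pow_card_sub_one_eq_one hp0⟩
  have ho := hfin.orderOf_pos
  rcases Nat.even_or_odd (orderOf ((p : ℕ) : ZMod q)) with he | hodd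
  · exfalso
    obtain ⟨j, hj⟩ := he
    apply h j
    have h1 : ((p : ZMod q) ^ j) ^ 2 = 1 := by
      rw [← pow_mul, mul_two, ← hj, pow_orderOf_eq_one]
    rcases sq_eq_one_iff.1 h1 with h2 | h2
    · exfalso
      have h3 := Nat.le_of_dvd (by omega) (orderOf_dvd_of_pow_eq_one h2)
      omega
    · rw [← ZMod.natCast_eq_zero_iff]
      push_cast
      rw [h2]; ring
  · obtain ⟨j, hj⟩ := hodd
    refine ⟨(p : ZMod q) ^ (j + 1), ?_⟩
    rw [← pow_add]
    have h1 : j + 1 + (j + 1) = orderOf ((p : ℕ) : ZMod q) + 1 := by omega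
    rw [h1, pow_succ, pow_orderOf_eq_one, one_mul]

theorem adm_plane {G : Type} [AddCommGroup G] {n : ℕ} {D : Finset G} (h : PDS n D)
    (hn : ¬ IsSquare n) {p r : ℕ} (hp : p.Prime) (hr : r.Prime) (hpn : p ∣ n)
    (hrn : r ∣ n ^ 2 + n + 1) : IsSquare ((p : ℕ) : ZMod r) := by
  refine isSquare_of_not_dvd hp hr ?_ (fun j => h.not_dvd hn hp hpn hr hrn j)
  rintro rfl
  have h1 : n ^ 2 + n + 1 = n * (n + 1) + 1 := by ring
  rw [h1] at hrn
  have h2 : p ∣ 1 := (Nat.dvd_add_right (Dvd.dvd.mul_right hpn (n + 1))).1 hrn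
  exact hp.one_lt.ne' (Nat.dvd_one.1 h2)

end Pool.Agent.PPC
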