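import Mathlib

/-!
# Module PPC/Mult: the multiplier theorem for planar difference sets

Hall's multiplier theorem: if `D` is a planar difference set of order `n` in an abelian group `G` and `p` is a
prime divisor of `n`, then `p D = D + g` for some `g`.

PROOF. In the commutative ring `ℤ[G] = AddMonoidAlgebra ℤ G` let `D = ∑_{d ∈ D} single d 1`,
`D' = ∑_{d ∈ D} single (-d) 1`, `D_p = ∑_{d ∈ D} single (p • d) 1`, `T = ∑_{g} single g 1`, `v = n² + n + 1`.
(1) `D D' = n + T` (coefficients: `h.2.2`, and the coefficient at `0` is `n + 1`); `T a = ε(a) T` with `ε` the sum of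
the coefficients; in particular `T D = (n + 1) T`, `T² = v T`.
(2) `D_p = D ^ p + p A` for some `A` (`Finset` induction with `exists_add_pow_prime_eq`, or
`add_pow_char`/`sum_pow_char` in `(ZMod p)[G]`), so
`F := D_p D' ≡ D ^ (p-1) D D' = n D ^ (p-1) + (n + 1) ^ (p - 1) T ≡ T (mod p)`, i.e. `F = T + p S`, `S ∈ ℤ[G]`.
(3) `F` has nonnegative coefficients, so `1 + p S(g) ≥ 0`, so `S(g) ≥ 0`.
(4) Let `F' = ∑_{d, e} single (-(p • d) + e)` be the image of `F` under `g ↦ -g`. Then `F F' = (D_p D_p') (D D')`, and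
`D_p D_p' = n + T` is the image of `D D' = n + T` under `g ↦ p • g` (a bijection, as `p` is coprime to `v`).
So `F F' = (n + T)² = n² + (2 n + v) T`. On the other hand `ε(F) = (n + 1)² = v + p ε(S)`, so `p ε(S) = n`, and
`F F' = (T + p S) (T + p S') = v T + 2 p ε(S) T + p² S S' = (v + 2 n) T + p² S S'`.
Hence `p² S S' = n²`.
(5) Two elements `g ≠ h` with `S(g), S(h) > 0` would give a positive coefficient of `S S'` at `g - h`; so
`S = s single g₀ 1` (`S ≠ 0`), and `p s = p ε(S) = n`.
(6) `F = T + n single g₀ 1`. Multiply by `D`: `D_p (n + T) = (n + 1) T + n single g₀ 1 * D`, i.e.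
`n D_p + (n + 1) T = (n + 1) T + n single g₀ 1 * D`, so `D_p = single g₀ 1 * D = ∑_{d ∈ D} single (d + g₀) 1` (`n ≠ 0`:
if `n = 0` then `G` is trivial and the claim is clear, or note `n ≥ 1` … `p ∣ 0` is allowed here; for `n = 0`
`#D = 1`, `#G = 1`).
(7) Compare coefficients / apply the linear map `single g 1 ↦ f g`.

`exists_shift_pow`: induction on `j`, `f (p ^ (j+1) • d) = (f ∘ (p ^ j • ·)) (p • d)`.
-/

set_option autoImplicit false
set_option linter.unusedSectionVars false

namespace Pool.Agent.PPC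

open Finset

/-- `D` is a planar difference set of order `n` in the abelian group `G`. -/
def PDS {G : Type} [AddCommGroup G] (n : ℕ) (D : Finset G) : Prop :=
  Nat.card G = n ^ 2 + n + 1 ∧ D.card = n + 1 ∧
    ∀ g : G, g ≠ 0 → ∃! p : G × G, p.1 ∈ D ∧ p.2 ∈ D ∧ p.1 - p.2 = g

namespace MultAux

open AddMonoidAlgebra (single)

variable {G : Type} [AddCommGroup G] [Fintype G]

/-- The sum of all group elements. -/
noncomputable def TT (G : Type) [AddCommGroup G] [Fintype G] : AddMonoidAlgebra ℤ G :=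
  ∑ g : G, single g 1

theorem repr_eq (x : AddMonoidAlgebra ℤ G) : x = ∑ g : G, single g (x.coeff g) := by
  classical
  ext g
  rw [AddMonoidAlgebra.coeff_sum, Finsupp.finsetSum_apply]
  simp [Finsupp.single_apply]

theorem TT_coeff (g : G) : (TT G).coeff g = 1 := by
  classical
  rw [TT, AddMonoidAlgebra.coeff_sum, Finsupp.finsetSum_apply]
  simp [Finsupp.single_apply]

theorem single_eq (g : G) (c : ℤ) : (single g c : AddMonoidAlgebra ℤ G) = (c : AddMonoidAlgebra ℤ G) * single g 1 := by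
  rw [AddMonoidAlgebra.intCast_def, AddMonoidAlgebra.single_mul_single]
  simp

theorem TT_mul_single (h : G) : TT G * single h 1 = TT G := by
  unfold TT
  rw [Finset.sum_mul]
  simp only [AddMonoidAlgebra.single_mul_single, mul_one]
  exact Fintype.sum_equiv (Equiv.addRight h) _ _ (fun g => rfl)

theorem TT_mul (x : AddMonoidAlgebra ℤ G) :
    TT G * x = ((∑ g : G, x.coeff g : ℤ) : AddMonoidAlgebra ℤ G) * TT G := by
  conv_lhs => rw [repr_eq x]
  rw [Finset.mul_sum]
  push_cast
  rw [Finset.sum_mul]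
  refine Finset.sum_congr rfl fun g _ => ?_
  rw [single_eq, mul_left_comm, TT_mul_single]

/-- The image of a set in the group ring under a map. -/
noncomputable def im (D : Finset G) (φ : G → G) : AddMonoidAlgebra ℤ G := ∑ d ∈ D, single (φ d) 1

theorem TT_mul_im (D : Finset G) (φ : G → G) : TT G * im D φ = (#D : AddMonoidAlgebra ℤ G) * TT G := by
  unfold im
  rw [Finset.mul_sum]
  simp only [TT_mul_single]
  simp

theorem frob (D : Finset G) {p : ℕ} (hp : p.Prime) :
    ∃ A : AddMonoidAlgebra ℤ G, im D (fun d => p • d) = (im D id) ^ p + p * A := by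
  classical
  unfold im
  induction D using Finset.induction_on with
  | empty => exact ⟨0, by simp [hp.ne_zero]⟩
  | insert a s ha ih =>
    obtain ⟨A, hA⟩ := ih
    obtain ⟨r, hr⟩ := exists_add_pow_prime_eq hp (single (id a) (1:ℤ) : AddMonoidAlgebra ℤ G)
      (∑ d ∈ s, single (id d) 1)
    refine ⟨A - single (id a) 1 * (∑ d ∈ s, single (id d) 1) * r, ?_⟩
    rw [Finset.sum_insert ha, Finset.sum_insert ha, hr, hA, AddMonoidAlgebra.single_pow]
    simp only [id, one_pow]
    ring

theorem coeff_im (D : Finset G) (φ : G → G) (g : G) : 0 ≤ (im D φ).coeff g := by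
  classical
  unfold im
  rw [AddMonoidAlgebra.coeff_sum, Finsupp.finsetSum_apply]
  refine Finset.sum_nonneg fun d _ => ?_
  rw [AddMonoidAlgebra.coeff_single, Finsupp.single_apply]
  split_ifs <;> norm_num

theorem im_mul_im (D : Finset G) (φ ψ : G → G) :
    im D φ * im D ψ = ∑ q ∈ D ×ˢ D, single (φ q.1 + ψ q.2) 1 := by
  unfold im
  rw [Finset.sum_mul_sum, ← Finset.sum_product']
  refine Finset.sum_congr rfl fun q _ => ?_
  rw [AddMonoidAlgebra.single_mul_single, mul_one]

theorem coeff_mul_im (D : Finset G) (φ ψ : G → G) (g : G) : 0 ≤ (im D φ * im D ψ).coeff g := by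
  classical
  rw [im_mul_im, AddMonoidAlgebra.coeff_sum, Finsupp.finsetSum_apply]
  refine Finset.sum_nonneg fun d _ => ?_
  rw [AddMonoidAlgebra.coeff_single, Finsupp.single_apply]
  split_ifs <;> norm_num

/-- the induced ring homomorphism. -/
noncomputable def hom (φ : G →+ G) : AddMonoidAlgebra ℤ G →+* AddMonoidAlgebra ℤ G :=
  AddMonoidAlgebra.mapDomainRingHom ℤ φ

theorem hom_single (φ : G →+ G) (g : G) (r : ℤ) : hom φ (single g r) = single (φ g) r := by
  unfold hom
  simp

theorem hom_im (φ : G →+ G) (D : Finset G) (ψ : G → G) : hom φ (im D ψ) = im D (fun d => φ (ψ d)) := by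
  unfold im
  rw [map_sum]
  simp only [hom_single]

theorem hom_TT (φ : G →+ G) (hφ : Function.Bijective φ) : hom φ (TT G) = TT G := by
  unfold TT
  rw [map_sum]
  simp only [hom_single]
  exact Fintype.sum_bijective φ hφ _ _ (fun g => rfl)

theorem DD (n : ℕ) (D : Finset G) (h : PDS n D) :
    im D id * im D (fun d => -d) = (n : AddMonoidAlgebra ℤ G) + TT G := by
  classical
  rw [im_mul_im]
  rw [← Finset.sum_filter_add_sum_filter_not (D ×ˢ D) (fun q => q.1 = q.2)]
  have h1 : ∑ q ∈ (D ×ˢ D).filter (fun q => q.1 = q.2), (single (id q.1 + -q.2) 1 : AddMonoidAlgebra ℤ G)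
      = ((n + 1 : ℕ) : AddMonoidAlgebra ℤ G) := by
    have : ∀ q ∈ (D ×ˢ D).filter (fun q => q.1 = q.2),
        (single (id q.1 + -q.2) 1 : AddMonoidAlgebra ℤ G) = 1 := by
      intro q hq
      rw [Finset.mem_filter] at hq
      rw [hq.2, AddMonoidAlgebra.one_def]
      simp
    rw [Finset.sum_congr rfl this, Finset.sum_const, nsmul_eq_mul, mul_one]
    congr 1
    rw [← h.2.1]
    rw [← Finset.diag_card D]
    congr 1
    ext q
    simp only [Finset.mem_filter, Finset.mem_product, Finset.mem_diag]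
    constructor
    · rintro ⟨⟨h1, _⟩, h3⟩
      exact ⟨h1, h3⟩
    · rintro ⟨h1, h3⟩
      exact ⟨⟨h1, h3 ▸ h1⟩, h3⟩
  have h2 : ∑ q ∈ (D ×ˢ D).filter (fun q => ¬ q.1 = q.2), (single (id q.1 + -q.2) 1 : AddMonoidAlgebra ℤ G)
      = ∑ g ∈ (univ : Finset G).erase 0, single g 1 := by
    refine Finset.sum_bij' (fun q _ => q.1 - q.2)
      (fun g hg => (h.2.2 g (Finset.ne_of_mem_erase hg)).choose) ?_ ?_ ?_ ?_ ?_
    · intro q hq
      rw [Finset.mem_filter] at hq
      simp [sub_eq_zero, hq.2]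
    · intro g hg
      have hs := (h.2.2 g (Finset.ne_of_mem_erase hg)).choose_spec.1
      simp only [Finset.mem_filter, Finset.mem_product]
      refine ⟨⟨hs.1, hs.2.1⟩, fun he => (Finset.ne_of_mem_erase hg) ?_⟩
      rw [← hs.2.2, he, sub_self]
    · intro q hq
      have hq' := hq
      rw [Finset.mem_filter, Finset.mem_product] at hq'
      have hne : q.1 - q.2 ≠ 0 := by simpa [sub_eq_zero] using hq'.2
      exact ((h.2.2 (q.1 - q.2) hne).choose_spec.2 q ⟨hq'.1.1, hq'.1.2, rfl⟩).symm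
    · intro g hg
      exact (h.2.2 g (Finset.ne_of_mem_erase hg)).choose_spec.1.2.2
    · intro q hq
      simp [sub_eq_add_neg]
  rw [h1, h2]
  have h3 : TT G = single 0 1 + ∑ g ∈ (univ : Finset G).erase 0, single g 1 := by
    unfold TT
    exact (Finset.add_sum_erase _ (fun g : G => (single g 1 : AddMonoidAlgebra ℤ G))
      (Finset.mem_univ (0:G))).symm
  rw [h3, ← AddMonoidAlgebra.one_def]
  push_cast
  ring


theorem coeff_int_mul (c : ℤ) (x : AddMonoidAlgebra ℤ G) (g : G) :
    ((c : AddMonoidAlgebra ℤ G) * x).coeff g = c * x.coeff g := by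
  rw [← zsmul_eq_mul, AddMonoidAlgebra.coeff_smul_apply]
  simp

theorem coeff_mul_apply (x y : AddMonoidAlgebra ℤ G) (g : G) :
    (x * y).coeff g = ∑ h : G, x.coeff h * y.coeff (g - h) := by
  classical
  rw [AddMonoidAlgebra.coeff_mul_apply_left, Finsupp.sum_fintype _ _ (by simp)]
  refine Finset.sum_congr rfl fun h _ => ?_
  congr 2
  abel

theorem coeff_hom_neg (x : AddMonoidAlgebra ℤ G) (g : G) :
    (hom (negAddMonoidHom) x).coeff g = x.coeff (-g) := by
  classical
  conv_lhs => rw [repr_eq x]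
  rw [map_sum, AddMonoidAlgebra.coeff_sum, Finsupp.finsetSum_apply]
  simp only [hom_single, AddMonoidAlgebra.coeff_single, Finsupp.single_apply, negAddMonoidHom_apply]
  rw [Finset.sum_eq_single (-g)]
  · simp
  · intro b _ hb
    rw [if_neg]
    intro h
    exact hb (by rw [← h, neg_neg])
  · simp

theorem TT_TT (n : ℕ) (hG : Fintype.card G = n ^ 2 + n + 1) :
    TT G * TT G = ((n ^ 2 + n + 1 : ℕ) : AddMonoidAlgebra ℤ G) * TT G := by
  rw [TT_mul]
  congr 1
  simp only [TT_coeff]
  simp [hG]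

theorem shift_im (n : ℕ) (D : Finset G) (h : PDS n D) (p : ℕ) (hp : p.Prime) (hpn : p ∣ n)
    (hn : n ≠ 0) : ∃ g : G, im D (fun d => p • d) = im D (fun d => d + g) := by
  classical
  have hG : Fintype.card G = n ^ 2 + n + 1 := by rw [← Nat.card_eq_fintype_card]; exact h.1
  obtain ⟨m, hm⟩ := hpn
  obtain ⟨A, hA⟩ := frob (G := G) D hp
  set X := im D id with hX
  set X' := im D (fun d => -d) with hX'
  set Xp := im D (fun d => p • d) with hXp
  have hXX : X * X' = (n : AddMonoidAlgebra ℤ G) + TT G := DD n D h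
  have hTX : TT G * X = ((n + 1 : ℕ) : AddMonoidAlgebra ℤ G) * TT G := by
    rw [hX, TT_mul_im, h.2.1]
  have hTXp : TT G * Xp = ((n + 1 : ℕ) : AddMonoidAlgebra ℤ G) * TT G := by
    rw [hXp, TT_mul_im, h.2.1]
  have hTX' : TT G * X' = ((n + 1 : ℕ) : AddMonoidAlgebra ℤ G) * TT G := by
    rw [hX', TT_mul_im, h.2.1]
  have hTpow : ∀ j : ℕ, X ^ j * TT G = ((n + 1 : ℕ) : AddMonoidAlgebra ℤ G) ^ j * TT G := by
    intro j
    induction j with
    | zero => simp
    | succ j ih =>
      rw [pow_succ, mul_assoc, mul_comm X (TT G), hTX, mul_left_comm, ih]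
      ring
  -- (n+1)^(p-1) = 1 + p k
  obtain ⟨k, hk⟩ : ∃ k : ℕ, (n + 1) ^ (p - 1) = 1 + p * k := by
    have h1 : (n + 1) ^ (p - 1) ≡ 1 [MOD p] := by
      have : n + 1 ≡ 1 [MOD p] := by
        rw [hm]
        unfold Nat.ModEq
        simp [Nat.add_mod]
      simpa using this.pow (p - 1)
    have h2 : p ∣ (n + 1) ^ (p - 1) - 1 := (Nat.modEq_iff_dvd' (Nat.one_le_pow _ _ (by omega))).mp h1.symm
    obtain ⟨k, hk⟩ := h2
    refine ⟨k, ?_⟩
    have : 1 ≤ (n + 1) ^ (p - 1) := Nat.one_le_pow _ _ (by omega)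
    omega
  have hk' : ((n + 1 : ℕ) : AddMonoidAlgebra ℤ G) ^ (p - 1) = 1 + (p : AddMonoidAlgebra ℤ G) * k := by
    have := congrArg (Nat.cast : ℕ → AddMonoidAlgebra ℤ G) hk
    push_cast at this ⊢
    exact this
  have hmn : (n : AddMonoidAlgebra ℤ G) = p * m := by
    have := congrArg (Nat.cast : ℕ → AddMonoidAlgebra ℤ G) hm
    push_cast at this
    exact this
  set F := Xp * X' with hF
  set S := (m : AddMonoidAlgebra ℤ G) * X ^ (p - 1) + k * TT G + A * X' with hS
  have hFS : F = TT G + p * S := by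
    have h1 : X ^ p * X' = X ^ (p - 1) * (X * X') := by
      rw [← mul_assoc, ← pow_succ, Nat.sub_add_cancel hp.one_le]
    have h2 : X ^ (p - 1) * TT G = (1 + (p : AddMonoidAlgebra ℤ G) * k) * TT G := by
      rw [hTpow, hk']
    rw [hF, hA, add_mul, h1, hXX, mul_add, h2, hmn, hS]
    ring
  have hp0 : (0 : ℤ) < p := by exact_mod_cast hp.pos
  have hSnn : ∀ g, 0 ≤ S.coeff g := by
    intro g
    have h1 : 0 ≤ F.coeff g := coeff_mul_im D _ _ g
    have h2 : F.coeff g = 1 + p * S.coeff g := by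
      rw [hFS, AddMonoidAlgebra.coeff_add, Finsupp.add_apply, TT_coeff]
      have := coeff_int_mul (p : ℤ) S g
      rw [Int.cast_natCast] at this
      rw [this]
    rw [h2] at h1
    have h3 : (2 : ℤ) ≤ p := by exact_mod_cast hp.two_le
    by_contra hcon
    push Not at hcon
    nlinarith
  -- ε(S)
  set s : ℤ := ∑ g : G, S.coeff g with hs
  have hTS : TT G * S = (s : AddMonoidAlgebra ℤ G) * TT G := TT_mul S
  have hps : (p : ℤ) * s = n := by
    have h1 : TT G * F = ((n + 1 : ℕ) : AddMonoidAlgebra ℤ G) * (((n + 1 : ℕ) : AddMonoidAlgebra ℤ G) * TT G) := by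
      rw [hF, ← mul_assoc, hTXp, mul_assoc, hTX']
    have h2 : TT G * F = ((n ^ 2 + n + 1 : ℕ) : AddMonoidAlgebra ℤ G) * TT G
        + p * ((s : AddMonoidAlgebra ℤ G) * TT G) := by
      rw [hFS, mul_add, TT_TT n hG, mul_left_comm, hTS]
    have h3 := congrArg (fun x : AddMonoidAlgebra ℤ G => x.coeff 0) (h1.symm.trans h2)
    simp only [AddMonoidAlgebra.coeff_add, Finsupp.add_apply] at h3
    have c1 : (((n + 1 : ℕ) : AddMonoidAlgebra ℤ G) * (((n + 1 : ℕ) : AddMonoidAlgebra ℤ G) * TT G)).coeff 0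
        = ((n : ℤ) + 1) * ((n + 1) * 1) := by
      have e := coeff_int_mul ((n + 1 : ℕ) : ℤ) (((n + 1 : ℕ) : AddMonoidAlgebra ℤ G) * TT G) 0
      have e' := coeff_int_mul ((n + 1 : ℕ) : ℤ) (TT G) 0
      rw [Int.cast_natCast] at e e'
      rw [e, e', TT_coeff]
      push_cast
      ring
    have c2 : (((n ^ 2 + n + 1 : ℕ) : AddMonoidAlgebra ℤ G) * TT G).coeff 0 = (n : ℤ) ^ 2 + n + 1 := by
      have e' := coeff_int_mul ((n ^ 2 + n + 1 : ℕ) : ℤ) (TT G) 0
      rw [Int.cast_natCast] at e'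
      rw [e', TT_coeff]
      push_cast
      ring
    have c3 : ((p : AddMonoidAlgebra ℤ G) * ((s : AddMonoidAlgebra ℤ G) * TT G)).coeff 0 = (p : ℤ) * s := by
      have e := coeff_int_mul (p : ℤ) ((s : AddMonoidAlgebra ℤ G) * TT G) 0
      rw [Int.cast_natCast] at e
      rw [e, coeff_int_mul, TT_coeff]
      ring
    rw [c1, c2, c3] at h3
    linarith
  -- the involution
  set ι := hom (negAddMonoidHom : G →+ G) with hι
  have hιT : ι (TT G) = TT G := hom_TT _ (by
    constructor
    · intro a b hab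
      simpa using hab
    · intro b
      exact ⟨-b, by simp⟩)
  have hιX : ι X = X' := by
    rw [hι, hX, hom_im]
    rfl
  have hιX' : ι X' = X := by
    rw [hι, hX', hom_im]
    simp only [negAddMonoidHom_apply, neg_neg]
    rfl
  set π := hom (nsmulAddMonoidHom p : G →+ G) with hπ
  have hcop : (Nat.card G).Coprime p := by
    rw [h.1, hm]
    have : (p * m) ^ 2 + p * m + 1 = p * (p * m ^ 2 + m) + 1 := by ring
    rw [this]
    simp
  have hπT : π (TT G) = TT G := hom_TT _ (by
    rw [← Finite.injective_iff_bijective]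
    intro a b hab
    exact (nsmulCoprime hcop).injective hab)
  have hπX : π X = Xp := by
    rw [hπ, hX, hom_im]
    rfl
  have hπX' : π X' = ι Xp := by
    rw [hπ, hX', hom_im, hι, hXp, hom_im]
    congr 1
    funext d
    change p • (-d) = -(p • d)
    exact smul_neg p d
  have hιF : ι F = π X' * X := by
    rw [hF, map_mul, hιX', hπX']
  have hFF : F * ι F = ((n : AddMonoidAlgebra ℤ G) + TT G) * ((n : AddMonoidAlgebra ℤ G) + TT G) := by
    have h1 : F * ι F = (π X * π X') * (X * X') := by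
      rw [hιF, hF, hπX]
      ring
    rw [h1, ← map_mul, hXX, map_add, hπT, map_natCast]
  have hιS : ι F = TT G + p * ι S := by
    rw [hFS, map_add, hιT, map_mul, map_natCast]
  have hTιS : TT G * ι S = (s : AddMonoidAlgebra ℤ G) * TT G := by
    have := congrArg ι hTS
    rw [map_mul, map_mul, hιT, map_intCast] at this
    exact this
  have hsn : (p : AddMonoidAlgebra ℤ G) * s = n := by
    have := congrArg (Int.cast : ℤ → AddMonoidAlgebra ℤ G) hps
    push_cast at this
    exact this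
  have hSS : (p : AddMonoidAlgebra ℤ G) ^ 2 * (S * ι S) = (n : AddMonoidAlgebra ℤ G) ^ 2 := by
    have h1 : (TT G + p * S) * (TT G + p * ι S)
        = ((n : AddMonoidAlgebra ℤ G) + TT G) * ((n : AddMonoidAlgebra ℤ G) + TT G) := by
      rw [← hιS, ← hFS]
      exact hFF
    have h2 := TT_TT n hG
    push_cast at h2
    linear_combination h1 - h2 * 0 - (p : AddMonoidAlgebra ℤ G) * hTS - (p : AddMonoidAlgebra ℤ G) * hTιS
      - 2 * TT G * hsn
  have hzero : ∀ c : G, c ≠ 0 → (S * ι S).coeff c = 0 := by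
    intro c hc
    have h1 := congrArg (fun x : AddMonoidAlgebra ℤ G => x.coeff c) hSS
    have e := coeff_int_mul ((p : ℤ) ^ 2) (S * ι S) c
    push_cast at e
    rw [e] at h1
    have e2 : ((n : AddMonoidAlgebra ℤ G) ^ 2).coeff c = 0 := by
      have : ((n : AddMonoidAlgebra ℤ G) ^ 2) = ((n ^ 2 : ℕ) : AddMonoidAlgebra ℤ G) := by push_cast; rfl
      rw [this, AddMonoidAlgebra.natCast_def, AddMonoidAlgebra.coeff_single, Finsupp.single_apply,
        if_neg (Ne.symm hc)]
    rw [e2] at h1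
    have : (p : ℤ) ^ 2 ≠ 0 := by positivity
    exact (mul_eq_zero.mp h1).resolve_left this
  have hprod : ∀ a b : G, a ≠ b → S.coeff a * S.coeff b = 0 := by
    intro a b hab
    have h1 := hzero (a - b) (sub_ne_zero.mpr hab)
    rw [coeff_mul_apply] at h1
    have h2 : ∀ x ∈ (univ : Finset G), 0 ≤ S.coeff x * (ι S).coeff (a - b - x) := by
      intro x _
      rw [hι, coeff_hom_neg]
      exact mul_nonneg (hSnn _) (hSnn _)
    have h3 := (Finset.sum_eq_zero_iff_of_nonneg h2).mp h1 a (Finset.mem_univ a)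
    rw [hι, coeff_hom_neg] at h3
    have : -(a - b - a) = b := by abel
    rwa [this] at h3
  have hspos : 0 < s := by
    have : (0 : ℤ) < n := by exact_mod_cast Nat.pos_of_ne_zero hn
    rw [← hps] at this
    exact pos_of_mul_pos_right this hp0.le
  obtain ⟨g₀, hg₀⟩ : ∃ g₀, S.coeff g₀ ≠ 0 := by
    by_contra hcon
    push Not at hcon
    rw [hs] at hspos
    simp [hcon] at hspos
  have hother : ∀ g, g ≠ g₀ → S.coeff g = 0 := fun g hg =>
    (mul_eq_zero.mp (hprod g g₀ hg)).resolve_right hg₀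
  have hS0 : S = single g₀ s := by
    ext g
    rw [AddMonoidAlgebra.coeff_single, Finsupp.single_apply]
    split_ifs with hgg
    · rw [← hgg, hs, Finset.sum_eq_single g₀ (fun b _ hb => hother b hb) (by simp)]
    · exact hother g (Ne.symm hgg)
  refine ⟨g₀, ?_⟩
  have hFX : F * X = Xp * ((n : AddMonoidAlgebra ℤ G) + TT G) := by
    rw [hF, ← hXX]
    ring
  have hFX2 : F * X = ((n + 1 : ℕ) : AddMonoidAlgebra ℤ G) * TT G
      + (n : AddMonoidAlgebra ℤ G) * ((single g₀ 1 : AddMonoidAlgebra ℤ G) * X) := by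
    rw [hFS, add_mul, hTX, hS0, single_eq g₀ s]
    rw [show (p : AddMonoidAlgebra ℤ G) * ((s : AddMonoidAlgebra ℤ G) * single g₀ 1) * X
      = ((p : AddMonoidAlgebra ℤ G) * (s : AddMonoidAlgebra ℤ G)) * (single g₀ 1 * X) by ring, hsn]
  have hfin : (n : AddMonoidAlgebra ℤ G) * Xp
      = (n : AddMonoidAlgebra ℤ G) * ((single g₀ 1 : AddMonoidAlgebra ℤ G) * X) := by
    have h1 := hFX.symm.trans hFX2
    rw [mul_add, mul_comm Xp (TT G), hTXp] at h1
    linear_combination h1
  have hfin2 : Xp = single g₀ 1 * X := by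
    ext g
    have h1 := congrArg (fun x : AddMonoidAlgebra ℤ G => x.coeff g) hfin
    have e1 := coeff_int_mul (n : ℤ) Xp g
    have e2 := coeff_int_mul (n : ℤ) (single g₀ 1 * X) g
    rw [Int.cast_natCast] at e1 e2
    rw [e1, e2] at h1
    exact mul_left_cancel₀ (by exact_mod_cast hn) h1
  rw [hfin2, hX]
  unfold im
  rw [Finset.mul_sum]
  refine Finset.sum_congr rfl fun d _ => ?_
  rw [AddMonoidAlgebra.single_mul_single, mul_one, add_comm]
  rfl

theorem sum_eq (D : Finset G) (φ ψ : G → G) (h : im D φ = im D ψ) (f : G → ℂ) :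
    ∑ d ∈ D, f (φ d) = ∑ d ∈ D, f (ψ d) := by
  classical
  have key : ∀ χ : G → G, ∑ d ∈ D, f (χ d) = ∑ g : G, ((im D χ).coeff g : ℂ) * f g := by
    intro χ
    have : ∀ g : G, ((im D χ).coeff g : ℂ) * f g = ∑ d ∈ D, if χ d = g then f g else 0 := by
      intro g
      unfold im
      rw [AddMonoidAlgebra.coeff_sum, Finsupp.finsetSum_apply]
      push_cast
      rw [Finset.sum_mul]
      refine Finset.sum_congr rfl fun d _ => ?_
      rw [AddMonoidAlgebra.coeff_single, Finsupp.single_apply]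
      split_ifs <;> simp
    simp only [this]
    rw [Finset.sum_comm]
    simp
  rw [key φ, key ψ, h]

end MultAux

theorem PDS.exists_shift {G : Type} [AddCommGroup G] {n : ℕ} {D : Finset G} (h : PDS n D) {p : ℕ}
    (hp : p.Prime) (hpn : p ∣ n) :
    ∃ g : G, ∀ f : G → ℂ, ∑ d ∈ D, f (p • d) = ∑ d ∈ D, f (d + g) := by
  classical
  have hfin : Finite G := Nat.finite_of_card_ne_zero (by rw [h.1]; omega)
  have : Fintype G := Fintype.ofFinite G
  by_cases hn : n = 0
  · subst hn
    have hsub : Subsingleton G := by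
      have h1 : Nat.card G = 1 := by simpa using h.1
      exact (Nat.card_eq_one_iff_unique.mp h1).1
    refine ⟨0, fun f => Finset.sum_congr rfl fun d _ => ?_⟩
    congr 1
    exact Subsingleton.elim _ _
  · obtain ⟨g, hg⟩ := MultAux.shift_im n D h p hp hpn hn
    exact ⟨g, fun f => MultAux.sum_eq D _ _ hg f⟩

theorem PDS.exists_shift_pow {G : Type} [AddCommGroup G] {n : ℕ} {D : Finset G} (h : PDS n D)
    {p : ℕ} (hp : p.Prime) (hpn : p ∣ n) (j : ℕ) :
    ∃ g : G, ∀ f : G → ℂ, ∑ d ∈ D, f ((p ^ j) • d) = ∑ d ∈ D, f (d + g) := by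
  obtain ⟨g₁, hg₁⟩ := h.exists_shift hp hpn
  induction j with
  | zero => exact ⟨0, fun f => by simp⟩
  | succ j ih =>
    obtain ⟨g, hg⟩ := ih
    refine ⟨g + p ^ j • g₁, fun f => ?_⟩
    have h1 : ∑ d ∈ D, f ((p ^ (j + 1)) • d) = ∑ d ∈ D, (fun x => f ((p ^ j) • x)) (p • d) := by
      refine Finset.sum_congr rfl fun d _ => ?_
      rw [pow_succ, mul_smul]
    rw [h1, hg₁ (fun x => f ((p ^ j) • x))]
    have h2 : ∑ d ∈ D, (fun x => f ((p ^ j) • x)) (d + g₁)
        = ∑ d ∈ D, (fun x => f (x + p ^ j • g₁)) ((p ^ j) • d) := by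
      refine Finset.sum_congr rfl fun d _ => ?_
      simp only [smul_add]
    rw [h2, hg (fun x => f (x + p ^ j • g₁))]
    refine Finset.sum_congr rfl fun d _ => ?_
    simp only [add_assoc]

end Pool.Agent.PPC
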