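import Mathlib

/-!
# Direct product difference sets of planar neofields
-/

set_option autoImplicit false

namespace Pool.Agent.PPC

/-- The set `D = {(x, y) : x + y = 1}` of a planar neofield with commutative multiplicative group `A`,
`|A| = n - 1`; `e` is the element with `1 + e = 0`. -/
structure NDS {A : Type} [CommGroup A] (n : ℕ) (e : A) (D : Finset (A × A)) : Prop where
  card : Nat.card A + 1 = n
  fin : Finite A
  row : ∀ x : A, x ≠ 1 → ∃! y : A, (x, y) ∈ D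
  row1 : ∀ y : A, (1, y) ∉ D
  col : ∀ y : A, y ≠ 1 → ∃! x : A, (x, y) ∈ D
  col1 : ∀ x : A, (x, 1) ∉ D
  diag : ∀ c : A, c ≠ e → ∃! x : A, (x, x * c) ∈ D
  diag1 : ∀ x : A, (x, x * e) ∉ D
  quot : ∀ a b : A, a ≠ 1 → b ≠ 1 → a ≠ b →
    ∃! s : (A × A) × (A × A), s.1 ∈ D ∧ s.2 ∈ D ∧ s.1 = (a * s.2.1, b * s.2.2)

end Pool.Agent.PPC
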