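import Pool.Agent.PPC.NeoDefs

/-!
# Module PPC/NeoDer: from a planar neofield to the difference set

The hypotheses are exactly those of the frozen statement `S08497`, plus commutativity of the multiplication.

PROOF. Let `A = {a : K // a ≠ zero}` with multiplication `mul`; a commutative group by the hypotheses.
`a · 0 = 0 · a = 0`: `mul (add zero zero) c = add (mul zero c) (mul zero c)`, and `x = x + x` gives `x = 0`
(uniqueness in the loop). `one` = the identity. `e`: the unique element with `add one e = zero`; `e ≠ zero` as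
`add one zero = one ≠ zero`. `D = {(x, y) : add x y = one}` (a finset, `K` is finite), `n = Nat.card K`.
`row`: for `x ≠ one`, `x ≠ zero` the unique `y ∈ K` with `add x y = one` is `≠ zero`; for `x = one` it is `zero`. `col`: same.
`diag`: `add x (mul x c) = mul x (add one c)` (left distributivity) is `one` iff `x = (add one c)⁻¹`, which exists iff
`add one c ≠ zero` iff `c ≠ e`.
PLANARITY: for `m ≠ m'` and `k, k' ∈ K` there is exactly one `s ∈ K` with `add (mul s m) k = add (mul s m') k'`: two
lines `[m, k]`, `[m', k']` meet, since otherwise both are disjoint from each other, and `[m', k']` and ... precisely: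
lines of the same slope are disjoint or equal; if `[m, k]` and `[m', k']` were disjoint, take a point `P` of `[m', k']`; the
line of slope `m` through `P` is disjoint from `[m, k]` (`P ∉ [m, k]`), so by uniqueness of the parallel through `P` it is
equal to `[m', k']`; but lines of different slopes `m ≠ m'` are different sets (put `x = zero`: `k = k'`; put `x = one`:
`add m k = add m' k`, so `m = m'`). They meet in one point, because two different points are on exactly one line.
`quot`: `a, b ≠ one`, `a ≠ b`. Pairs `((a x', b y'), (x', y'))` with `add x' y' = one`, `add (a x') (b y') = one`. Write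
`x' = s y'`: `one = add (s y') y' = (add s one) y'` and `one = (add (s a) b) y'` (commutativity), so
`add (mul s one) one = add (mul s a) b`; as `one ≠ a` there is exactly one such `s ∈ K`. `s ≠ zero` since `one ≠ b`; and
`add s one ≠ zero`, since otherwise `zero = add (s a) b` and `zero = a (add s one) = add (s a) a` give `a = b`. Then
`y' = (add s one)⁻¹`, `x' = s y'` is the unique solution.
-/

set_option autoImplicit false

namespace Pool.Agent.PPC

theorem nd_planar {K : Type} [CommGroupWithZero K] (add : K → K → K)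
    (h1 : ∀ a, add 0 a = a ∧ add a 0 = a)
    (h2 : ∀ a b, ∃! x, add a x = b)
    (h3 : ∀ a b, ∃! y, add y a = b)
    (IsLine : Set (K × K) → Prop)
    (h9 : ∀ L : Set (K × K), IsLine L ↔
      ((∃ m k : K, L = {p : K × K | p.2 = add (p.1 * m) k}) ∨
        ∃ a : K, L = {p : K × K | p.1 = a}))
    (h10 : ∀ P Q : K × K, P ≠ Q → ∃! L : Set (K × K), IsLine L ∧ P ∈ L ∧ Q ∈ L)
    (h11 : ∀ (L : Set (K × K)) (P : K × K), IsLine L → P ∉ L →
      ∃! M : Set (K × K), IsLine M ∧ P ∈ M ∧ Disjoint M L)
    {m m' : K} (hm : m ≠ m') (k k' : K) : ∃! s : K, add (s * m) k = add (s * m') k' := by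
  have hline : ∀ m k : K, IsLine {p : K × K | p.2 = add (p.1 * m) k} := fun m k =>
    (h9 _).2 (Or.inl ⟨m, k, rfl⟩)
  have hne : ∀ {m m' k k' : K}, m ≠ m' →
      ({p : K × K | p.2 = add (p.1 * m) k} : Set (K × K)) ≠
        {p : K × K | p.2 = add (p.1 * m') k'} := by
    intro m m' k k' hm heq
    have e1 : ((0 : K), k) ∈ ({p : K × K | p.2 = add (p.1 * m) k} : Set (K × K)) := by
      simp [(h1 k).1]
    rw [heq] at e1
    have e1' : k = k' := by simpa [(h1 k').1] using e1
    have e2 : ((1 : K), add m k) ∈ ({p : K × K | p.2 = add (p.1 * m) k} : Set (K × K)) := by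
      simp
    rw [heq] at e2
    have e2' : add m k = add m' k' := by simpa using e2
    rw [← e1'] at e2'
    exact hm ((h3 k (add m k)).unique rfl e2'.symm)
  have hex : ∃ s : K, add (s * m) k = add (s * m') k' := by
    by_contra hcon
    push Not at hcon
    have hkk : k ≠ k' := by
      have := hcon 0
      simpa [(h1 k).1, (h1 k').1] using this
    have hP : ((0 : K), k') ∉ ({p : K × K | p.2 = add (p.1 * m) k} : Set (K × K)) := by
      simp only [Set.mem_ofPred_eq, zero_mul, (h1 k).1]
      exact fun h => hkk h.symm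
    obtain ⟨M, -, hM⟩ := h11 _ _ (hline m k) hP
    have a1 := hM {p : K × K | p.2 = add (p.1 * m) k'} ⟨hline m k', by simp [(h1 k').1], by
      rw [Set.disjoint_left]
      rintro ⟨x, y⟩ hx hy
      simp only [Set.mem_ofPred_eq] at hx hy
      exact hkk ((h2 (x * m) y).unique hy.symm hx.symm)⟩
    have a2 := hM {p : K × K | p.2 = add (p.1 * m') k'} ⟨hline m' k', by simp [(h1 k').1], by
      rw [Set.disjoint_left]
      rintro ⟨x, y⟩ hx hy
      simp only [Set.mem_ofPred_eq] at hx hy
      exact hcon x (hy.symm.trans hx)⟩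
    exact hne hm (a1.trans a2.symm)
  obtain ⟨s, hs⟩ := hex
  refine ⟨s, hs, ?_⟩
  intro s' hs'
  by_contra hss
  have hPQ : ((s, add (s * m) k) : K × K) ≠ (s', add (s' * m) k) := by
    intro h
    exact hss (congrArg Prod.fst h).symm
  obtain ⟨L, -, hL⟩ := h10 _ _ hPQ
  have b1 := hL {p : K × K | p.2 = add (p.1 * m) k} ⟨hline m k, by simp, by simp⟩
  have b2 := hL {p : K × K | p.2 = add (p.1 * m') k'} ⟨hline m' k', by simpa using hs,
    by simpa using hs'⟩
  exact hne hm (b1.trans b2.symm)

theorem nd_core {K : Type} [Finite K] [CommGroupWithZero K] (add : K → K → K)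
    (h1 : ∀ a, add 0 a = a ∧ add a 0 = a)
    (h2 : ∀ a b, ∃! x, add a x = b)
    (h3 : ∀ a b, ∃! y, add y a = b)
    (h7 : ∀ a b c, add a b * c = add (a * c) (b * c))
    (IsLine : Set (K × K) → Prop)
    (h9 : ∀ L : Set (K × K), IsLine L ↔
      ((∃ m k : K, L = {p : K × K | p.2 = add (p.1 * m) k}) ∨
        ∃ a : K, L = {p : K × K | p.1 = a}))
    (h10 : ∀ P Q : K × K, P ≠ Q → ∃! L : Set (K × K), IsLine L ∧ P ∈ L ∧ Q ∈ L)
    (h11 : ∀ (L : Set (K × K)) (P : K × K), IsLine L → P ∉ L →
      ∃! M : Set (K × K), IsLine M ∧ P ∈ M ∧ Disjoint M L) :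
    ∃ (e : Kˣ) (D : Finset (Kˣ × Kˣ)), NDS (Nat.card K) e D := by
  obtain ⟨e, he, heu⟩ := h2 1 0
  have he0 : e ≠ 0 := by
    rintro rfl
    exact one_ne_zero ((h1 1).2.symm.trans he)
  have hlc : ∀ {a x y : K}, add a x = add a y → x = y := fun {a x y} h =>
    (h2 a (add a y)).unique h rfl
  have hrc : ∀ {a x y : K}, add x a = add y a → x = y := fun {a x y} h =>
    (h3 a (add y a)).unique h rfl
  have hfac : ∀ x c : K, add x (x * c) = x * add 1 c := by
    intro x c
    rw [mul_comm x (add 1 c), h7, one_mul, mul_comm x c]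
  refine ⟨Units.mk0 e he0,
    (Set.toFinite {p : Kˣ × Kˣ | add (p.1 : K) (p.2 : K) = 1}).toFinset, ?_⟩
  refine ⟨?_, inferInstance, ?_, ?_, ?_, ?_, ?_, ?_, ?_⟩
  · exact (Nat.card_eq_card_units_add_one (α := K)).symm
  · intro x hx
    obtain ⟨y, hy, hyu⟩ := h2 (x : K) 1
    have hy0 : y ≠ 0 := by
      rintro rfl
      exact hx (Units.ext ((h1 (x : K)).2.symm.trans hy))
    refine ⟨Units.mk0 y hy0, by simpa using hy, ?_⟩
    intro z hz
    have hz' : add (x : K) (z : K) = 1 := by simpa using hz
    exact Units.ext (hyu _ hz')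
  · intro y hy
    have hy' : add (1 : K) (y : K) = 1 := by simpa using hy
    exact y.ne_zero (hlc (hy'.trans (h1 1).2.symm))
  · intro y hy
    obtain ⟨x, hx, hxu⟩ := h3 (y : K) 1
    have hx0 : x ≠ 0 := by
      rintro rfl
      exact hy (Units.ext ((h1 (y : K)).1.symm.trans hx))
    refine ⟨Units.mk0 x hx0, by simpa using hx, ?_⟩
    intro z hz
    have hz' : add (z : K) (y : K) = 1 := by simpa using hz
    exact Units.ext (hxu _ hz')
  · intro x hx
    have hx' : add (x : K) (1 : K) = 1 := by simpa using hx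
    exact x.ne_zero (hrc (hx'.trans (h1 1).1.symm))
  · intro c hc
    have hw : add 1 (c : K) ≠ 0 := by
      intro h
      exact hc (Units.ext (heu _ h))
    refine ⟨(Units.mk0 _ hw)⁻¹, ?_, ?_⟩
    · simp only [Set.Finite.mem_toFinset, Set.mem_ofPred_eq, Units.val_mul]
      rw [hfac]
      simp [inv_mul_cancel₀ hw]
    · intro z hz
      have hz' : add (z : K) ((z : K) * c) = 1 := by simpa using hz
      rw [hfac] at hz'
      have : z * Units.mk0 _ hw = 1 := Units.ext (by simpa using hz')
      exact eq_inv_of_mul_eq_one_left this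
  · intro x hx
    have hx' : add (x : K) ((x : K) * e) = 1 := by simpa using hx
    rw [hfac, he, mul_zero] at hx'
    exact zero_ne_one hx'
  · intro a b ha hb hab
    have ha' : (1 : K) ≠ a := fun h => ha (Units.ext h.symm)
    have hb' : (1 : K) ≠ b := fun h => hb (Units.ext h.symm)
    obtain ⟨s, hs, hsu⟩ := nd_planar add h1 h2 h3 IsLine h9 h10 h11 ha' 1 (b : K)
    have hs0 : s ≠ 0 := by
      rintro rfl
      simp only [zero_mul, (h1 _).1] at hs
      exact hb' hs
    have hw : add (s * 1) 1 ≠ 0 := by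
      intro h
      have e1 : add (s * a) (b : K) = 0 := by rw [← hs]; exact h
      have e2 : add (s * a) (a : K) = 0 := by
        have := h7 (s * 1) 1 (a : K)
        rw [h, zero_mul, mul_one, one_mul] at this
        exact this.symm
      exact hab (Units.ext (hlc (e2.trans e1.symm)))
    set w := add (s * 1) 1 with hwdef
    have hD1 : add (s * w⁻¹) w⁻¹ = 1 := by
      have := h7 (s * 1) 1 w⁻¹
      rw [← hwdef, mul_inv_cancel₀ hw, mul_one, one_mul] at this
      exact this.symm
    have hD2 : add (a * (s * w⁻¹)) (b * w⁻¹) = 1 := by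
      have := h7 (s * a) b w⁻¹
      rw [← hs, mul_inv_cancel₀ hw] at this
      rw [this, ← mul_assoc, mul_comm (a : K) s]
    refine ⟨((a * (Units.mk0 s hs0 * (Units.mk0 w hw)⁻¹), b * (Units.mk0 w hw)⁻¹),
      (Units.mk0 s hs0 * (Units.mk0 w hw)⁻¹, (Units.mk0 w hw)⁻¹)), ⟨?_, ?_, rfl⟩, ?_⟩
    · simpa using hD2
    · simpa using hD1
    · rintro ⟨p, x, y⟩ ⟨hp, hxy, hpe⟩
      dsimp only at hp hxy hpe
      subst hpe
      have q1 : add (x : K) (y : K) = 1 := by simpa using hxy
      have q2 : add ((a : K) * x) ((b : K) * y) = 1 := by simpa using hp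
      have hy0 : (y : K) ≠ 0 := y.ne_zero
      have q3 : add ((x : K) * (y : K)⁻¹ * 1) 1 = (y : K)⁻¹ := by
        have := h7 (x : K) y (y : K)⁻¹
        rw [q1, mul_inv_cancel₀ hy0, one_mul] at this
        rw [mul_one]
        exact this.symm
      have q4 : add ((x : K) * (y : K)⁻¹ * a) b = (y : K)⁻¹ := by
        have := h7 ((a : K) * x) (b * y) (y : K)⁻¹
        rw [q2, mul_assoc (b : K), mul_inv_cancel₀ hy0, one_mul, mul_one] at this
        rw [mul_assoc, mul_comm (a : K)] at this
        exact this.symm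
      have q5 : (x : K) * (y : K)⁻¹ = s := hsu _ (q3.trans q4.symm)
      have q6 : (y : K)⁻¹ = w := by
        rw [← q3, q5]
      have q7 : y = (Units.mk0 w hw)⁻¹ := by
        apply Units.ext
        rw [Units.val_inv_eq_inv_val, Units.val_mk0, ← q6, inv_inv]
      have q8 : x = Units.mk0 s hs0 * (Units.mk0 w hw)⁻¹ := by
        rw [← q7]
        apply Units.ext
        rw [Units.val_mul, Units.val_mk0, ← q5, mul_assoc, inv_mul_cancel₀ hy0, mul_one]
      rw [q8, q7]

theorem exists_nds {K : Type} [Finite K] (add mul : K → K → K) (zero : K)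
    (h1 : ∀ a, add zero a = a ∧ add a zero = a)
    (h2 : ∀ a b, ∃! x, add a x = b)
    (h3 : ∀ a b, ∃! y, add y a = b)
    (h4 : ∀ a b, a ≠ zero → b ≠ zero → mul a b ≠ zero)
    (h5 : ∀ a b c, a ≠ zero → b ≠ zero → c ≠ zero → mul (mul a b) c = mul a (mul b c))
    (h6 : ∃ e, e ≠ zero ∧ (∀ a, a ≠ zero → mul e a = a ∧ mul a e = a) ∧
      ∀ a, a ≠ zero → ∃ b, b ≠ zero ∧ mul a b = e ∧ mul b a = e)
    (h7 : ∀ a b c, mul (add a b) c = add (mul a c) (mul b c))
    (h8 : ∀ a b c, mul c (add a b) = add (mul c a) (mul c b))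
    (hcomm : ∀ a b, mul a b = mul b a)
    (IsLine : Set (K × K) → Prop)
    (h9 : ∀ L : Set (K × K), IsLine L ↔
      ((∃ m k : K, L = {p : K × K | p.2 = add (mul p.1 m) k}) ∨
        ∃ a : K, L = {p : K × K | p.1 = a}))
    (h10 : ∀ P Q : K × K, P ≠ Q → ∃! L : Set (K × K), IsLine L ∧ P ∈ L ∧ Q ∈ L)
    (h11 : ∀ (L : Set (K × K)) (P : K × K), IsLine L → P ∉ L →
      ∃! M : Set (K × K), IsLine M ∧ P ∈ M ∧ Disjoint M L) :
    ∃ (A : Type) (_ : CommGroup A) (e : A) (D : Finset (A × A)), NDS (Nat.card K) e D := by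
  classical
  obtain ⟨u, hu0, hu1, hinv⟩ := h6
  have hz : ∀ c, mul zero c = zero := by
    intro c
    have e1 := h7 zero zero c
    rw [(h1 zero).1] at e1
    exact (h2 (mul zero c) (mul zero c)).unique e1.symm (h1 _).2
  have hz' : ∀ c, mul c zero = zero := fun c => (hcomm c zero).trans (hz c)
  have hone : ∀ a, mul u a = a := by
    intro a
    by_cases ha : a = zero
    · rw [ha, hz']
    · exact (hu1 a ha).1
  choose! inv hinv0 hinv1 hinv2 using hinv
  let _ : CommGroupWithZero K :=
    { mul := mul
      mul_assoc := by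
        intro a b c
        change mul (mul a b) c = mul a (mul b c)
        by_cases ha : a = zero
        · rw [ha, hz, hz, hz]
        by_cases hb : b = zero
        · rw [hb, hz, hz', hz]
        by_cases hc : c = zero
        · rw [hc, hz', hz', hz']
        exact h5 a b c ha hb hc
      one := u
      one_mul := hone
      mul_one := fun a => (hcomm a u).trans (hone a)
      mul_comm := hcomm
      zero := zero
      zero_mul := hz
      mul_zero := hz'
      inv := fun a => if a = zero then zero else inv a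
      exists_pair_ne := ⟨u, zero, hu0⟩
      inv_zero := if_pos rfl
      mul_inv_cancel := by
        intro a ha
        change mul a (if a = zero then zero else inv a) = u
        have ha' : a ≠ zero := ha
        rw [if_neg ha']
        exact hinv1 a ha' }
  obtain ⟨e, D, h⟩ := nd_core (K := K) add h1 h2 h3 h7 IsLine h9 h10 h11
  exact ⟨Kˣ, inferInstance, e, D, h⟩

end Pool.Agent.PPC
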