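import Pool.Agent.PPC.NeoMult
import Pool.Agent.PPC.Mann

/-!
# Module PPC/NeoMann: the test for neofields

PROOF of `NDS.not_dvd`. Suppose `q ∣ p ^ j + 1`. Let `χ : A →* ℂˣ` (or `MulChar`, or `AddChar (Additive A) ℂ`) be
of order `q` (the dual group has the same order as `A`, Cauchy). `c t = ∑_{(x, y) ∈ D} χ (x y) ^ t`.
By `pow_mem` (iterated) `(x, y) ↦ (x^(p^j), y^(p^j))` maps `D` to itself, injectively (`p` is coprime to `|A| = n - 1`), so
it permutes `D`, and `c t = ∑ χ (x y) ^ (p^j t) = ∑ χ (x y) ^ (-t) = conj (c t)`. For `q ∤ t`, `ψ = χ ^ t`: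
`|c t|² = ∑_{s₁, s₂ ∈ D} ψ (s₁ / s₂) = #D + ∑_{a ≠ 1, b ≠ 1, a ≠ b} ψ (a b)` (by `quot`; two different elements of `D`
differ in both coordinates and in the ratio), `#D = n - 2` and the sum is
`∑_{all} ψ(ab) - ∑_b ψ(b) - ∑_a ψ(a) - ∑_a ψ(a²) + 2 = 2` since `ψ` and `ψ²` are nontrivial (`q` odd). So `(c t)² = n`,
`c t = ± √n`. `∑_{t < q} c t = q #{(x, y) ∈ D | χ (x y) = 1}`, `c 0 = n - 2`: `q e = n - 2 + m √n`, `m ∈ ℤ`, `√n` irrational, so
`q ∣ n - 2`, and `q ∣ n - 1`, so `q ∣ 1`. (`n ≥ 2` because `p ∣ n`, `n = |A| + 1 ≥ 2`.)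

`adm_neo`: `r = 2`: every element of `ZMod 2` is a square. `r` odd: `isSquare_of_not_dvd`, `r ≠ p` since `p ∣ n`,
`r ∣ n - 1`.
-/

set_option autoImplicit false

namespace Pool.Agent.PPC

open Finset

theorem NDS.card_D {A : Type} [CommGroup A] {n : ℕ} {e : A} {D : Finset (A × A)}
    (h : NDS n e D) : #D + 2 = n := by
  classical
  have hfin := h.fin
  cases nonempty_fintype A
  have h1 : #D = #((univ : Finset A).erase 1) := by
    refine Finset.card_bij (fun s _ => s.1) ?_ ?_ ?_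
    · rintro ⟨x, y⟩ hs
      rw [mem_erase]
      refine ⟨?_, mem_univ _⟩
      rintro hx
      simp only at hx
      rw [hx] at hs
      exact h.row1 y hs
    · rintro ⟨x, y⟩ hs ⟨x', y'⟩ hs' hxx
      simp only at hxx
      subst hxx
      have hx : x ≠ 1 := by rintro rfl; exact h.row1 y hs
      rw [(h.row x hx).unique hs hs']
    · intro x hx
      obtain ⟨y, hy, _⟩ := h.row x (mem_erase.1 hx).1
      exact ⟨(x, y), hy, rfl⟩
  rw [card_erase_of_mem (mem_univ _), card_univ, ← Nat.card_eq_fintype_card] at h1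
  have h2 := h.card
  have h3 : 0 < Nat.card A := Nat.card_pos
  omega

/-- The number of representations as a ratio. -/
theorem NDS.card_ratio {A : Type} [CommGroup A] [DecidableEq A] {n : ℕ} {e : A} {D : Finset (A × A)}
    (h : NDS n e D) (g : A × A) :
    #((D ×ˢ D).filter fun s : (A × A) × (A × A) => s.1 = g * s.2) =
      if g = 1 then #D else if g.1 ≠ 1 ∧ g.2 ≠ 1 ∧ g.1 ≠ g.2 then 1 else 0 := by
  split_ifs with h1 h2
  · have h3 : ((D ×ˢ D).filter fun s : (A × A) × (A × A) => s.1 = g * s.2) =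
        D.image fun d => (d, d) := by
      ext ⟨a, b⟩
      simp only [mem_filter, mem_product, mem_image, Prod.mk.injEq, h1, one_mul]
      constructor
      · rintro ⟨⟨ha, _⟩, hab⟩
        exact ⟨a, ha, rfl, hab⟩
      · rintro ⟨d, hd, rfl, rfl⟩
        exact ⟨⟨hd, hd⟩, rfl⟩
    rw [h3, card_image_of_injective _ (fun a b hab => (Prod.mk.inj hab).1)]
  · obtain ⟨s0, hs0, hu⟩ := h.quot g.1 g.2 h2.1 h2.2.1 h2.2.2
    have h3 : ((D ×ˢ D).filter fun s : (A × A) × (A × A) => s.1 = g * s.2) = {s0} := by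
      ext s
      simp only [mem_filter, mem_product, mem_singleton]
      constructor
      · rintro ⟨⟨ha, hb⟩, hab⟩
        exact hu s ⟨ha, hb, by rw [hab]; rfl⟩
      · rintro rfl
        exact ⟨⟨hs0.1, hs0.2.1⟩, by rw [hs0.2.2]; rfl⟩
    rw [h3, card_singleton]
  · rw [card_eq_zero, filter_eq_empty_iff]
    rintro ⟨⟨x1, y1⟩, ⟨x2, y2⟩⟩ hs heq
    rw [mem_product] at hs
    obtain ⟨hs1, hs2⟩ := hs
    obtain ⟨a, b⟩ := g
    simp only [Prod.mk_mul_mk, Prod.mk.injEq] at heq hs1 hs2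
    obtain ⟨rfl, rfl⟩ := heq
    have hx2 : x2 ≠ 1 := by rintro rfl; exact h.row1 _ hs2
    have hy2 : y2 ≠ 1 := by rintro rfl; exact h.col1 _ hs2
    apply h1
    by_cases ha : a = 1
    · subst ha
      rw [one_mul] at hs1
      have h4 := (h.row x2 hx2).unique hs1 hs2
      rw [mul_eq_right] at h4
      rw [h4]; rfl
    · by_cases hb : b = 1
      · subst hb
        rw [one_mul] at hs1
        have h4 := (h.col y2 hy2).unique hs1 hs2
        rw [mul_eq_right] at h4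
        exact absurd h4 ha
      · exfalso
        have hab : a = b := by
          by_contra hab
          exact h2 ⟨ha, hb, hab⟩
        subst hab
        have h5 : (x2, x2 * (x2⁻¹ * y2)) ∈ D := by rw [mul_inv_cancel_left]; exact hs2
        have h6 : (a * x2, a * x2 * (x2⁻¹ * y2)) ∈ D := by
          rw [mul_assoc a, mul_inv_cancel_left]; exact hs1
        have h7 : x2⁻¹ * y2 ≠ e := by
          intro h8
          rw [h8] at h5
          exact h.diag1 x2 h5
        have h8 := (h.diag _ h7).unique h6 h5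
        rw [mul_eq_right] at h8
        exact ha h8

theorem NDS.sum_sq {A : Type} [CommGroup A] [Fintype A] {n : ℕ} {e : A} {D : Finset (A × A)}
    (h : NDS n e D) (ψ : A →* ℂ) (h1 : ∑ a, ψ a = 0) (h2 : ∑ a, ψ a ^ 2 = 0) :
    (∑ s ∈ D, ψ (s.1 * s.2)) * (∑ s ∈ D, ψ (s.1⁻¹ * s.2⁻¹)) = n := by
  classical
  rw [sum_mul_sum, ← sum_product' D D (fun s r => ψ (s.1 * s.2) * ψ (r.1⁻¹ * r.2⁻¹))]
  rw [← Finset.sum_fiberwise (D ×ˢ D) (fun p : (A × A) × (A × A) => p.1 / p.2)
    (fun p => ψ (p.1.1 * p.1.2) * ψ (p.2.1⁻¹ * p.2.2⁻¹))]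
  have h3 : ∀ g : A × A, ∑ p ∈ D ×ˢ D with p.1 / p.2 = g,
      ψ (p.1.1 * p.1.2) * ψ (p.2.1⁻¹ * p.2.2⁻¹) =
      ((if g = 1 then #D else if g.1 ≠ 1 ∧ g.2 ≠ 1 ∧ g.1 ≠ g.2 then 1 else 0 : ℕ) : ℂ) *
        (ψ g.1 * ψ g.2) := by
    intro g
    rw [← h.card_ratio g]
    have h4 : ((D ×ˢ D).filter fun p : (A × A) × (A × A) => p.1 / p.2 = g) =
        ((D ×ˢ D).filter fun s : (A × A) × (A × A) => s.1 = g * s.2) :=
      filter_congr fun p _ => div_eq_iff_eq_mul
    rw [← h4, ← nsmul_eq_mul, ← sum_const]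
    refine sum_congr rfl fun p hp => ?_
    rw [← (mem_filter.1 hp).2, ← map_mul, ← map_mul]
    congr 1
    rw [mul_mul_mul_comm, div_eq_mul_inv]
    rfl
  rw [sum_congr rfl fun g _ => h3 g]
  have h4 : ∀ g : A × A, ((if g = 1 then #D else
      if g.1 ≠ 1 ∧ g.2 ≠ 1 ∧ g.1 ≠ g.2 then 1 else 0 : ℕ) : ℂ) * (ψ g.1 * ψ g.2) =
      (if g = 1 then (#D : ℂ) else 0) +
      if g.1 ≠ 1 then ψ g.1 * (if g.2 ≠ 1 ∧ g.1 ≠ g.2 then ψ g.2 else 0) else 0 := by
    intro g
    by_cases hg : g = 1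
    · rw [if_pos hg, if_pos hg, hg]
      simp
    · rw [if_neg hg, if_neg hg, zero_add]
      by_cases h5 : g.1 ≠ 1
      · by_cases h6 : g.2 ≠ 1 ∧ g.1 ≠ g.2
        · rw [if_pos ⟨h5, h6⟩, if_pos h5, if_pos h6, Nat.cast_one, one_mul]
        · rw [if_neg (fun h7 => h6 h7.2), if_pos h5, if_neg h6, Nat.cast_zero, zero_mul, mul_zero]
      · rw [if_neg (fun h7 => h5 h7.1), if_neg h5, Nat.cast_zero, zero_mul]
  rw [sum_congr rfl fun g _ => h4 g, sum_add_distrib, sum_ite_eq' univ (1 : A × A),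
    if_pos (mem_univ _), Fintype.sum_prod_type]
  have h5 : ∀ a : A, ∑ b : A, (if a ≠ 1 then ψ a * (if b ≠ 1 ∧ a ≠ b then ψ b else 0) else 0) =
      (ψ a * (-1 - ψ a)) - if a = 1 then (-2 : ℂ) else 0 := by
    intro a
    by_cases ha : a = 1
    · subst ha
      simp
      norm_num
    · simp only [ne_eq, ha, not_false_eq_true, if_true, if_false, sub_zero]
      rw [← mul_sum]
      congr 1
      have h6 : ∀ b : A, (if ¬ b = 1 ∧ ¬ a = b then ψ b else 0) =
          ψ b - (if b = 1 then (1 : ℂ) else 0) - (if b = a then ψ a else 0) := by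
        intro b
        by_cases hb : b = 1
        · subst hb
          simp [Ne.symm ha]
        · by_cases hab : b = a
          · subst hab
            simp [hb]
          · simp [hb, hab, Ne.symm hab]
      rw [sum_congr rfl fun b _ => h6 b, sum_sub_distrib, sum_sub_distrib, h1, sum_ite_eq',
        sum_ite_eq', if_pos (mem_univ _), if_pos (mem_univ _)]
      ring
  rw [sum_congr rfl fun a _ => h5 a, sum_sub_distrib, sum_ite_eq', if_pos (mem_univ _)]
  have h6 : ∑ a, ψ a * (-1 - ψ a) = 0 := by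
    have h7 : ∀ a : A, ψ a * (-1 - ψ a) = - ψ a - ψ a ^ 2 := fun a => by ring
    rw [sum_congr rfl fun a _ => h7 a, sum_sub_distrib, sum_neg_distrib, h1, h2]
    ring
  rw [h6, ← h.card_D]
  push_cast
  ring

/-- The conclusion of the argument with the characters. -/
theorem neo_irrational {n q : ℕ} (hn : ¬ IsSquare n) (hn2 : 2 ≤ n) (hq : q.Prime)
    (hqn : q ∣ n - 1) (e : ℕ) (m : ℤ)
    (h : ((q * e : ℕ) : ℂ) = ((n - 2 : ℕ) : ℂ) + m * ((Real.sqrt n : ℝ) : ℂ)) : False := by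
  have h1 : ((q * e : ℕ) : ℝ) = ((n - 2 : ℕ) : ℝ) + m * Real.sqrt n := by
    exact_mod_cast h
  have hirr : Irrational (Real.sqrt n) := irrational_sqrt_natCast_iff.2 hn
  have hm : m = 0 := by
    by_contra hm0
    apply (hirr.intCast_mul hm0)
    refine ⟨((q * e : ℕ) : ℚ) - ((n - 2 : ℕ) : ℚ), ?_⟩
    push_cast
    push_cast at h1
    linarith
  rw [hm, Int.cast_zero, zero_mul, add_zero] at h1
  have h2 : q * e = n - 2 := by exact_mod_cast h1
  have h3 : q ∣ n - 2 := ⟨e, h2.symm⟩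
  have h4 : q ∣ 1 := by
    have h5 : n - 1 = n - 2 + 1 := by omega
    rw [h5] at hqn
    exact (Nat.dvd_add_right h3).1 hqn
  exact hq.one_lt.ne' (Nat.dvd_one.1 h4)

theorem NDS.pow_pow_mem {A : Type} [CommGroup A] {n : ℕ} {e : A} {D : Finset (A × A)}
    (h : NDS n e D) {p : ℕ} (hp : p.Prime) (hpn : p ∣ n) (j : ℕ) {s : A × A} (hs : s ∈ D) :
    s ^ (p ^ j) ∈ D := by
  induction j with
  | zero => simpa using hs
  | succ j ih =>
    have h1 := h.pow_mem hp hpn (x := (s ^ (p ^ j)).1) (y := (s ^ (p ^ j)).2) ih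
    rw [pow_succ, pow_mul]
    exact h1

theorem NDS.not_dvd {A : Type} [CommGroup A] {n : ℕ} {e : A} {D : Finset (A × A)}
    (h : NDS n e D) (hn : ¬ IsSquare n) {p : ℕ} (hp : p.Prime) (hpn : p ∣ n) {q : ℕ} (hq : q.Prime)
    (hq2 : q ≠ 2) (hqn : q ∣ n - 1) (j : ℕ) : ¬ q ∣ p ^ j + 1 := by
  classical
  intro hqj
  have hfin := h.fin
  cases nonempty_fintype A
  have : Fact q.Prime := ⟨hq⟩
  have hn2 : 2 ≤ n := by
    have h1 := h.card
    have h3 : 0 < Nat.card A := Nat.card_pos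
    omega
  have hodd : Odd q := hq.odd_of_ne_two hq2
  have hcardA : Nat.card A = n - 1 := by have := h.card; omega
  -- the character
  have hcard : q ∣ Fintype.card (AddChar (Additive A) ℂ) := by
    rw [AddChar.card_eq, Fintype.card_additive, ← Nat.card_eq_fintype_card, hcardA]
    exact hqn
  obtain ⟨χ, hχ⟩ := exists_prime_orderOf_dvd_card q hcard
  have hχq : ∀ x, χ x ^ q = 1 := by
    intro x
    have h1 : χ ^ q = 1 := by rw [← hχ]; exact pow_orderOf_eq_one χ
    have h2 := congrArg (fun ψ : AddChar (Additive A) ℂ => ψ x) h1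
    simpa using h2
  -- the multiplicative homomorphisms
  let Ψ : ℕ → (A →* ℂ) := fun t =>
    { toFun := fun a => (χ ^ t) (Additive.ofMul a)
      map_one' := by rw [ofMul_one, AddChar.map_zero_eq_one]
      map_mul' := fun a b => by rw [ofMul_mul, AddChar.map_add_eq_mul] }
  have hΨ : ∀ t a, Ψ t a = χ (Additive.ofMul a) ^ t := fun t a => rfl
  have hΨsum : ∀ t, ¬ q ∣ t → ∑ a, Ψ t a = 0 := by
    intro t ht
    have hne : χ ^ t ≠ 0 := by
      intro h0
      apply ht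
      rw [← hχ]
      exact orderOf_dvd_of_pow_eq_one h0
    have h1 : ∑ x, (χ ^ t) x = 0 := AddChar.sum_eq_zero_iff_ne_zero.2 hne
    rw [← h1]
    exact Fintype.sum_equiv Additive.ofMul _ _ fun a => rfl
  set c : ℕ → ℂ := fun t => ∑ s ∈ D, χ (Additive.ofMul (s.1 * s.2)) ^ t with hc
  -- the map is a permutation of `D`
  have hcop : Nat.Coprime (Nat.card A) (p ^ j) := by
    refine Nat.Coprime.pow_right j (Nat.Coprime.symm ((Nat.Prime.coprime_iff_not_dvd hp).2 ?_))
    rw [hcardA]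
    intro hd
    have h1 : p ∣ 1 := by
      have h5 : n = n - 1 + 1 := by omega
      rw [h5] at hpn
      exact (Nat.dvd_add_right hd).1 hpn
    exact hp.one_lt.ne' (Nat.dvd_one.1 h1)
  have hinj : Function.Injective (fun s : A × A => s ^ (p ^ j)) := by
    rintro ⟨a, b⟩ ⟨a', b'⟩ hab
    have h1 := congrArg Prod.fst hab
    have h2 := congrArg Prod.snd hab
    have h3 : Function.Injective (fun a : A => a ^ (p ^ j)) := (powCoprime hcop).injective
    exact Prod.ext (h3 h1) (h3 h2)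
  have hperm : ∀ F : A × A → ℂ, ∑ s ∈ D, F (s ^ (p ^ j)) = ∑ s ∈ D, F s := by
    intro F
    have h1 : D.image (fun s : A × A => s ^ (p ^ j)) = D := by
      refine Finset.eq_of_subset_of_card_le ?_ ?_
      · intro s hs
        obtain ⟨r, hr, rfl⟩ := mem_image.1 hs
        exact h.pow_pow_mem hp hpn j hr
      · rw [card_image_of_injective _ hinj]
    conv_rhs => rw [← h1]
    rw [sum_image fun a _ b _ hab => hinj hab]
  -- the squares
  have hsq : ∀ t, ¬ q ∣ t → (c t) ^ 2 = n := by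
    intro t ht
    have ht2 : ¬ q ∣ t * 2 := by
      intro h0
      rcases hq.dvd_mul.1 h0 with h1 | h1
      · exact ht h1
      · exact hq2 ((Nat.prime_dvd_prime_iff_eq hq Nat.prime_two).1 h1)
    have h1 := h.sum_sq (Ψ t) (hΨsum t ht) (by
      rw [← hΨsum (t * 2) ht2]
      refine sum_congr rfl fun a _ => ?_
      rw [hΨ, hΨ, pow_mul])
    rw [← h1, pow_two]
    congr 1
    rw [hc]
    simp only
    rw [← hperm]
    refine sum_congr rfl fun s _ => ?_
    obtain ⟨w, hw⟩ := hqj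
    rw [← hΨ]
    have h5 : Ψ t ((s.1 * s.2) ^ (p ^ j + 1)) = 1 := by
      rw [hΨ, ofMul_pow, AddChar.map_nsmul_eq_pow, hw, pow_mul, hχq, one_pow, one_pow]
    rw [pow_succ, map_mul] at h5
    have h6 : Ψ t (s.1⁻¹ * s.2⁻¹) * Ψ t (s.1 * s.2) = 1 := by
      rw [← map_mul, ← mul_inv, inv_mul_cancel, map_one]
    have h7 : Ψ t (s.1 * s.2) ≠ 0 := right_ne_zero_of_mul_eq_one h6
    have h8 : Ψ t ((s ^ p ^ j).1 * (s ^ p ^ j).2) = Ψ t ((s.1 * s.2) ^ p ^ j) := by
      rw [Prod.pow_fst, Prod.pow_snd, mul_pow]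
    rw [h8]
    exact mul_right_cancel₀ h7 (h5.trans h6.symm)
  -- the signs
  have hsign : ∀ t, ∃ s : ℤ, ¬ q ∣ t → c t = s * ((Real.sqrt n : ℝ) : ℂ) := by
    intro t
    by_cases ht : q ∣ t
    · exact ⟨0, fun h0 => absurd ht h0⟩
    · have h1 := hsq t ht
      have h2 : (((Real.sqrt n : ℝ) : ℂ)) ^ 2 = n := by
        rw [← Complex.ofReal_pow, Real.sq_sqrt (Nat.cast_nonneg n), Complex.ofReal_natCast]
      rw [← h2] at h1
      rcases sq_eq_sq_iff_eq_or_eq_neg.1 h1 with h3 | h3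
      · exact ⟨1, fun _ => by rw [h3, Int.cast_one, one_mul]⟩
      · exact ⟨-1, fun _ => by rw [h3]; push_cast; ring⟩
  choose s hs using hsign
  have hsum1 : ∑ t ∈ range q, c t =
      ((q * (D.filter fun d => χ (Additive.ofMul (d.1 * d.2)) = 1).card : ℕ) : ℂ) := by
    rw [hc, sum_comm]
    have h2 : ∀ d ∈ D, ∑ t ∈ range q, (χ (Additive.ofMul (d.1 * d.2))) ^ t =
        if χ (Additive.ofMul (d.1 * d.2)) = 1 then (q : ℂ) else 0 := by
      intro d _
      exact mann_geom (hχq _)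
    rw [sum_congr rfl h2, ← sum_filter, sum_const, nsmul_eq_mul]
    push_cast
    ring
  have hsum2 : ∑ t ∈ range q, c t =
      ((n - 2 : ℕ) : ℂ) +
        ((∑ t ∈ (range q).erase 0, s t : ℤ) : ℂ) * ((Real.sqrt n : ℝ) : ℂ) := by
    rw [← add_sum_erase (range q) _ (mem_range.2 hq.pos)]
    congr 1
    · have h1 := h.card_D
      have h3 : #D = n - 2 := by omega
      simp [hc, h3]
    · push_cast
      rw [sum_mul]
      refine sum_congr rfl fun t ht => ?_
      rw [mem_erase, mem_range] at ht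
      exact hs t (fun hd => ht.1 (Nat.eq_zero_of_dvd_of_lt hd ht.2))
  rw [hsum1] at hsum2
  exact neo_irrational hn hn2 hq hqn _ _ hsum2

theorem adm_neo {A : Type} [CommGroup A] {n : ℕ} {e : A} {D : Finset (A × A)}
    (h : NDS n e D) (hn : ¬ IsSquare n) {p r : ℕ} (hp : p.Prime) (hr : r.Prime) (hpn : p ∣ n)
    (hrn : n ≡ 1 [MOD r]) : IsSquare ((p : ℕ) : ZMod r) := by
  have hfin := h.fin
  have hn2 : 2 ≤ n := by
    have h1 := h.card
    have h3 : 0 < Nat.card A := Nat.card_pos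
    omega
  have hdvd : r ∣ n - 1 := (Nat.modEq_iff_dvd' (by omega)).1 hrn.symm
  by_cases hr2 : r = 2
  · subst hr2
    have : ∀ x : ZMod 2, IsSquare x := by decide
    exact this _
  · refine isSquare_of_not_dvd hp hr ?_ (fun j => h.not_dvd hn hp hpn hr hr2 hdvd j)
    rintro rfl
    have h1 : n = n - 1 + 1 := by omega
    rw [h1] at hpn
    have h2 : p ∣ 1 := (Nat.dvd_add_right hdvd).1 hpn
    exact hp.one_lt.ne' (Nat.dvd_one.1 h2)

end Pool.Agent.PPC
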