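import Pool.Agent.PPC.NeoDefs

set_option autoImplicit false
set_option linter.unusedSectionVars false

namespace Pool.Agent.PPC

open Finset MonoidAlgebra

namespace NM

variable {G : Type} [CommGroup G] [Fintype G] [DecidableEq G]

/-- The sum of the elements of a list of group elements. -/
noncomputable def sm {ι : Type} (S : Finset ι) (k : ι → G) : MonoidAlgebra ℤ G :=
  ∑ s ∈ S, single (k s) 1

/-- The element with given coefficients. -/
noncomputable def el (φ : G → ℤ) : MonoidAlgebra ℤ G := ∑ g, single g (φ g)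

lemma coeff_el (φ : G → ℤ) (g : G) : (el φ).coeff g = φ g := by
  unfold el
  rw [coeff_sum, Finsupp.finsetSum_apply]
  simp [Finsupp.single_apply]

lemma coeff_single_mul' (s : G) (y : MonoidAlgebra ℤ G) (g : G) :
    (single s 1 * y).coeff g = y.coeff (s⁻¹ * g) := by
  rw [coeff_single_mul_eq_mul_coeff (s⁻¹ * g)]
  · simp
  · intro m' _
    constructor
    · rintro rfl; group
    · rintro rfl; group

lemma coeff_sm_mul {ι : Type} (S : Finset ι) (k : ι → G) (y : MonoidAlgebra ℤ G) (g : G) :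
    (sm S k * y).coeff g = ∑ s ∈ S, y.coeff ((k s)⁻¹ * g) := by
  unfold sm
  rw [sum_mul, coeff_sum, Finsupp.finsetSum_apply]
  exact sum_congr rfl fun s _ => coeff_single_mul' _ _ _

lemma coeff_sm {ι : Type} (S : Finset ι) (k : ι → G) (g : G) :
    (sm S k).coeff g = #{s ∈ S | k s = g} := by
  unfold sm
  rw [coeff_sum, Finsupp.finsetSum_apply]
  simp [Finsupp.single_apply]

lemma ext' {x y : MonoidAlgebra ℤ G} (h : ∀ g, x.coeff g = y.coeff g) : x = y :=
  MonoidAlgebra.ext (Finsupp.ext h)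

lemma frob {ι : Type} [DecidableEq ι] (S : Finset ι) (k : ι → G) {p : ℕ} (hp : p.Prime) :
    ∃ z : MonoidAlgebra ℤ G, sm S (fun s => k s ^ p) = sm S k ^ p + (p : MonoidAlgebra ℤ G) * z := by
  induction S using Finset.induction_on with
  | empty => exact ⟨0, by simp [sm, hp.ne_zero]⟩
  | insert a S ha ih =>
    obtain ⟨z, hz⟩ := ih
    obtain ⟨r, hr⟩ := exists_add_pow_prime_eq hp (single (k a) (1 : ℤ)) (sm S k)
    refine ⟨z - single (k a) 1 * sm S k * r, ?_⟩
    have e1 : sm (insert a S) (fun s => k s ^ p) = single (k a ^ p) 1 + sm S (fun s => k s ^ p) := by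
      unfold sm; rw [sum_insert ha]
    have e2 : sm (insert a S) k = single (k a) 1 + sm S k := by
      unfold sm; rw [sum_insert ha]
    rw [e1, e2, hr, hz, single_pow, one_pow]
    ring

lemma coeff_natCast_mul (p : ℕ) (y : MonoidAlgebra ℤ G) (g : G) :
    ((p : MonoidAlgebra ℤ G) * y).coeff g = p * y.coeff g := by
  rw [← nsmul_eq_mul]
  rw [coeff_smul_apply]
  simp

lemma coeff_intCast_mul (p : ℤ) (y : MonoidAlgebra ℤ G) (g : G) :
    ((p : MonoidAlgebra ℤ G) * y).coeff g = p * y.coeff g := by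
  rw [← zsmul_eq_mul]
  rw [coeff_smul_apply]
  simp

/-! ### Counting -/

variable {A : Type} [CommGroup A] [Fintype A] [DecidableEq A] {n : ℕ} {e : A} {D : Finset (A × A)}

lemma pow_bij {m : ℕ} (hm : (Nat.card A).Coprime m) : Function.Bijective (fun a : A => a ^ m) :=
  (powCoprime hm).bijective

lemma cnt2 (h : NDS n e D) {m : ℕ} (hm : (Nat.card A).Coprime m) (v : A) :
    #{d ∈ D | d.2 ^ m = v} = if v = 1 then 0 else 1 := by
  obtain ⟨w, rfl⟩ := (pow_bij hm).2 v
  have e1 : ∀ d : A × A, d.2 ^ m = w ^ m ↔ d.2 = w := fun d => (pow_bij hm).1.eq_iff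
  have e2 : (fun a : A => a ^ m) w = 1 ↔ w = 1 := by
    have := (pow_bij hm).1.eq_iff (a := w) (b := 1)
    simpa using this
  simp only [e1, e2]
  split_ifs with hw
  · subst hw
    rw [card_eq_zero, filter_eq_empty_iff]
    rintro ⟨x, y⟩ hd rfl
    exact h.col1 x hd
  · obtain ⟨x, hx, hu⟩ := h.col w hw
    rw [card_eq_one]
    refine ⟨(x, w), ?_⟩
    ext ⟨x', y'⟩
    simp only [mem_filter, mem_singleton, Prod.mk.injEq]
    constructor
    · rintro ⟨h1, rfl⟩
      exact ⟨hu x' h1, rfl⟩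
    · rintro ⟨rfl, rfl⟩
      exact ⟨hx, rfl⟩

lemma cnt1 (h : NDS n e D) {m : ℕ} (hm : (Nat.card A).Coprime m) (v : A) :
    #{d ∈ D | d.1 ^ m = v} = if v = 1 then 0 else 1 := by
  obtain ⟨w, rfl⟩ := (pow_bij hm).2 v
  have e1 : ∀ d : A × A, d.1 ^ m = w ^ m ↔ d.1 = w := fun d => (pow_bij hm).1.eq_iff
  have e2 : (fun a : A => a ^ m) w = 1 ↔ w = 1 := by
    have := (pow_bij hm).1.eq_iff (a := w) (b := 1)
    simpa using this
  simp only [e1, e2]
  split_ifs with hw
  · subst hw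
    rw [card_eq_zero, filter_eq_empty_iff]
    rintro ⟨x, y⟩ hd rfl
    exact h.row1 y hd
  · obtain ⟨x, hx, hu⟩ := h.row w hw
    rw [card_eq_one]
    refine ⟨(w, x), ?_⟩
    ext ⟨x', y'⟩
    simp only [mem_filter, mem_singleton, Prod.mk.injEq]
    constructor
    · rintro ⟨h1, rfl⟩
      exact ⟨rfl, hu y' h1⟩
    · rintro ⟨rfl, rfl⟩
      exact ⟨hx, rfl⟩

lemma cnt3 (h : NDS n e D) {m : ℕ} (hm : (Nat.card A).Coprime m) (v : A) :
    #{d ∈ D | d.2 ^ m = d.1 ^ m * v} = if v = e ^ m then 0 else 1 := by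
  obtain ⟨w, rfl⟩ := (pow_bij hm).2 v
  have e1 : ∀ d : A × A, d.2 ^ m = d.1 ^ m * w ^ m ↔ d.2 = d.1 * w := fun d => by
    rw [← mul_pow]; exact (pow_bij hm).1.eq_iff
  have e2 : (fun a : A => a ^ m) w = e ^ m ↔ w = e := (pow_bij hm).1.eq_iff
  simp only [e1, e2]
  split_ifs with hw
  · subst hw
    rw [card_eq_zero, filter_eq_empty_iff]
    rintro ⟨x, y⟩ hd hy
    simp only at hy
    subst hy
    exact h.diag1 x hd
  · obtain ⟨x, hx, hu⟩ := h.diag w hw
    rw [card_eq_one]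
    refine ⟨(x, x * w), ?_⟩
    ext ⟨x', y'⟩
    simp only [mem_filter, mem_singleton, Prod.mk.injEq]
    constructor
    · rintro ⟨h1, rfl⟩
      have := hu x' h1
      subst this
      exact ⟨rfl, rfl⟩
    · rintro ⟨rfl, rfl⟩
      exact ⟨hx, rfl⟩

lemma card_D (h : NDS n e D) : #D + 2 = n := by
  have h1 : #D = ∑ v : A, #{d ∈ D | d.1 = v} :=
    card_eq_sum_card_fiberwise (fun _ _ => mem_univ _)
  have h2 : ∀ v : A, #{d ∈ D | d.1 = v} = if v = 1 then 0 else 1 := fun v => by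
    have := cnt1 h (m := 1) (Nat.coprime_one_right _) v
    simpa using this
  rw [sum_congr rfl fun v _ => h2 v] at h1
  have h3 : ∑ v : A, (if v = 1 then 0 else 1) + 1 = Fintype.card A := by
    rw [← Finset.card_univ, ← card_erase_add_one (mem_univ (1 : A))]
    congr 1
    rw [card_eq_sum_ones, sum_ite, sum_const_zero, zero_add]
    congr 1
    ext v
    simp
  have h4 := h.card
  rw [Nat.card_eq_fintype_card] at h4
  omega

/-- `A × 1` -/
noncomputable def H1 (A : Type) [CommGroup A] [Fintype A] : MonoidAlgebra ℤ (A × A) :=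
  sm (univ : Finset A) (fun a => (a, 1))
/-- `1 × A` -/
noncomputable def H2 (A : Type) [CommGroup A] [Fintype A] : MonoidAlgebra ℤ (A × A) :=
  sm (univ : Finset A) (fun a => (1, a))
/-- the twisted diagonal -/
noncomputable def Dl (c : A) : MonoidAlgebra ℤ (A × A) :=
  sm (univ : Finset A) (fun a => (a, a * c))
/-- the whole group -/
noncomputable def GA (A : Type) [CommGroup A] [Fintype A] : MonoidAlgebra ℤ (A × A) :=
  sm (univ : Finset (A × A)) (fun a => a)

lemma coeff_H1 (g : A × A) : (H1 A).coeff g = if g.2 = 1 then 1 else 0 := by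
  unfold H1
  rw [coeff_sm]
  split_ifs with hg
  · have : ({s ∈ (univ : Finset A) | (s, (1 : A)) = g} : Finset A) = {g.1} := by
      ext a
      simp only [mem_filter, mem_univ, true_and, mem_singleton, Prod.ext_iff]
      exact ⟨fun h => h.1, fun h => ⟨h, hg.symm⟩⟩
    rw [this]; simp
  · have : ({s ∈ (univ : Finset A) | (s, (1 : A)) = g} : Finset A) = ∅ := by
      rw [filter_eq_empty_iff]
      rintro a - rfl
      exact hg rfl
    rw [this]; simp

lemma coeff_H2 (g : A × A) : (H2 A).coeff g = if g.1 = 1 then 1 else 0 := by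
  unfold H2
  rw [coeff_sm]
  split_ifs with hg
  · have : ({s ∈ (univ : Finset A) | ((1 : A), s) = g} : Finset A) = {g.2} := by
      ext a
      simp only [mem_filter, mem_univ, true_and, mem_singleton, Prod.ext_iff]
      exact ⟨fun h => h.2, fun h => ⟨hg.symm, h⟩⟩
    rw [this]; simp
  · have : ({s ∈ (univ : Finset A) | ((1 : A), s) = g} : Finset A) = ∅ := by
      rw [filter_eq_empty_iff]
      rintro a - rfl
      exact hg rfl
    rw [this]; simp

lemma coeff_Dl (c : A) (g : A × A) : (Dl c).coeff g = if g.2 = g.1 * c then 1 else 0 := by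
  unfold Dl
  rw [coeff_sm]
  split_ifs with hg
  · have : ({s ∈ (univ : Finset A) | (s, s * c) = g} : Finset A) = {g.1} := by
      ext a
      simp only [mem_filter, mem_univ, true_and, mem_singleton, Prod.ext_iff]
      exact ⟨fun h => h.1, fun h => ⟨h, by rw [h, hg]⟩⟩
    rw [this]; simp
  · have : ({s ∈ (univ : Finset A) | (s, s * c) = g} : Finset A) = ∅ := by
      rw [filter_eq_empty_iff]
      rintro a - rfl
      exact hg rfl
    rw [this]; simp

lemma coeff_GA (g : A × A) : (GA A).coeff g = 1 := by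
  unfold GA
  rw [coeff_sm]
  have : ({s ∈ (univ : Finset (A × A)) | s = g} : Finset (A × A)) = {g} := by
    ext a; simp
  rw [this]; simp

lemma sm_GA {ι : Type} (S : Finset ι) (k : ι → A × A) :
    sm S k * GA A = ((#S : ℤ) : MonoidAlgebra ℤ (A × A)) * GA A := by
  refine ext' fun g => ?_
  rw [coeff_sm_mul, coeff_intCast_mul]
  simp [coeff_GA]

lemma D_H1 (h : NDS n e D) {m : ℕ} (hm : (Nat.card A).Coprime m) :
    sm D (fun d => d ^ m) * H1 A = GA A - H1 A := by
  refine ext' fun g => ?_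
  rw [coeff_sm_mul, coeff_sub, Finsupp.sub_apply, coeff_GA, coeff_H1]
  simp only [coeff_H1]
  rw [← sum_filter, sum_const, nsmul_eq_mul, mul_one]
  have e1 : ({d ∈ D | ((d ^ m)⁻¹ * g).2 = 1} : Finset (A × A)) = {d ∈ D | d.2 ^ m = g.2} := by
    ext d
    simp only [mem_filter, Prod.snd_mul, Prod.snd_inv, Prod.pow_snd, inv_mul_eq_one]
  rw [e1, cnt2 h hm]
  split_ifs <;> simp

lemma D_H2 (h : NDS n e D) {m : ℕ} (hm : (Nat.card A).Coprime m) :
    sm D (fun d => d ^ m) * H2 A = GA A - H2 A := by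
  refine ext' fun g => ?_
  rw [coeff_sm_mul, coeff_sub, Finsupp.sub_apply, coeff_GA, coeff_H2]
  simp only [coeff_H2]
  rw [← sum_filter, sum_const, nsmul_eq_mul, mul_one]
  have e1 : ({d ∈ D | ((d ^ m)⁻¹ * g).1 = 1} : Finset (A × A)) = {d ∈ D | d.1 ^ m = g.1} := by
    ext d
    simp only [mem_filter, Prod.fst_mul, Prod.fst_inv, Prod.pow_fst, inv_mul_eq_one]
  rw [e1, cnt1 h hm]
  split_ifs <;> simp

lemma D_Dl (h : NDS n e D) {m : ℕ} (hm : (Nat.card A).Coprime m) (c : A) :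
    sm D (fun d => d ^ m) * Dl c = GA A - Dl (e ^ m * c) := by
  refine ext' fun g => ?_
  rw [coeff_sm_mul, coeff_sub, Finsupp.sub_apply, coeff_GA, coeff_Dl]
  simp only [coeff_Dl]
  rw [← sum_filter, sum_const, nsmul_eq_mul, mul_one]
  have e1 : ({d ∈ D | ((d ^ m)⁻¹ * g).2 = ((d ^ m)⁻¹ * g).1 * c} : Finset (A × A)) =
      {d ∈ D | d.2 ^ m = d.1 ^ m * (g.2 * g.1⁻¹ * c⁻¹)} := by
    ext d
    simp only [mem_filter, Prod.snd_mul, Prod.snd_inv, Prod.pow_snd, Prod.fst_mul, Prod.fst_inv,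
      Prod.pow_fst]
    refine and_congr_right fun _ => ?_
    have e3 : d.1 ^ m * (g.2 * g.1⁻¹ * c⁻¹) = g.2 * ((d.1 ^ m)⁻¹ * g.1 * c)⁻¹ := by
      simp only [mul_inv, inv_inv]
      rw [mul_comm (d.1 ^ m), mul_assoc, mul_assoc, mul_assoc, mul_comm (c⁻¹) (d.1 ^ m),
        mul_left_comm (g.1⁻¹) (d.1 ^ m)]
    rw [e3, inv_mul_eq_iff_eq_mul, eq_mul_inv_iff_mul_eq, eq_comm]
  rw [e1, cnt3 h hm]
  have e2 : g.2 * g.1⁻¹ * c⁻¹ = e ^ m ↔ g.2 = g.1 * (e ^ m * c) := by
    rw [mul_inv_eq_iff_eq_mul, mul_inv_eq_iff_eq_mul, mul_comm g.1]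
  simp only [e2]
  split_ifs <;> simp

lemma D_T (h : NDS n e D) {m : ℕ} (hm : (Nat.card A).Coprime m) (c : A) :
    sm D (fun d => d ^ m) * (H1 A + H2 A + Dl c) = 3 * GA A - (H1 A + H2 A + Dl (e ^ m * c)) := by
  rw [mul_add, mul_add, D_H1 h hm, D_H2 h hm, D_Dl h hm]
  ring

lemma D'_D (h : NDS n e D) : sm D (fun d => d⁻¹) * sm D (fun d => d) =
    (n : MonoidAlgebra ℤ (A × A)) + (GA A - (H1 A + H2 A + Dl 1)) := by
  have hinj1 : ∀ d ∈ D, ∀ d' ∈ D, d.1 = d'.1 → d = d' := by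
    intro d hd d' hd' h1
    have hne : d.1 ≠ 1 := fun h2 => h.row1 d.2 (by rw [← h2]; exact hd)
    obtain ⟨y, _, hu⟩ := h.row d.1 hne
    have e1 := hu d.2 hd
    have e2 := hu d'.2 (by rw [h1]; exact hd')
    exact Prod.ext h1 (e1.trans e2.symm)
  have hinj2 : ∀ d ∈ D, ∀ d' ∈ D, d.2 = d'.2 → d = d' := by
    intro d hd d' hd' h1
    have hne : d.2 ≠ 1 := fun h2 => h.col1 d.1 (by rw [← h2]; exact hd)
    obtain ⟨y, _, hu⟩ := h.col d.2 hne
    have e1 := hu d.1 hd
    have e2 := hu d'.1 (by rw [h1]; exact hd')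
    exact Prod.ext (e1.trans e2.symm) h1
  have hinj3 : ∀ d ∈ D, ∀ d' ∈ D, ∀ g : A × A, g.2 = g.1 → g * d = d' → d = d' := by
    intro d hd d' hd' g hg h1
    set c := d.1⁻¹ * d.2 with hc
    have hd2 : d.2 = d.1 * c := by rw [hc]; group
    have hd2' : d'.2 = d'.1 * c := by
      rw [← h1]
      simp only [Prod.snd_mul, Prod.fst_mul]
      rw [hg, hd2, mul_assoc]
    have hne : c ≠ e := fun h2 => h.diag1 d.1 (by rw [← h2, ← hd2]; exact hd)
    obtain ⟨y, _, hu⟩ := h.diag c hne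
    have e1 := hu d.1 (show (d.1, d.1 * c) ∈ D by rw [← hd2]; exact hd)
    have e2 := hu d'.1 (show (d'.1, d'.1 * c) ∈ D by rw [← hd2']; exact hd')
    have e3 : d.1 = d'.1 := e1.trans e2.symm
    exact hinj1 d hd d' hd' e3
  refine ext' fun g => ?_
  rw [coeff_sm_mul]
  have hLHS : ∑ s ∈ D, (sm D (fun d => d)).coeff ((s⁻¹)⁻¹ * g) = (#{s ∈ D | g * s ∈ D} : ℤ) := by
    rw [card_filter]
    push_cast
    refine sum_congr rfl fun s _ => ?_
    rw [coeff_sm, inv_inv]
    split_ifs with hs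
    · have : ({s_1 ∈ D | s_1 = s * g} : Finset (A × A)) = {s * g} := by
        ext t
        simp only [mem_filter, mem_singleton]
        exact ⟨fun h => h.2, fun h => ⟨by rw [h, mul_comm]; exact hs, h⟩⟩
      rw [this]; simp
    · have : ({s_1 ∈ D | s_1 = s * g} : Finset (A × A)) = ∅ := by
        rw [filter_eq_empty_iff]
        rintro t ht rfl
        exact hs (by rw [mul_comm]; exact ht)
      rw [this]; simp
  rw [hLHS, coeff_add, Finsupp.add_apply, coeff_sub, Finsupp.sub_apply, coeff_GA, coeff_add,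
    Finsupp.add_apply, coeff_add, Finsupp.add_apply, coeff_H1, coeff_H2, coeff_Dl, mul_one]
  have hn1 : (n : MonoidAlgebra ℤ (A × A)).coeff g = if g = 1 then (n : ℤ) else 0 := by
    have : (n : MonoidAlgebra ℤ (A × A)) = (n : MonoidAlgebra ℤ (A × A)) * 1 := by rw [mul_one]
    rw [this, coeff_natCast_mul, one_def, coeff_single, Finsupp.single_apply]
    by_cases hg : g = 1
    · subst hg; simp
    · rw [if_neg (fun h => hg h.symm), if_neg hg]; simp
  rw [hn1]
  have hDn := card_D h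
  by_cases hg : g = 1
  · subst hg
    have : ({s ∈ D | 1 * s ∈ D} : Finset (A × A)) = D := by
      ext s; simp
    rw [this]
    simp
    omega
  · rw [if_neg hg, zero_add]
    by_cases hg1 : g.1 = 1
    · have h0 : ({s ∈ D | g * s ∈ D} : Finset (A × A)) = ∅ := by
        rw [filter_eq_empty_iff]
        intro s hs hs'
        have := hinj1 _ hs' _ hs (by simp [hg1])
        exact hg (by simpa using this)
      have hg2 : g.2 ≠ 1 := fun h2 => hg (Prod.ext hg1 h2)
      rw [h0, if_neg hg2, if_pos hg1, if_neg (by rw [hg1]; exact hg2)]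
      simp
    by_cases hg2 : g.2 = 1
    · have h0 : ({s ∈ D | g * s ∈ D} : Finset (A × A)) = ∅ := by
        rw [filter_eq_empty_iff]
        intro s hs hs'
        have := hinj2 _ hs' _ hs (by simp [hg2])
        exact hg (by simpa using this)
      rw [h0, if_pos hg2, if_neg hg1, if_neg (by rw [hg2]; exact fun h => hg1 h.symm)]
      simp
    by_cases hg3 : g.2 = g.1
    · have h0 : ({s ∈ D | g * s ∈ D} : Finset (A × A)) = ∅ := by
        rw [filter_eq_empty_iff]
        intro s hs hs'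
        have := hinj3 _ hs _ hs' g hg3 rfl
        exact hg (by simpa using this)
      rw [h0, if_neg hg2, if_neg hg1, if_pos hg3]
      simp
    · rw [if_neg hg2, if_neg hg1, if_neg hg3]
      obtain ⟨⟨s1, s2⟩, ⟨hs1, hs2, hs3⟩, hu⟩ := h.quot g.1 g.2 hg1 hg2 (fun h => hg3 h.symm)
      have h0 : ({s ∈ D | g * s ∈ D} : Finset (A × A)) = {s2} := by
        ext t
        simp only [mem_filter, mem_singleton]
        constructor
        · rintro ⟨ht, ht'⟩
          have := hu (g * t, t) ⟨ht', ht, rfl⟩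
          simp only [Prod.mk.injEq] at this
          exact this.2
        · rintro rfl
          refine ⟨hs2, ?_⟩
          have : g * t = s1 := (show s1 = g * t from hs3).symm
          rw [this]; exact hs1
      rw [h0]; simp

lemma D'_H1 (h : NDS n e D) : sm D (fun d => d⁻¹) * H1 A = GA A - H1 A := by
  refine ext' fun g => ?_
  rw [coeff_sm_mul, coeff_sub, Finsupp.sub_apply, coeff_GA, coeff_H1]
  simp only [coeff_H1]
  rw [← sum_filter, sum_const, nsmul_eq_mul, mul_one]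
  have e1 : ({d ∈ D | ((d⁻¹)⁻¹ * g).2 = 1} : Finset (A × A)) = {d ∈ D | d.2 ^ 1 = g.2⁻¹} := by
    ext d
    simp only [mem_filter, Prod.snd_mul, inv_inv, pow_one, mul_eq_one_iff_eq_inv]
  rw [e1, cnt2 h (Nat.coprime_one_right _)]
  simp only [inv_eq_one]
  split_ifs <;> simp

lemma D'_H2 (h : NDS n e D) : sm D (fun d => d⁻¹) * H2 A = GA A - H2 A := by
  refine ext' fun g => ?_
  rw [coeff_sm_mul, coeff_sub, Finsupp.sub_apply, coeff_GA, coeff_H2]
  simp only [coeff_H2]
  rw [← sum_filter, sum_const, nsmul_eq_mul, mul_one]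
  have e1 : ({d ∈ D | ((d⁻¹)⁻¹ * g).1 = 1} : Finset (A × A)) = {d ∈ D | d.1 ^ 1 = g.1⁻¹} := by
    ext d
    simp only [mem_filter, Prod.fst_mul, inv_inv, pow_one, mul_eq_one_iff_eq_inv]
  rw [e1, cnt1 h (Nat.coprime_one_right _)]
  simp only [inv_eq_one]
  split_ifs <;> simp

lemma H1_GA : H1 A * GA A = ((Fintype.card A : ℤ) : MonoidAlgebra ℤ (A × A)) * GA A := by
  unfold H1; rw [sm_GA, Finset.card_univ]

lemma H2_GA : H2 A * GA A = ((Fintype.card A : ℤ) : MonoidAlgebra ℤ (A × A)) * GA A := by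
  unfold H2; rw [sm_GA, Finset.card_univ]

lemma H1_H1 : H1 A * H1 A = ((Fintype.card A : ℤ) : MonoidAlgebra ℤ (A × A)) * H1 A := by
  refine ext' fun g => ?_
  rw [coeff_intCast_mul, coeff_H1]
  have : H1 A * H1 A = sm (univ : Finset A) (fun a => (a, 1)) * H1 A := rfl
  rw [this, coeff_sm_mul]
  simp [coeff_H1]

lemma H2_H2 : H2 A * H2 A = ((Fintype.card A : ℤ) : MonoidAlgebra ℤ (A × A)) * H2 A := by
  refine ext' fun g => ?_
  rw [coeff_intCast_mul, coeff_H2]
  have : H2 A * H2 A = sm (univ : Finset A) (fun a => (1, a)) * H2 A := rfl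
  rw [this, coeff_sm_mul]
  simp [coeff_H2]

lemma H1_H2 : H1 A * H2 A = GA A := by
  refine ext' fun g => ?_
  rw [coeff_GA, H1, coeff_sm_mul]
  simp only [coeff_H2, Prod.fst_mul, Prod.fst_inv, inv_mul_eq_one]
  simp

lemma H1_Dl (c : A) : H1 A * Dl c = GA A := by
  refine ext' fun g => ?_
  rw [coeff_GA, H1, coeff_sm_mul]
  simp only [coeff_Dl, Prod.fst_mul, Prod.fst_inv, Prod.snd_mul, Prod.snd_inv, inv_one, one_mul]
  have : ∀ a : A, g.2 = a⁻¹ * g.1 * c ↔ a = g.1 * c * g.2⁻¹ := by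
    intro a
    rw [mul_assoc, eq_inv_mul_iff_mul_eq, eq_mul_inv_iff_mul_eq]
  simp [this]

lemma H2_Dl (c : A) : H2 A * Dl c = GA A := by
  refine ext' fun g => ?_
  rw [coeff_GA, H2, coeff_sm_mul]
  simp only [coeff_Dl, Prod.fst_mul, Prod.fst_inv, Prod.snd_mul, Prod.snd_inv, inv_one, one_mul]
  have : ∀ a : A, a⁻¹ * g.2 = g.1 * c ↔ a = g.2 * (g.1 * c)⁻¹ := by
    intro a
    rw [inv_mul_eq_iff_eq_mul, eq_mul_inv_iff_mul_eq, eq_comm]
  simp [this]

lemma coprime_p (h : NDS n e D) {p : ℕ} (hp : p.Prime) (hpn : p ∣ n) :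
    (Nat.card A).Coprime p := by
  rw [Nat.coprime_comm, Nat.Prime.coprime_iff_not_dvd hp]
  intro h1
  have h2 := h.card
  have : p ∣ 1 := by
    rw [← h2] at hpn
    exact (Nat.dvd_add_right h1).1 hpn
  exact hp.one_lt.ne' (Nat.dvd_one.1 this)

lemma pow_T (h : NDS n e D) {p : ℕ} (hpn : p ∣ n) (m : ℕ) :
    ∃ a : ℤ, (sm D (fun d => d)) ^ m * (GA A - (H1 A + H2 A + Dl 1)) =
      (a : MonoidAlgebra ℤ (A × A)) * GA A +
        (-1) ^ (m + 1) * (H1 A + H2 A + Dl (e ^ m)) ∧
      (p : ℤ) ∣ a - (4 * (-2) ^ m - 3 * (-1) ^ m) := by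
  have hD1 : sm D (fun d => d) = sm D (fun d => d ^ 1) := by simp
  have hc1 : (Nat.card A).Coprime 1 := Nat.coprime_one_right _
  induction m with
  | zero =>
    refine ⟨1, ?_, by norm_num⟩
    simp only [pow_zero, one_mul, zero_add, pow_one, Int.cast_one]
    ring
  | succ m ih =>
    obtain ⟨a, ha, hd⟩ := ih
    refine ⟨a * #D + 3 * (-1) ^ (m + 1), ?_, ?_⟩
    · rw [pow_succ', mul_assoc, ha, mul_add, mul_left_comm, sm_GA, mul_left_comm _ ((-1) ^ (m + 1))]
      have h3 : sm D (fun d => d) * (H1 A + H2 A + Dl (e ^ m)) =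
          3 * GA A - (H1 A + H2 A + Dl (e ^ (m + 1))) := by
        rw [hD1, D_T h hc1, pow_one, ← pow_succ']
      rw [h3]
      push_cast
      ring
    · obtain ⟨n', rfl⟩ := hpn
      obtain ⟨c, hc⟩ := hd
      have hDn := card_D h
      have hDz : (#D : ℤ) = p * n' - 2 := by
        have : ((#D + 2 : ℕ) : ℤ) = ((p * n' : ℕ) : ℤ) := by rw [hDn]
        push_cast at this
        linarith
      refine ⟨a * n' - 2 * c, ?_⟩
      have ha' : a = p * c + (4 * (-2) ^ m - 3 * (-1) ^ m) := by linarith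
      rw [hDz, ha', pow_succ, pow_succ]
      ring

lemma dvd_a {p : ℕ} (hp : p.Prime) {a : ℤ}
    (ha : (p : ℤ) ∣ a - (4 * (-2) ^ (p - 1) - 3 * (-1) ^ (p - 1))) :
    (p : ℤ) ∣ a - 1 ∧ (p : ℤ) ∣ (-1) ^ p + 1 := by
  rcases hp.eq_two_or_odd' with rfl | hodd
  · constructor
    · norm_num at ha
      omega
    · norm_num
  · have h1 : ((-1 : ℤ)) ^ (p - 1) = 1 := by
      have : Even (p - 1) := by
        obtain ⟨k, hk⟩ := hodd
        exact ⟨k, by omega⟩
      exact this.neg_one_pow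
    have h2 : ((-1 : ℤ)) ^ p = -1 := hodd.neg_one_pow
    have h3 : (-2 : ℤ) ^ (p - 1) ≡ 1 [ZMOD p] := by
      refine Int.ModEq.pow_card_sub_one_eq_one hp ?_
      have : IsCoprime (2 : ℤ) p := by
        rw [Int.isCoprime_iff_gcd_eq_one]
        have : Nat.Coprime 2 p := by
          rw [Nat.coprime_two_left]
          exact hodd
        exact_mod_cast this
      exact this.neg_left
    constructor
    · have h4 : (p : ℤ) ∣ (-2) ^ (p - 1) - 1 := by
        have := h3.symm.dvd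
        exact this
      rw [h1] at ha
      have : a - 1 = (a - (4 * (-2) ^ (p - 1) - 3 * 1)) + 4 * ((-2) ^ (p - 1) - 1) := by ring
      rw [this]
      exact dvd_add ha (Dvd.dvd.mul_left h4 _)
    · rw [h2]; simp

theorem main (h : NDS n e D) {p : ℕ} (hp : p.Prime) (hpn : p ∣ n) :
    sm D (fun d => d ^ p) = sm D (fun d => d) := by
  set R := MonoidAlgebra ℤ (A × A) with hR
  have hcop := coprime_p h hp hpn
  have hc1 : (Nat.card A).Coprime 1 := Nat.coprime_one_right _
  have hDn := card_D h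
  have hcardA : (Fintype.card A : ℤ) = n - 1 := by
    have := h.card
    rw [Nat.card_eq_fintype_card] at this
    have h2 : ((Fintype.card A + 1 : ℕ) : ℤ) = n := by rw [this]
    push_cast at h2
    linarith
  have hDz : (#D : ℤ) = n - 2 := by
    have : ((#D + 2 : ℕ) : ℤ) = n := by rw [hDn]
    push_cast at this
    linarith
  obtain ⟨a, ha, had⟩ := pow_T h (m := p - 1) hpn
  obtain ⟨⟨c', hc'⟩, ⟨c'', hc''⟩⟩ := dvd_a hp had
  obtain ⟨z, hz⟩ := frob D (fun d : A × A => d) hp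
  obtain ⟨n', hn'⟩ := id hpn
  have hp1 : p - 1 + 1 = p := Nat.sub_add_cancel hp.one_lt.le
  rw [hp1] at ha
  set e' := e ^ (p - 1) with he'
  set D1 : R := sm D (fun d => d) with hD1
  set Dp : R := sm D (fun d => d ^ p) with hDp
  set D' : R := sm D (fun d => d⁻¹) with hD'
  set T' : R := GA A - (H1 A + H2 A + Dl e') with hT'
  have hD'D : D' * D1 = (n : R) + (GA A - (H1 A + H2 A + Dl 1)) := D'_D h
  -- the congruence
  obtain ⟨S, hS⟩ : ∃ S : R, Dp * D' = T' + (p : R) * S := by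
    refine ⟨z * D' + (n' : R) * D1 ^ (p - 1) + (c' : R) * GA A +
      (c'' : R) * (H1 A + H2 A + Dl e'), ?_⟩
    have e1 : D1 ^ p * D' = D1 ^ (p - 1) * (D' * D1) := by
      conv_lhs => rw [← hp1, pow_succ]
      ring
    have e2 : (a : R) = (p : R) * (c' : R) + 1 := by
      have : a = p * c' + 1 := by linarith
      rw [this]; push_cast; ring
    have e3 : (-1 : R) ^ p = (p : R) * (c'' : R) - 1 := by
      have : (-1 : ℤ) ^ p = p * c'' - 1 := by linarith
      have h2 : (((-1 : ℤ) ^ p : ℤ) : R) = ((p * c'' - 1 : ℤ) : R) := by rw [this]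
      push_cast at h2
      exact h2
    have e4 : (n : R) = (p : R) * (n' : R) := by
      rw [hn']; push_cast; ring
    rw [hz, add_mul, e1, hD'D, mul_add, ha, e2, e3, e4, hT']
    ring
  -- coefficients
  have hSc : ∀ g, (Dp * D').coeff g = T'.coeff g + p * S.coeff g := by
    intro g
    rw [hS, coeff_add, Finsupp.add_apply, coeff_natCast_mul]
  have hFn : ∀ g, 0 ≤ (Dp * D').coeff g := by
    intro g
    rw [hDp, coeff_sm_mul]
    refine sum_nonneg fun d _ => ?_
    rw [hD', coeff_sm]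
    positivity
  have hTc : ∀ g, T'.coeff g = 1 - ((if g.2 = 1 then 1 else 0) + (if g.1 = 1 then 1 else 0) +
      (if g.2 = g.1 * e' then 1 else 0)) := by
    intro g
    rw [hT', coeff_sub, Finsupp.sub_apply, coeff_GA, coeff_add, Finsupp.add_apply, coeff_add,
      Finsupp.add_apply, coeff_H1, coeff_H2, coeff_Dl]
  have hp0 : (0 : ℤ) < p := by exact_mod_cast hp.pos
  have hp2 : (2 : ℤ) ≤ p := by exact_mod_cast hp.two_le
  have hSn : ∀ g, 0 ≤ S.coeff g := by
    intro g
    have h1 := hFn g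
    rw [hSc] at h1
    have h2 : T'.coeff g ≤ 1 := by
      rw [hTc]
      split_ifs <;> norm_num
    by_contra h3
    push Not at h3
    have h4 : S.coeff g ≤ -1 := by omega
    nlinarith
  -- multiplication by `H1` and `H2`
  have hF1 : Dp * D' * H1 A = ((n - 3 : ℤ) : R) * GA A + H1 A := by
    rw [mul_assoc, D'_H1 h, mul_sub, hDp, sm_GA, D_H1 h hcop, hDz]
    push_cast
    ring
  have hF2 : Dp * D' * H2 A = ((n - 3 : ℤ) : R) * GA A + H2 A := by
    rw [mul_assoc, D'_H2 h, mul_sub, hDp, sm_GA, D_H2 h hcop, hDz]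
    push_cast
    ring
  have hT1 : T' * H1 A = ((n - 3 : ℤ) : R) * GA A - ((n - 1 : ℤ) : R) * H1 A := by
    have : T' * H1 A = H1 A * GA A - H1 A * H1 A - H1 A * H2 A - H1 A * Dl e' := by
      rw [hT']; ring
    rw [this, H1_GA, H1_H1, H1_H2, H1_Dl, hcardA]
    push_cast
    ring
  have hT2 : T' * H2 A = ((n - 3 : ℤ) : R) * GA A - ((n - 1 : ℤ) : R) * H2 A := by
    have : T' * H2 A = H2 A * GA A - H2 A * H2 A - H1 A * H2 A - H2 A * Dl e' := by
      rw [hT']; ring
    rw [this, H2_GA, H2_H2, H1_H2, H2_Dl, hcardA]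
    push_cast
    ring
  have hS1 : (p : R) * (H1 A * S) = (n : R) * H1 A := by
    have h1 : Dp * D' * H1 A = T' * H1 A + (p : R) * (H1 A * S) := by rw [hS]; ring
    rw [hF1, hT1] at h1
    have h2 : (p : R) * (H1 A * S) = ((n - 3 : ℤ) : R) * GA A + H1 A -
        (((n - 3 : ℤ) : R) * GA A - ((n - 1 : ℤ) : R) * H1 A) := by rw [h1]; ring
    rw [h2]
    push_cast
    ring
  have hS2 : (p : R) * (H2 A * S) = (n : R) * H2 A := by
    have h1 : Dp * D' * H2 A = T' * H2 A + (p : R) * (H2 A * S) := by rw [hS]; ring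
    rw [hF2, hT2] at h1
    have h2 : (p : R) * (H2 A * S) = ((n - 3 : ℤ) : R) * GA A + H2 A -
        (((n - 3 : ℤ) : R) * GA A - ((n - 1 : ℤ) : R) * H2 A) := by rw [h1]; ring
    rw [h2]
    push_cast
    ring
  have hS1c : ∀ g : A × A, (p : ℤ) * ∑ x : A, S.coeff ((x, 1)⁻¹ * g) =
      n * if g.2 = 1 then 1 else 0 := by
    intro g
    have h1 : ((p : R) * (H1 A * S)).coeff g = ((n : R) * H1 A).coeff g := by rw [hS1]
    rw [coeff_natCast_mul, coeff_natCast_mul, coeff_H1, H1, coeff_sm_mul] at h1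
    exact h1
  have hS2c : ∀ g : A × A, (p : ℤ) * ∑ x : A, S.coeff ((1, x)⁻¹ * g) =
      n * if g.1 = 1 then 1 else 0 := by
    intro g
    have h1 : ((p : R) * (H2 A * S)).coeff g = ((n : R) * H2 A).coeff g := by rw [hS2]
    rw [coeff_natCast_mul, coeff_natCast_mul, coeff_H2, H2, coeff_sm_mul] at h1
    exact h1
  have hz1 : ∀ g : A × A, g.2 ≠ 1 → S.coeff g = 0 := by
    intro g hg
    have h1 := hS1c g
    rw [if_neg hg, mul_zero] at h1
    have h2 : ∑ x : A, S.coeff ((x, 1)⁻¹ * g) = 0 := by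
      rcases mul_eq_zero.1 h1 with h | h
      · omega
      · exact h
    have h3 := (sum_eq_zero_iff_of_nonneg (fun x _ => hSn _)).1 h2 1 (mem_univ _)
    have h4 : ((1 : A), (1 : A))⁻¹ * g = g := by
      have : ((1 : A), (1 : A)) = 1 := rfl
      rw [this, inv_one, one_mul]
    rwa [h4] at h3
  have hz2 : ∀ g : A × A, g.1 ≠ 1 → S.coeff g = 0 := by
    intro g hg
    have h1 := hS2c g
    rw [if_neg hg, mul_zero] at h1
    have h2 : ∑ x : A, S.coeff ((1, x)⁻¹ * g) = 0 := by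
      rcases mul_eq_zero.1 h1 with h | h
      · omega
      · exact h
    have h3 := (sum_eq_zero_iff_of_nonneg (fun x _ => hSn _)).1 h2 1 (mem_univ _)
    have h4 : ((1 : A), (1 : A))⁻¹ * g = g := by
      have : ((1 : A), (1 : A)) = 1 := rfl
      rw [this, inv_one, one_mul]
    rwa [h4] at h3
  have hone : (p : ℤ) * S.coeff 1 = n := by
    have h1 := hS1c 1
    rw [if_pos (show (1 : A × A).2 = 1 from rfl), mul_one] at h1
    rw [← h1]
    congr 1
    rw [sum_eq_single (1 : A)]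
    · have h5 : ((1 : A), (1 : A))⁻¹ * (1 : A × A) = 1 := by
        have : ((1 : A), (1 : A)) = 1 := rfl
        rw [this, inv_one, one_mul]
      rw [h5]
    · intro x _ hx
      refine hz2 _ ?_
      simpa using hx
    · simp
  -- the product
  have hF : ∀ g, (Dp * D').coeff g = T'.coeff g + if g = 1 then (n : ℤ) else 0 := by
    intro g
    rw [hSc]
    congr 1
    split_ifs with hg
    · rw [hg, hone]
    · by_cases h1 : g.1 = 1
      · have h2 : g.2 ≠ 1 := fun h2 => hg (Prod.ext h1 h2)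
        rw [hz1 g h2, mul_zero]
      · rw [hz2 g h1, mul_zero]
  have he1 : e' = 1 := by
    by_contra hne
    have h1 := hFn (e'⁻¹, 1)
    rw [hF, hTc] at h1
    have h2 : e'⁻¹ ≠ 1 := by simpa using hne
    have h3 : ((e'⁻¹, (1 : A)) : A × A) ≠ 1 := fun h => h2 (congrArg Prod.fst h)
    simp [h2, h3] at h1
  have hep : e ^ p = e := by
    rw [← hp1, pow_succ, ← he', he1, one_mul]
  have hFD : Dp * D' = (n : R) + (GA A - (H1 A + H2 A + Dl 1)) := by
    refine ext' fun g => ?_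
    rw [hF, hT', he1]
    have hn1 : (n : R).coeff g = if g = 1 then (n : ℤ) else 0 := by
      have : (n : R) = (n : R) * 1 := by rw [mul_one]
      rw [this, coeff_natCast_mul, one_def, coeff_single, Finsupp.single_apply]
      by_cases hg : g = 1
      · subst hg; simp
      · rw [if_neg (fun h => hg h.symm), if_neg hg]; simp
    rw [coeff_add, Finsupp.add_apply, hn1]
    ring
  have hfin : Dp * ((n : R) + (GA A - (H1 A + H2 A + Dl 1))) =
      D1 * ((n : R) + (GA A - (H1 A + H2 A + Dl 1))) := by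
    rw [← hD'D, ← mul_assoc, hFD, hD'D]
    ring
  have hDT : Dp * (GA A - (H1 A + H2 A + Dl 1)) = D1 * (GA A - (H1 A + H2 A + Dl 1)) := by
    have e1 : D1 = sm D (fun d => d ^ 1) := by rw [hD1]; simp
    rw [mul_sub, mul_sub, hDp, D_T h hcop, sm_GA, e1, D_T h hc1, sm_GA, hep, pow_one]
  rw [mul_add, mul_add, hDT] at hfin
  have hfin2 : (n : R) * Dp = (n : R) * D1 := by
    have := add_right_cancel hfin
    rw [mul_comm (n : R), mul_comm (n : R)]
    exact this
  refine ext' fun g => ?_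
  have h1 : ((n : R) * Dp).coeff g = ((n : R) * D1).coeff g := by rw [hfin2]
  rw [coeff_natCast_mul, coeff_natCast_mul] at h1
  have hn0 : (n : ℤ) ≠ 0 := by
    have : 2 ≤ n := by omega
    omega
  exact mul_left_cancel₀ hn0 h1

end NM

theorem NDS.pow_mem {A : Type} [CommGroup A] {n : ℕ} {e : A} {D : Finset (A × A)}
    (h : NDS n e D) {p : ℕ} (hp : p.Prime) (hpn : p ∣ n) {x y : A} (hxy : (x, y) ∈ D) :
    (x ^ p, y ^ p) ∈ D := by
  classical
  have := h.fin
  have : Fintype A := Fintype.ofFinite A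
  have h1 := NM.main h hp hpn
  have h2 : (NM.sm D (fun d => d ^ p)).coeff ((x, y) ^ p) =
      (NM.sm D (fun d => d)).coeff ((x, y) ^ p) := by rw [h1]
  rw [NM.coeff_sm, NM.coeff_sm] at h2
  have h3 : 0 < #{s ∈ D | s ^ p = (x, y) ^ p} := card_pos.2 ⟨(x, y), by simp [hxy]⟩
  have h4 : 0 < #{s ∈ D | s = (x, y) ^ p} := by
    have : (#{s ∈ D | s ^ p = (x, y) ^ p} : ℤ) = #{s ∈ D | s = (x, y) ^ p} := h2
    omega
  obtain ⟨s, hs⟩ := card_pos.1 h4
  rw [mem_filter] at hs
  have h5 : ((x, y) ^ p : A × A) = (x ^ p, y ^ p) := rfl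
  rw [← h5, ← hs.2]
  exact hs.1

end Pool.Agent.PPC
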