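import Pool.Agent.PPC.Up
import Pool.Agent.PPC.Dn

/-!
# Module PPC/Part: from `f p log p / p` to `f p / p`

PROOFS. One-sided summation by parts: if `E n = 0`, `E k ≤ B` for all `k ≥ n` and `g` is nonincreasing and
nonnegative, then `∑_{k ∈ Ico n m} (E (k + 1) - E k) g k ≤ B g n` (induction as in
`Pool.Agent.Sv.abel_bound`).
* `sum_inv_le`: `E k = HH f (k - 1) - HH f z` for `k ≥ n = z + 1`, `g k = 1 / log k`. By `HH_le`
  and `-HH f z ≤ ∑_{p ≤ z} log p / p ≤ log z + log 4` (`Pool.Agent.Sv.A_le`):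
  `E k ≤ 8 log ⌈M⌉₊ + C + log z + log 4 ≤ 8 log (2 z) + log z + C'`, and `g n ≤ 1 / log z`.
  (`⌈M⌉₊ ≤ z` as `M ≤ z`.)
* `sum_inv_ge`: the same with `-f` in place of `f`: `-(HH f (k - 1) - HH f z) ≤ C₁ + 8 log ⌈M⌉₊ + C₂`
  is bounded by a constant depending on `f` and `M`, and `g n ≤ 1 / log 3 ≤ 1`.
-/

set_option autoImplicit false

namespace Pool.Agent.PPC

open Finset

theorem one_sided {E g : ℕ → ℝ} {B : ℝ} {n m : ℕ} (hE0 : E n = 0) (hE : ∀ k, n ≤ k → E k ≤ B)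
    (hg : ∀ k, n ≤ k → g (k + 1) ≤ g k) (hg0 : ∀ k, n ≤ k → 0 ≤ g k) (hnm : n ≤ m) :
    ∑ k ∈ Ico n m, (E (k + 1) - E k) * g k ≤ B * g n := by
  have key : ∑ k ∈ Ico n m, (E (k + 1) - E k) * g k - E m * g m ≤ B * (g n - g m) := by
    induction m, hnm using Nat.le_induction with
    | base => simp [hE0]
    | succ m hnm ih =>
      rw [Finset.sum_Ico_succ_top hnm]
      have h1 : ∑ k ∈ Ico n m, (E (k + 1) - E k) * g k + (E (m + 1) - E m) * g m -
          E (m + 1) * g (m + 1) =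
          (∑ k ∈ Ico n m, (E (k + 1) - E k) * g k - E m * g m) +
            E (m + 1) * (g m - g (m + 1)) := by ring
      rw [h1]
      have h2 : E (m + 1) * (g m - g (m + 1)) ≤ B * (g m - g (m + 1)) :=
        mul_le_mul_of_nonneg_right (hE _ (by omega)) (sub_nonneg.mpr (hg m hnm))
      linarith
  have h1 : E m * g m ≤ B * g m := mul_le_mul_of_nonneg_right (hE m hnm) (hg0 m hnm)
  linarith

/-- The sum over the primes below `n`. -/
noncomputable def HR (f : ℕ → ℝ) (n : ℕ) : ℝ :=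
  ∑ p ∈ (range n).filter Nat.Prime, f p * Real.log p / p

theorem HR_succ (f : ℕ → ℝ) (n : ℕ) :
    HR f (n + 1) = HR f n + if n.Prime then f n * Real.log n / n else 0 := by
  unfold HR
  rw [range_add_one, filter_insert]
  split_ifs with h
  · rw [sum_insert (by simp)]
    ring
  · ring

theorem HR_eq (f : ℕ → ℝ) (T : ℕ) : HR f (T + 1) = HH f T := by
  unfold HR HH
  refine Finset.sum_congr ?_ fun _ _ => rfl
  ext p
  simp only [mem_filter, mem_range, mem_Icc]
  constructor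
  · rintro ⟨h1, h2⟩
    exact ⟨⟨h2.one_lt.le, by omega⟩, h2⟩
  · rintro ⟨⟨h1, h2⟩, h3⟩
    exact ⟨by omega, h3⟩

theorem abs_HH_le {f : ℕ → ℝ} {M : ℝ} (h : Ch f M) {z : ℕ} (hz : 1 ≤ z) :
    -HH f z ≤ Real.log z + Real.log 4 := by
  refine le_trans ?_ (Pool.Agent.Sv.A_le z hz)
  rw [← HR_eq]
  unfold HR Pool.Agent.Sv.A
  rw [← Finset.sum_neg_distrib]
  refine Finset.sum_le_sum fun p hp => ?_
  rw [mem_filter] at hp
  have h1 : 0 ≤ Real.log p / p := by
    have := Real.log_natCast_nonneg p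
    positivity
  have h2 := h.abs_le p
  rw [abs_le] at h2
  have h3 : -(f p * Real.log p / p) = (-f p) * (Real.log p / p) := by ring
  rw [h3]
  have h4 : (-f p) * (Real.log p / p) ≤ 1 * (Real.log p / p) :=
    mul_le_mul_of_nonneg_right (by linarith [h2.1]) h1
  linarith

theorem sum_eq_Ico (f : ℕ → ℝ) (s : ℝ) {z w : ℕ} (hz : 3 ≤ z) :
    ∑ k ∈ Ico (z + 1) (w + 1), (s * (HR f (k + 1) - HR f (z + 1)) -
      s * (HR f k - HR f (z + 1))) * (1 / Real.log k) =
      s * ∑ p ∈ (Ioc z w).filter Nat.Prime, f p / p := by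
  have h1 : (Ioc z w).filter Nat.Prime = (Ico (z + 1) (w + 1)).filter Nat.Prime := by
    ext p
    simp only [mem_filter, mem_Ioc, mem_Ico]
    constructor
    · rintro ⟨⟨h1, h2⟩, h3⟩
      exact ⟨⟨by omega, by omega⟩, h3⟩
    · rintro ⟨⟨h1, h2⟩, h3⟩
      exact ⟨⟨by omega, by omega⟩, h3⟩
  rw [h1, Finset.sum_filter, Finset.mul_sum]
  refine Finset.sum_congr rfl fun k hk => ?_
  rw [mem_Ico] at hk
  rw [HR_succ]
  have hk1 : (1 : ℝ) < k := by
    have : 1 < k := by omega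
    exact_mod_cast this
  have hlog : Real.log k ≠ 0 := (Real.log_pos hk1).ne'
  split_ifs with hp
  · field_simp
    ring
  · ring

theorem log_three : (1 : ℝ) ≤ Real.log 3 := by
  have h := Real.exp_one_lt_d9
  rw [Real.le_log_iff_exp_le (by norm_num)]
  linarith

theorem g_anti {n : ℕ} (hn : 3 ≤ n) : ∀ k, n ≤ k →
    1 / Real.log ((k + 1 : ℕ) : ℝ) ≤ 1 / Real.log (k : ℝ) := by
  intro k hk
  have hk1 : (1 : ℝ) < k := by
    have : 1 < k := by omega
    exact_mod_cast this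
  refine one_div_le_one_div_of_le (Real.log_pos hk1) ?_
  refine Real.log_le_log (by linarith) ?_
  push_cast
  linarith

theorem sum_inv_le : ∃ C : ℝ, 0 < C ∧ ∀ (f : ℕ → ℝ) (M : ℝ), Ch f M → ∀ z w : ℕ, 3 ≤ z → M ≤ z →
    z ≤ w → ∑ p ∈ (Ioc z w).filter Nat.Prime, f p / p ≤ C := by
  obtain ⟨C, hC, hHH⟩ := HH_le
  have hlog4 : 0 ≤ Real.log 4 := Real.log_nonneg (by norm_num)
  refine ⟨9 + (C + Real.log 4), by linarith, ?_⟩
  intro f M h z w hz hMz hzw
  have hz1 : (1 : ℝ) < z := by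
    have : 1 < z := by omega
    exact_mod_cast this
  have hlz : 1 ≤ Real.log z := by
    refine log_three.trans (Real.log_le_log (by norm_num) ?_)
    exact_mod_cast hz
  have hceil : Real.log ⌈M⌉₊ ≤ Real.log z := by
    have h1 : ⌈M⌉₊ ≤ z := Nat.ceil_le.2 hMz
    have h2 : 1 ≤ ⌈M⌉₊ := Nat.one_le_iff_ne_zero.2 (by
      intro h0
      rw [Nat.ceil_eq_zero] at h0
      linarith [h.one_le])
    exact Real.log_le_log (by exact_mod_cast h2) (by exact_mod_cast h1)
  have key := one_sided (E := fun k => 1 * (HR f k - HR f (z + 1))) (g := fun k => 1 / Real.log k)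
    (B := 9 * Real.log z + (C + Real.log 4)) (n := z + 1) (m := w + 1) (by simp) ?_
    (g_anti (by omega)) ?_ (by omega)
  · have key' : 1 * ∑ p ∈ (Ioc z w).filter Nat.Prime, f p / p ≤
        (9 * Real.log z + (C + Real.log 4)) * (1 / Real.log ((z + 1 : ℕ) : ℝ)) := by
      rw [← sum_eq_Ico f 1 hz]
      exact key
    rw [one_mul] at key'
    refine key'.trans ?_
    have h1 : 1 / Real.log ((z + 1 : ℕ) : ℝ) ≤ 1 / Real.log z := g_anti (n := z) hz z le_rfl
    have h2 : 0 ≤ 9 * Real.log z + (C + Real.log 4) := by positivity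
    refine (mul_le_mul_of_nonneg_left h1 h2).trans ?_
    rw [mul_one_div, div_le_iff₀ (by linarith)]
    nlinarith
  · intro k hk
    obtain ⟨j, rfl⟩ : ∃ j, k = j + 1 := ⟨k - 1, by omega⟩
    show 1 * (HR f (j + 1) - HR f (z + 1)) ≤ _
    rw [one_mul, HR_eq, HR_eq]
    have h1 := hHH f M h j (by omega)
    have h2 := abs_HH_le h (show 1 ≤ z by omega)
    linarith
  · intro k hk
    have : 0 ≤ Real.log k := Real.log_natCast_nonneg k
    positivity

theorem sum_inv_ge {f : ℕ → ℝ} {M : ℝ} (h : Ch f M) : ∃ C : ℝ, 0 < C ∧ ∀ z w : ℕ, 3 ≤ z →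
    z ≤ w → -C ≤ ∑ p ∈ (Ioc z w).filter Nat.Prime, f p / p := by
  obtain ⟨C, hC, hHH⟩ := HH_le
  obtain ⟨C', hC', hHH'⟩ := HH_ge h
  have hceil : 0 ≤ Real.log ⌈M⌉₊ := Real.log_natCast_nonneg _
  refine ⟨C' + (8 * Real.log ⌈M⌉₊ + C), by positivity, ?_⟩
  intro z w hz hzw
  have key := one_sided (E := fun k => -1 * (HR f k - HR f (z + 1)))
    (g := fun k => 1 / Real.log k)
    (B := C' + (8 * Real.log ⌈M⌉₊ + C)) (n := z + 1) (m := w + 1) (by simp) ?_
    (g_anti (by omega)) ?_ (by omega)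
  · have key' : -1 * ∑ p ∈ (Ioc z w).filter Nat.Prime, f p / p ≤
        (C' + (8 * Real.log ⌈M⌉₊ + C)) * (1 / Real.log ((z + 1 : ℕ) : ℝ)) := by
      rw [← sum_eq_Ico f (-1) hz]
      exact key
    have h1 : 1 / Real.log ((z + 1 : ℕ) : ℝ) ≤ 1 := by
      have h3 : 1 ≤ Real.log ((z + 1 : ℕ) : ℝ) := by
        refine log_three.trans (Real.log_le_log (by norm_num) ?_)
        have : 3 ≤ z + 1 := by omega
        exact_mod_cast this
      rw [div_le_one (by linarith)]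
      exact h3
    have h2 : 0 ≤ C' + (8 * Real.log ⌈M⌉₊ + C) := by positivity
    have h3 := mul_le_mul_of_nonneg_left h1 h2
    linarith
  · intro k hk
    obtain ⟨j, rfl⟩ : ∃ j, k = j + 1 := ⟨k - 1, by omega⟩
    show -1 * (HR f (j + 1) - HR f (z + 1)) ≤ _
    rw [HR_eq, HR_eq]
    have h1 := hHH f M h z (by omega)
    have h2 := hHH' j (by omega)
    linarith
  · intro k hk
    have : 0 ≤ Real.log k := Real.log_natCast_nonneg k
    positivity

end Pool.Agent.PPC
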