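import Pool.Agent.PPC.SieveDefs

/-!
# Module PPC/SFull: the sieve when `T` has `k` elements

PROOF. `w = 8 ^ (2 ^ J)`, `b = ∏ T`, `P = max T` (`5 ≤ P ≤ w`). Use `Pool.Agent.H14Trans.fundamental 2 16`
with `y₀ = 8`, the set `D = D₁ ∪ D₂` of primes,
`D₁ = {r prime, 5 ≤ r ≤ P, r ∉ T}`, `D₂ = {r prime, 12 b + 2 < r ≤ w, Bad T r}` (disjoint, as `P ≤ b`), and
`bad r m := if r ≤ P then r ∣ m else R r (b m)`, `ω r := if r ≤ P then 1 else ρ r`. `Good`: for `r ∈ D₁` clear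
(`bd 1 0 {0}`, `card_bd`, `bd_periodic`, or directly); for `r ∈ D₂`: `r ∤ b`, so `m ↦ b m` permutes the residues
modulo `r` and the number of bad residues is `ρ r` (`hc.card`, `hc.per`). `ω ≤ 2 < 5 ≤ r`. Masses of the
layers: as `Pool.Agent.TotGap.lay_mass` (`mass_le`; all moduli are primes). So for `X ≥ w ^ s₁`
(`N = X + 1 ≤ 2 X`)
`#{m ∈ Icc 1 X | Full} ≤ 2 N ∏ (1 - ω r / r) ≤ 4 X exp(-∑ ω r / r)`.
Lower bound for the sum (`ℓ = log log P ≥ 0`, `L = log log w`, `z = 12 b + 2 ≤ P^(k+2)`, so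
`log log z ≤ ℓ + log (k + 2)`): `∑_{D₁} 1 / r ≥ ℓ - C - k / 5` (`Pool.Agent.Sv.abs_sum_inv_sub_le`);
if `z ≤ w` then by `hc.avg` `∑_{D₂} ρ r / r ≥ (1 - 2^(-k)) (L - log log z) - C ≥ (1 - 2^(-k)) (L - ℓ) - C'`, if `z > w` then
`L ≤ log log z ≤ ℓ + log (k + 2)` and this also holds (with `0` on the left). So
`∑ ω r / r ≥ ℓ + (1 - 2^(-k)) (L - ℓ) - C'' ≥ (1 - 2^(-k)) L - C''`, and
`exp (-(1 - 2^(-k)) L) = (log w) ^ (-(1 - 2^(-k)))`.
-/

set_option autoImplicit false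

namespace Pool.Agent.PPC

open Finset Classical Pool.Agent.H14Trans Pool.Agent.TotGap

namespace SFull

lemma per_mul {R : ℕ → ℕ → Prop} {ρ : ℕ → ℕ} (hc : Cond R ρ) {r : ℕ} (hr : r.Prime) (h5 : 5 ≤ r)
    (n j : ℕ) : R r (n + r * j) ↔ R r n := by
  induction j with
  | zero => simp
  | succ j ih =>
    rw [Nat.mul_succ, ← add_assoc, hc.per r hr h5]
    exact ih

lemma per_mod {R : ℕ → ℕ → Prop} {ρ : ℕ → ℕ} (hc : Cond R ρ) {r : ℕ} (hr : r.Prime) (h5 : 5 ≤ r)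
    (n : ℕ) : R r (n % r) ↔ R r n := by
  conv_rhs => rw [← Nat.mod_add_div n r]
  exact (per_mul hc hr h5 _ _).symm

lemma card_mul {R : ℕ → ℕ → Prop} {ρ : ℕ → ℕ} (hc : Cond R ρ) {r : ℕ} (hr : r.Prime) (h5 : 5 ≤ r)
    {b : ℕ} (hb : b.Coprime r) : #((range r).filter (fun m => R r (b * m))) = ρ r := by
  rw [← hc.card r hr h5]
  have hinj : Set.InjOn (fun m => b * m % r) (range r : Finset ℕ) := by
    intro m hm m' hm' h
    simp only [coe_range, Set.mem_Iio] at hm hm'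
    have h1 : b * m ≡ b * m' [MOD r] := h
    have h2 : m ≡ m' [MOD r] := Nat.ModEq.cancel_left_of_coprime (by rw [Nat.Coprime, Nat.gcd_comm] at hb; exact hb) h1
    have h3 : m % r = m' % r := h2
    rwa [Nat.mod_eq_of_lt hm, Nat.mod_eq_of_lt hm'] at h3
  have hmaps : ∀ m ∈ range r, b * m % r ∈ range r := fun m _ => mem_range.mpr (Nat.mod_lt _ hr.pos)
  have himg : (range r).image (fun m => b * m % r) = range r := by
    apply eq_of_subset_of_card_le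
    · intro x hx
      rw [mem_image] at hx
      obtain ⟨m, hm, rfl⟩ := hx
      exact hmaps m hm
    · rw [card_image_of_injOn hinj]
  refine card_bij (fun m _ => b * m % r) ?_ ?_ ?_
  · intro m hm
    rw [mem_filter] at hm ⊢
    exact ⟨hmaps m hm.1, (per_mod hc hr h5 _).mpr hm.2⟩
  · intro m hm m' hm' h
    rw [mem_filter] at hm hm'
    exact hinj (by simpa using hm.1) (by simpa using hm'.1) h
  · intro x hx
    rw [mem_filter] at hx
    have hx1 := hx.1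
    rw [← himg, mem_image] at hx1
    obtain ⟨m, hm, rfl⟩ := hx1
    exact ⟨m, mem_filter.mpr ⟨hm, (per_mod hc hr h5 _).mp hx.2⟩, rfl⟩

lemma card_dvd {r : ℕ} (hr : 0 < r) : #((range r).filter (fun m => r ∣ m)) = 1 := by
  rw [card_eq_one]
  refine ⟨0, ?_⟩
  ext x
  simp only [mem_filter, mem_range, mem_singleton]
  constructor
  · rintro ⟨h1, h2⟩
    exact Nat.eq_zero_of_dvd_of_lt h2 h1
  · rintro rfl
    exact ⟨hr, dvd_zero _⟩

/-- small moduli -/
noncomputable def D1 (T : Finset ℕ) (P : ℕ) : Finset ℕ :=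
  (Ico 5 (P + 1)).filter (fun r => r.Prime ∧ r ∉ T)

/-- large moduli -/
noncomputable def D2 (T : Finset ℕ) (z w : ℕ) : Finset ℕ :=
  (Ioc z w).filter (fun r => r.Prime ∧ Bad T r)

lemma le_prod {T : Finset ℕ} (hT : ∀ p ∈ T, p.Prime ∧ 5 ≤ p) {p : ℕ} (hp : p ∈ T) :
    p ≤ ∏ q ∈ T, q :=
  Nat.le_of_dvd (prod_pos fun q hq => (hT q hq).1.pos) (dvd_prod_of_mem _ hp)

lemma cop_prod {T : Finset ℕ} (hT : ∀ p ∈ T, p.Prime ∧ 5 ≤ p) {r : ℕ} (hr : r.Prime)
    (h : ∏ q ∈ T, q < r) : (∏ q ∈ T, q).Coprime r := by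
  rw [Nat.Coprime, Nat.gcd_comm]
  refine (Nat.Prime.coprime_iff_not_dvd hr).mpr fun hd => ?_
  have := Nat.le_of_dvd (prod_pos fun q hq => (hT q hq).1.pos) hd
  omega

lemma good_all {R : ℕ → ℕ → Prop} {ρ : ℕ → ℕ} (hc : Cond R ρ) {T : Finset ℕ}
    (hT : ∀ p ∈ T, p.Prime ∧ 5 ≤ p) {P : ℕ} (hP : P ∈ T) (w : ℕ) :
    Good (fun r m => if r ≤ P then r ∣ m else R r ((∏ p ∈ T, p) * m))
      (fun r => if r ≤ P then 1 else ρ r)
      (D1 T P ∪ D2 T (12 * (∏ p ∈ T, p) + 2) w) := by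
  have hPb := le_prod hT hP
  have hP5 := (hT P hP).2
  have hprime : ∀ r ∈ D1 T P ∪ D2 T (12 * (∏ p ∈ T, p) + 2) w, r.Prime := by
    intro r hr
    simp only [mem_union, D1, D2, mem_filter] at hr
    rcases hr with hr | hr
    · exact hr.2.1
    · exact hr.2.1
  have hlarge : ∀ r ∈ D1 T P ∪ D2 T (12 * (∏ p ∈ T, p) + 2) w, ¬ r ≤ P → 5 ≤ r ∧
      ∏ p ∈ T, p < r := by
    intro r hr hrP
    simp only [mem_union, D1, D2, mem_filter, mem_Ico, mem_Ioc] at hr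
    rcases hr with hr | hr
    · omega
    · omega
  refine ⟨?_, ?_, ?_, ?_⟩
  · intro r hr
    exact (hprime r hr).pos
  · intro r hr s
    by_cases h : r ≤ P
    · simp only [h, if_true]
      exact Nat.dvd_add_self_right
    · simp only [h, if_false]
      have := per_mul hc (hprime r hr) (hlarge r hr h).1 ((∏ p ∈ T, p) * s) (∏ p ∈ T, p)
      rw [mul_add, mul_comm _ r]
      exact this
  · intro r hr
    by_cases h : r ≤ P
    · simp only [h, if_true]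
      exact card_dvd (hprime r hr).pos
    · simp only [h, if_false]
      exact card_mul hc (hprime r hr) (hlarge r hr h).1 (cop_prod hT (hprime r hr) (hlarge r hr h).2)
  · intro r hr q hq hrq
    exact (Nat.coprime_primes (hprime r hr) (hprime q hq)).mpr hrq

lemma lay_mass' {y₀ i : ℕ} (hy₀ : 2 ≤ y₀) {D : Finset ℕ} (hD : ∀ r ∈ D, r.Prime) :
    ∑ b ∈ lay y₀ D i, (1 : ℝ) / b ≤ 16 := by
  have h2 : 2 ≤ y₀ ^ (2 ^ i) := by
    calc 2 ≤ y₀ := hy₀
      _ ≤ y₀ ^ (2 ^ i) := Nat.le_self_pow (by positivity) _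
  refine mass_le (y := y₀ ^ (2 ^ i)) ?_ ?_ h2 ?_ ?_
  · intro b hb
    simp only [lay, mem_filter] at hb
    exact (hD b hb.1).two_le
  · intro b hb c hc hbc
    simp only [lay, mem_filter] at hb hc
    exact (Nat.coprime_primes (hD b hb.1) (hD c hc.1)).mpr hbc
  · intro b hb
    simp only [lay, mem_filter] at hb
    exact hb.2.1
  · intro b hb
    simp only [lay, mem_filter] at hb
    have := hb.2.2
    rwa [pow_succ, pow_mul] at this

lemma log5 : 1 < Real.log 5 := by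
  rw [Real.lt_log_iff_exp_lt (by norm_num)]
  have := Real.exp_one_lt_d9
  linarith

/-- the small moduli -/
lemma sum_D1 {T : Finset ℕ} (hT : ∀ p ∈ T, p.Prime ∧ 5 ≤ p) {P : ℕ} (hP5 : 5 ≤ P) :
    Real.log (Real.log P) - (Real.log (Real.log 5) + 9 / Real.log 5 + #T / 5) ≤
      ∑ r ∈ D1 T P, (1 : ℝ) / r := by
  have h1 := (abs_le.mp (Pool.Agent.Sv.abs_sum_inv_sub_le (n := 5) (m := P + 1) (by norm_num)
    (by omega))).1
  have h2 : ∑ p ∈ (Ico 5 (P + 1)).filter Nat.Prime, (1 : ℝ) / p ≤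
      ∑ r ∈ D1 T P, (1 : ℝ) / r + ∑ r ∈ T, (1 : ℝ) / r := by
    have hsub : (Ico 5 (P + 1)).filter Nat.Prime ⊆ D1 T P ∪ T := by
      intro r hr
      simp only [mem_union, D1, mem_filter] at hr ⊢
      by_cases h : r ∈ T
      · exact Or.inr h
      · exact Or.inl ⟨hr.1, hr.2, h⟩
    refine (sum_le_sum_of_subset_of_nonneg hsub fun _ _ _ => by positivity).trans ?_
    have h3 := sum_union_inter (s₁ := D1 T P) (s₂ := T) (f := fun r : ℕ => (1 : ℝ) / r)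
    have h4 : 0 ≤ ∑ r ∈ D1 T P ∩ T, (1 : ℝ) / r := sum_nonneg fun _ _ => by positivity
    linarith
  have h3 : ∑ r ∈ T, (1 : ℝ) / r ≤ #T / 5 := by
    calc ∑ r ∈ T, (1 : ℝ) / r ≤ ∑ r ∈ T, (1 / 5 : ℝ) := by
          refine sum_le_sum fun r hr => ?_
          refine one_div_le_one_div_of_le (by norm_num) ?_
          exact_mod_cast (hT r hr).2
      _ = #T / 5 := by rw [sum_const, nsmul_eq_mul]; ring
  have hlogP : 1 < Real.log P := lt_of_lt_of_le log5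
    (Real.log_le_log (by norm_num) (by exact_mod_cast hP5))
  have h4 : Real.log (Real.log P) ≤ Real.log (Real.log ((P + 1 : ℕ) : ℝ)) := by
    refine Real.log_le_log (by linarith) (Real.log_le_log ?_ ?_)
    · have : 0 < P := by omega
      exact_mod_cast this
    · push_cast; linarith
  have e5 : ((5 : ℕ) : ℝ) = 5 := by norm_num
  rw [e5] at h1
  linarith

lemma loglog_z {T : Finset ℕ} (hT : ∀ p ∈ T, p.Prime ∧ 5 ≤ p) {P : ℕ} (hP5 : 5 ≤ P)
    (hmax : ∀ p ∈ T, p ≤ P) :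
    Real.log (Real.log ((12 * (∏ p ∈ T, p) + 2 : ℕ) : ℝ)) ≤
      Real.log (Real.log P) + Real.log (#T + 2) := by
  have hb : ∏ p ∈ T, p ≤ P ^ #T := by
    calc ∏ p ∈ T, p ≤ ∏ p ∈ T, P := prod_le_prod' hmax
      _ = P ^ #T := by rw [prod_const]
  have hz : 12 * (∏ p ∈ T, p) + 2 ≤ P ^ (#T + 2) := by
    have h1 : 1 ≤ P ^ #T := Nat.one_le_pow _ _ (by omega)
    calc 12 * (∏ p ∈ T, p) + 2 ≤ 14 * P ^ #T := by omega
      _ ≤ P ^ 2 * P ^ #T := Nat.mul_le_mul_right _ (by nlinarith)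
      _ = P ^ (#T + 2) := by rw [← pow_add, add_comm]
  have hb1 : 1 ≤ ∏ p ∈ T, p := prod_pos fun q hq => (hT q hq).1.pos
  have hlogP : 1 < Real.log P := lt_of_lt_of_le log5
    (Real.log_le_log (by norm_num) (by exact_mod_cast hP5))
  have h1 : Real.log ((12 * (∏ p ∈ T, p) + 2 : ℕ) : ℝ) ≤ (#T + 2) * Real.log P := by
    have h2 : ((12 * (∏ p ∈ T, p) + 2 : ℕ) : ℝ) ≤ (P : ℝ) ^ (#T + 2) := by exact_mod_cast hz
    have h3 := Real.log_le_log (by positivity) h2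
    rw [Real.log_pow] at h3
    push_cast at h3 ⊢
    exact h3
  have h2 : 0 < Real.log ((12 * (∏ p ∈ T, p) + 2 : ℕ) : ℝ) := by
    refine Real.log_pos ?_
    exact_mod_cast (by omega : 1 < 12 * (∏ p ∈ T, p) + 2)
  have h3 := Real.log_le_log h2 h1
  rw [Real.log_mul (by positivity) (by linarith)] at h3
  linarith

lemma sum_all {R : ℕ → ℕ → Prop} {ρ : ℕ → ℕ} (_hc : Cond R ρ) {C : ℝ}
    (hC : ∀ (T : Finset ℕ) (z w : ℕ), (∀ p ∈ T, p.Prime ∧ 5 ≤ p) →
    12 * (∏ p ∈ T, p) + 2 ≤ z → z ≤ w →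
    (1 - 1 / 2 ^ #T) * (Real.log (Real.log w) - Real.log (Real.log z)) - C ≤
      ∑ r ∈ (Ioc z w).filter (fun r => r.Prime ∧ Bad T r), (ρ r : ℝ) / r) {T : Finset ℕ}
    (hT : ∀ p ∈ T, p.Prime ∧ 5 ≤ p) {P : ℕ} (hP : P ∈ T) (hmax : ∀ p ∈ T, p ≤ P) {w : ℕ}
    (hw : 5 ≤ w) :
    (1 - 1 / 2 ^ #T) * Real.log (Real.log w) - (Real.log (Real.log 5) + 9 / Real.log 5 + #T / 5 +
      Real.log (#T + 2) + |C|) ≤
      ∑ r ∈ D1 T P ∪ D2 T (12 * (∏ p ∈ T, p) + 2) w,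
        ((if r ≤ P then 1 else ρ r : ℕ) : ℝ) / r := by
  have hPb := le_prod hT hP
  have hP5 := (hT P hP).2
  have hdisj : Disjoint (D1 T P) (D2 T (12 * (∏ p ∈ T, p) + 2) w) := by
    rw [disjoint_left]
    intro r h1 h2
    simp only [D1, D2, mem_filter, mem_Ico, mem_Ioc] at h1 h2
    omega
  rw [sum_union hdisj]
  have e1 : ∑ r ∈ D1 T P, ((if r ≤ P then 1 else ρ r : ℕ) : ℝ) / r = ∑ r ∈ D1 T P, (1 : ℝ) / r := by
    refine sum_congr rfl fun r hr => ?_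
    simp only [D1, mem_filter, mem_Ico] at hr
    rw [if_pos (by omega)]
    simp
  have e2 : ∑ r ∈ D2 T (12 * (∏ p ∈ T, p) + 2) w, ((if r ≤ P then 1 else ρ r : ℕ) : ℝ) / r =
      ∑ r ∈ D2 T (12 * (∏ p ∈ T, p) + 2) w, (ρ r : ℝ) / r := by
    refine sum_congr rfl fun r hr => ?_
    simp only [D2, mem_filter, mem_Ioc] at hr
    rw [if_neg (by omega)]
  rw [e1, e2]
  have h1 := sum_D1 hT hP5
  have h2 := loglog_z hT hP5 hmax
  have hlogP : 1 < Real.log P := lt_of_lt_of_le log5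
    (Real.log_le_log (by norm_num) (by exact_mod_cast hP5))
  have hlogw : 1 < Real.log w := lt_of_lt_of_le log5
    (Real.log_le_log (by norm_num) (by exact_mod_cast hw))
  have hℓ : 0 ≤ Real.log (Real.log P) := Real.log_nonneg hlogP.le
  have hL : 0 ≤ Real.log (Real.log w) := Real.log_nonneg hlogw.le
  have hlk : 0 ≤ Real.log ((#T : ℝ) + 2) := Real.log_nonneg (by
    have : (0 : ℝ) ≤ #T := by positivity
    linarith)
  set θ : ℝ := 1 - 1 / 2 ^ #T with hθ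
  have hθ1 : θ ≤ 1 := by
    have : (0 : ℝ) ≤ 1 / 2 ^ #T := by positivity
    linarith
  have hθ0 : 0 ≤ θ := by
    have : (1 : ℝ) / 2 ^ #T ≤ 1 := by
      rw [div_le_one (by positivity)]
      exact one_le_pow₀ (by norm_num)
    linarith
  have hCabs := le_abs_self C
  have hCabs0 := abs_nonneg C
  rcases le_or_gt (12 * (∏ p ∈ T, p) + 2) w with hzw | hzw
  · have h3 := hC T _ w hT le_rfl hzw
    have h4 : θ * Real.log (Real.log ((12 * (∏ p ∈ T, p) + 2 : ℕ) : ℝ)) ≤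
        θ * (Real.log (Real.log P) + Real.log (#T + 2)) := mul_le_mul_of_nonneg_left h2 hθ0
    have h5 : θ * (Real.log (Real.log P) + Real.log (#T + 2)) ≤
        Real.log (Real.log P) + Real.log (#T + 2) := by
      have : 0 ≤ Real.log (Real.log P) + Real.log (#T + 2) := by linarith
      nlinarith
    have h6 : θ * (Real.log (Real.log w) - Real.log (Real.log ((12 * (∏ p ∈ T, p) + 2 : ℕ) : ℝ))) =
        θ * Real.log (Real.log w) - θ * Real.log (Real.log ((12 * (∏ p ∈ T, p) + 2 : ℕ) : ℝ)) := by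
      ring
    rw [h6] at h3
    unfold D2
    linarith
  · have h3 : 0 ≤ ∑ r ∈ D2 T (12 * (∏ p ∈ T, p) + 2) w, (ρ r : ℝ) / r :=
      sum_nonneg fun _ _ => by positivity
    have h4 : Real.log (Real.log w) ≤ Real.log (Real.log ((12 * (∏ p ∈ T, p) + 2 : ℕ) : ℝ)) := by
      refine Real.log_le_log (by linarith) (Real.log_le_log ?_ ?_)
      · exact_mod_cast (by omega : 0 < w)
      · exact_mod_cast hzw.le
    have h5 : θ * Real.log (Real.log w) ≤ Real.log (Real.log w) := by nlinarith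
    linarith

end SFull

open SFull in
theorem sieve_full {R : ℕ → ℕ → Prop} {ρ : ℕ → ℕ} (hc : Cond R ρ) (k : ℕ) (hk : 1 ≤ k) :
    ∃ C : ℝ, 0 < C ∧ ∃ s J₀ : ℕ, ∀ J ≥ J₀, ∀ T : Finset ℕ, #T = k →
      (∀ p ∈ T, p.Prime ∧ 5 ≤ p ∧ p ≤ 8 ^ (2 ^ J)) → ∀ X : ℕ, (8 ^ (2 ^ J)) ^ s ≤ X →
      (#((Icc 1 X).filter (Full R T (8 ^ (2 ^ J)))) : ℝ) ≤
        C * X / (Real.log ((8 ^ (2 ^ J) : ℕ) : ℝ)) ^ (1 - 1 / 2 ^ k : ℝ) := by
  obtain ⟨C, hC⟩ := hc.avg
  obtain ⟨s₁, hs₁, H⟩ := fundamental 2 16 (by norm_num)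
  obtain ⟨J₀, HJ⟩ := H 8 (by norm_num)
  set A : ℝ := Real.log (Real.log 5) + 9 / Real.log 5 + k / 5 + Real.log (k + 2) + |C| with hA
  refine ⟨4 * Real.exp A, by positivity, s₁, J₀, fun J hJ T hTk hT X hX => ?_⟩
  set w := 8 ^ (2 ^ J) with hw
  have hw8 : 8 ≤ w := Nat.le_self_pow (by positivity) _
  have hTne : T.Nonempty := by
    rw [← card_pos]; omega
  set P := T.max' hTne with hPdef
  have hP : P ∈ T := max'_mem _ _
  have hmax : ∀ p ∈ T, p ≤ P := fun p hp => le_max' _ _ hp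
  have hT' : ∀ p ∈ T, p.Prime ∧ 5 ≤ p := fun p hp => ⟨(hT p hp).1, (hT p hp).2.1⟩
  have hPw : P ≤ w := (hT P hP).2.2
  have hPb := le_prod hT' hP
  have hP5 := (hT' P hP).2
  set b := ∏ p ∈ T, p with hb
  set D := D1 T P ∪ D2 T (12 * b + 2) w with hD
  have hDmem : ∀ r ∈ D, r.Prime ∧ 5 ≤ r ∧ r ≤ w := by
    intro r hr
    simp only [hD, mem_union, D1, D2, mem_filter, mem_Ico, mem_Ioc] at hr
    rcases hr with hr | hr
    · exact ⟨hr.2.1, hr.1.1, by omega⟩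
    · exact ⟨hr.2.1, by omega, hr.1.2⟩
  obtain ⟨_, hN⟩ := HJ J hJ (fun r m => if r ≤ P then r ∣ m else R r (b * m))
      (fun r => if r ≤ P then 1 else ρ r) D (good_all hc hT' hP w)
      (fun r hr => by
        obtain ⟨h1, h2, h3⟩ := hDmem r hr
        have := hc.le r
        show (if r ≤ P then 1 else ρ r) ≤ 2 ∧ (if r ≤ P then 1 else ρ r) < r
        split_ifs <;> omega)
      (fun r hr => (hDmem r hr).2.2)
      (fun i _ => lay_mass' (by norm_num) fun r hr => (hDmem r hr).1)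
  have hub := (hN (X + 1) (hX.trans (Nat.le_succ X))).2
  have hcard : #((Icc 1 X).filter (Full R T w)) ≤ #((range (X + 1)).filter
      (Sift (fun r m => if r ≤ P then r ∣ m else R r (b * m)) D)) := by
    refine card_le_card ?_
    intro m hm
    simp only [mem_filter, mem_Icc, mem_range] at hm ⊢
    refine ⟨by omega, ?_⟩
    intro r hr hbad
    simp only [hD, mem_union, D1, D2, mem_filter, mem_Ico, mem_Ioc] at hr
    obtain ⟨hm1, hF1, hF2⟩ := hm
    rcases hr with hr | hr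
    · rw [if_pos (by omega)] at hbad
      exact hF1 r hr.2.1 hr.1.1 ⟨P, hP, by omega⟩ hr.2.2 hbad
    · rw [if_neg (by omega)] at hbad
      exact hF2 r hr.2.1 hr.1.1 hr.1.2 hr.2.2 hbad
  have hprod : ∏ r ∈ D, (1 - ((if r ≤ P then 1 else ρ r : ℕ) : ℝ) / r) ≤
      Real.exp (-∑ r ∈ D, ((if r ≤ P then 1 else ρ r : ℕ) : ℝ) / r) := by
    rw [← sum_neg_distrib, Real.exp_sum]
    refine prod_le_prod (fun r hr => ?_) (fun r _ => ?_)
    · obtain ⟨h1, h2, h3⟩ := hDmem r hr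
      have h4 := hc.le r
      have h5 : (if r ≤ P then 1 else ρ r) ≤ r := by split_ifs <;> omega
      have h6 : (0 : ℝ) < r := by exact_mod_cast h1.pos
      rw [sub_nonneg, div_le_one h6]
      exact_mod_cast h5
    · have := Real.add_one_le_exp (-(((if r ≤ P then 1 else ρ r : ℕ) : ℝ) / r)); linarith
  have hsum := sum_all hc hC hT' hP hmax (w := w) (by omega)
  rw [hTk] at hsum
  have hlogw : 1 < Real.log w := lt_of_lt_of_le log5
    (Real.log_le_log (by norm_num) (by exact_mod_cast (by omega : 5 ≤ w)))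
  have hX1 : 1 ≤ X := le_trans (Nat.one_le_pow _ _ (by omega)) hX
  have hX1' : (1 : ℝ) ≤ X := by exact_mod_cast hX1
  have hexp : Real.exp (-∑ r ∈ D, ((if r ≤ P then 1 else ρ r : ℕ) : ℝ) / r) ≤
      Real.exp A / (Real.log w) ^ (1 - 1 / 2 ^ k : ℝ) := by
    rw [Real.rpow_def_of_pos (by linarith), ← Real.exp_sub]
    refine Real.exp_le_exp.mpr ?_
    have : Real.log (Real.log w) * (1 - 1 / 2 ^ k : ℝ) = (1 - 1 / 2 ^ k) * Real.log (Real.log w) := by
      ring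
    rw [this]
    linarith
  calc (#((Icc 1 X).filter (Full R T w)) : ℝ)
      ≤ (#((range (X + 1)).filter
      (Sift (fun r m => if r ≤ P then r ∣ m else R r (b * m)) D)) : ℝ) := by exact_mod_cast hcard
    _ ≤ 2 * (X + 1 : ℕ) * ∏ r ∈ D, (1 - ((if r ≤ P then 1 else ρ r : ℕ) : ℝ) / r) := hub
    _ ≤ 2 * (X + 1 : ℕ) * (Real.exp A / (Real.log w) ^ (1 - 1 / 2 ^ k : ℝ)) :=
        mul_le_mul_of_nonneg_left (hprod.trans hexp) (by positivity)
    _ ≤ (4 * X) * (Real.exp A / (Real.log w) ^ (1 - 1 / 2 ^ k : ℝ)) := by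
        refine mul_le_mul_of_nonneg_right ?_ (by positivity)
        push_cast
        linarith
    _ = 4 * Real.exp A * X / (Real.log w) ^ (1 - 1 / 2 ^ k : ℝ) := by ring

end Pool.Agent.PPC
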