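import Pool.Agent.PPC.Defs
import Pool.Agent.TotGap.BT

/-!
# The two sieve conditions
-/

set_option autoImplicit false

namespace Pool.Agent.PPC

open Finset Classical

/-- The sieve condition on the cofactor `m` of `n = (∏ T) m` when `T` is the set of the `k` smallest
prime divisors `≥ 5` of `n`. -/
def Full (R : ℕ → ℕ → Prop) (T : Finset ℕ) (w m : ℕ) : Prop :=
  (∀ r : ℕ, r.Prime → 5 ≤ r → (∃ p ∈ T, r ≤ p) → r ∉ T → ¬ r ∣ m) ∧
  ∀ r : ℕ, r.Prime → 12 * (∏ p ∈ T, p) + 2 < r → r ≤ w → Bad T r → ¬ R r ((∏ p ∈ T, p) * m)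

/-- The sieve condition on the cofactor `m` of `n = (∏ T) m` when `T` is the set of all
prime divisors in `[5, w]` of `n`. -/
def Few (T : Finset ℕ) (w m : ℕ) : Prop :=
  ∀ r : ℕ, r.Prime → 5 ≤ r → r ≤ w → r ∉ T → ¬ r ∣ m

end Pool.Agent.PPC
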