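import Pool.Agent.PPC.Lim
import Pool.Agent.PPC.Low
import Pool.Agent.PPC.Cheb

/-!
# Module PPC/Up: uniform upper bound for `∑_{p ≤ T} f p log p / p`

PROOF. Let `K = ⌈M⌉₊ ≥ 1`, `t = T K^8`; `lam` from `exists_lam`, `lam ≥ 1 / (256 M)` (`lam_ge`).
Since `gg f n ≥ 0`: `∑_{n ≤ t} gg f n log n ≤ GG f t log t ≤ (lam t + 6 √(M t)) log t`.
By `sum_gg_log`, dropping nonnegative terms (`1 + f e ≥ 0`, `GG ≥ 0`),
`∑_{n ≤ t} gg f n log n ≥ ∑_{p ≤ T} log p (1 + f p) GG f (t / p)`, and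
`GG f (t / p) ≥ lam ⌊t / p⌋ - 6 √(M t / p) ≥ lam t / p - lam - 6 √(M t / p)` (as `t / p ≥ 1`).
Divide by `lam t`:
`∑_{p ≤ T} log p (1 + f p) / p ≤ log t + (6 √M / lam) log t / √t + 2 θ(T) / t
   + (12 √M / lam) (∑_{p ≤ T} log p / √p) / √t`.
Here `θ(T) = ∑_{p ≤ T} log p ≤ C T` (Chebyshev), `∑_{p ≤ T} log p / √p ≤ C √T` (`sum_sqrt_le`, `Λ p = log p`),
`√M / lam ≤ 256 K²`, `√t = √T K⁴`, `log t ≤ 4 t^(1/4)` and `t^(1/4) ≥ K²`; so
`∑_{p ≤ T} log p (1 + f p) / p ≤ log T + 8 log K + C'` with an absolute constant. Subtract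
`∑_{p ≤ T} log p / p ≥ log T - 3` (`Pool.Agent.Sv.le_A`, `Pool.Agent.Sv.filter_range_eq`).
-/

set_option autoImplicit false

namespace Pool.Agent.PPC

open Finset
open scoped ArithmeticFunction.vonMangoldt

/-- The main inequality before dividing by `lam t`. -/
private lemma main_ineq {f : ℕ → ℝ} {M : ℝ} (h : Ch f M) {lam : ℝ} (hlam : 0 < lam)
    (hl : ∀ u : ℕ, 1 ≤ u → |LL f u - lam| ≤ 2 * M / u) {T t : ℕ} (hT : 1 ≤ T) (hTt : T ≤ t) :
    lam * t * (∑ p ∈ (Icc 1 T).filter Nat.Prime, (1 + f p) * Real.log p / p) ≤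
      (lam * t + 6 * √(M * t)) * Real.log t +
      2 * lam * (∑ p ∈ (Icc 1 T).filter Nat.Prime, Real.log p) +
      12 * √(M * t) * (∑ p ∈ (Icc 1 T).filter Nat.Prime, Real.log p / √(p : ℝ)) := by
  have hM := h.one_le
  have ht : 1 ≤ t := hT.trans hTt
  have htr : (1 : ℝ) ≤ t := by exact_mod_cast ht
  have hgg0 : ∀ n, 0 ≤ gg f n := fun n => gg_nonneg h n
  have hGG0 : ∀ n, 0 ≤ GG f n := fun n => Finset.sum_nonneg fun i _ => hgg0 i
  have hf : ∀ n, 0 ≤ 1 + f n ∧ 1 + f n ≤ 2 := by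
    intro n
    have := abs_le.mp (h.abs_le n)
    constructor <;> linarith [this.1, this.2]
  -- upper bound
  have hup : ∑ n ∈ Icc 1 t, gg f n * Real.log n ≤ (lam * t + 6 * √(M * t)) * Real.log t := by
    have h1 : ∑ n ∈ Icc 1 t, gg f n * Real.log n ≤ GG f t * Real.log t := by
      unfold GG
      rw [Finset.sum_mul]
      refine Finset.sum_le_sum fun n hn => ?_
      rw [Finset.mem_Icc] at hn
      refine mul_le_mul_of_nonneg_left ?_ (hgg0 n)
      apply Real.log_le_log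
      · exact_mod_cast hn.1
      · exact_mod_cast hn.2
    refine h1.trans (mul_le_mul_of_nonneg_right ?_ (Real.log_nonneg htr))
    have := (abs_le.mp (GG_asymp h hl ht)).2
    linarith
  -- lower bound
  have hlow : ∑ p ∈ (Icc 1 T).filter Nat.Prime, Real.log p * (1 + f p) * GG f (t / p) ≤
      ∑ n ∈ Icc 1 t, gg f n * Real.log n := by
    rw [sum_gg_log h t]
    calc ∑ p ∈ (Icc 1 T).filter Nat.Prime, Real.log p * (1 + f p) * GG f (t / p)
        = ∑ p ∈ (Icc 1 T).filter Nat.Prime, Λ p * (1 + f p) * GG f (t / p) := by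
          refine Finset.sum_congr rfl fun p hp => ?_
          rw [ArithmeticFunction.vonMangoldt_apply_prime (Finset.mem_filter.mp hp).2]
      _ ≤ ∑ e ∈ Icc 1 t, Λ e * (1 + f e) * GG f (t / e) := by
          refine Finset.sum_le_sum_of_subset_of_nonneg ?_ ?_
          · intro p hp
            rw [Finset.mem_filter, Finset.mem_Icc] at hp
            rw [Finset.mem_Icc]
            exact ⟨hp.1.1, hp.1.2.trans hTt⟩
          · intro e _ _
            exact mul_nonneg (mul_nonneg ArithmeticFunction.vonMangoldt_nonneg (hf e).1) (hGG0 _)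
  have hterm : ∀ p ∈ (Icc 1 T).filter Nat.Prime,
      lam * t * ((1 + f p) * Real.log p / p) - 2 * lam * Real.log p -
        12 * √(M * t) * (Real.log p / √(p : ℝ)) ≤ Real.log p * (1 + f p) * GG f (t / p) := by
    intro p hp
    rw [Finset.mem_filter, Finset.mem_Icc] at hp
    obtain ⟨⟨hp1, hpT⟩, hpp⟩ := hp
    have hpr : (1 : ℝ) ≤ p := by exact_mod_cast hp1
    have hp0 : (0 : ℝ) < p := by linarith
    have hlogp : 0 ≤ Real.log p := Real.log_nonneg hpr
    have hdiv : 1 ≤ t / p := (Nat.one_le_div_iff (by omega)).mpr (hpT.trans hTt)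
    have h1 := (abs_le.mp (GG_asymp h hl hdiv)).1
    have h2 : ((t / p : ℕ) : ℝ) ≤ (t : ℝ) / p := Nat.cast_div_le
    have h3 : (t : ℝ) / p - 1 ≤ ((t / p : ℕ) : ℝ) := by
      have h4 : (t : ℝ) < p * (((t / p : ℕ) : ℝ) + 1) := by
        exact_mod_cast Nat.lt_mul_div_succ t (by omega : 0 < p)
      rw [sub_le_iff_le_add, div_le_iff₀ hp0]
      linarith
    have h5 : √(M * ((t / p : ℕ) : ℝ)) ≤ √(M * t) / √(p : ℝ) := by
      rw [← Real.sqrt_div (by positivity)]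
      apply Real.sqrt_le_sqrt
      rw [mul_div_assoc]
      exact mul_le_mul_of_nonneg_left h2 (by linarith)
    have h6 : lam * (t / p - 1) - 6 * (√(M * t) / √(p : ℝ)) ≤ GG f (t / p) := by
      have := mul_le_mul_of_nonneg_left h3 hlam.le
      linarith
    have hc0 : 0 ≤ Real.log p * (1 + f p) := mul_nonneg hlogp (hf p).1
    have hc2 : Real.log p * (1 + f p) ≤ Real.log p * 2 :=
      mul_le_mul_of_nonneg_left (hf p).2 hlogp
    have h7 := mul_le_mul_of_nonneg_left h6 hc0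
    refine le_trans ?_ h7
    have h8 : Real.log p * (1 + f p) * lam ≤ Real.log p * 2 * lam :=
      mul_le_mul_of_nonneg_right hc2 hlam.le
    have h9 : Real.log p * (1 + f p) * (6 * (√(M * t) / √(p : ℝ))) ≤
        Real.log p * 2 * (6 * (√(M * t) / √(p : ℝ))) :=
      mul_le_mul_of_nonneg_right hc2 (by positivity)
    have e1 : lam * t * ((1 + f p) * Real.log p / p) =
        Real.log p * (1 + f p) * (lam * (t / p)) := by ring
    have e2 : 12 * √(M * t) * (Real.log p / √(p : ℝ)) =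
        Real.log p * 2 * (6 * (√(M * t) / √(p : ℝ))) := by ring
    rw [e1, e2]
    linarith
  have hsum := Finset.sum_le_sum hterm
  rw [Finset.sum_sub_distrib, Finset.sum_sub_distrib, ← Finset.mul_sum, ← Finset.mul_sum,
    ← Finset.mul_sum] at hsum
  linarith

theorem HH_le : ∃ C : ℝ, 0 < C ∧ ∀ (f : ℕ → ℝ) (M : ℝ), Ch f M → ∀ T : ℕ, 1 ≤ T →
    HH f T ≤ 8 * Real.log ⌈M⌉₊ + C := by
  obtain ⟨C, hC, hQ⟩ := sum_sqrt_le
  refine ⟨15363 + 3074 * C, by positivity, ?_⟩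
  intro f M h T hT
  have hM := h.one_le
  obtain ⟨lam, hlim, hl⟩ := exists_lam h
  have hlam := lam_ge h hlim
  have hlam0 : 0 < lam := lt_of_lt_of_le (by positivity) hlam
  obtain ⟨K, hK⟩ : ∃ K : ℕ, ⌈M⌉₊ = K := ⟨_, rfl⟩
  rw [hK]
  have hMK : M ≤ K := by rw [← hK]; exact Nat.le_ceil M
  have hK1r : (1 : ℝ) ≤ K := hM.trans hMK
  have hK1 : 1 ≤ K := by exact_mod_cast hK1r
  have hTr : (1 : ℝ) ≤ T := by exact_mod_cast hT
  have hK8 : 1 ≤ K ^ 8 := Nat.one_le_pow _ _ hK1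
  have hmain := main_ineq h hlam0 hl hT (Nat.le_mul_of_pos_right T (by omega : 0 < K ^ 8))
  set P := (Icc 1 T).filter Nat.Prime with hP
  set S := ∑ p ∈ P, (1 + f p) * Real.log p / p with hS
  set Q := ∑ p ∈ P, Real.log p / √(p : ℝ) with hQd
  -- bounds
  have hsT : (1 : ℝ) ≤ √(T : ℝ) := Real.one_le_sqrt.mpr hTr
  have hQ' : Q ≤ C * √(T : ℝ) := by
    refine le_trans ?_ (hQ T)
    calc Q = ∑ p ∈ P, Λ p / √(p : ℝ) := by
          refine Finset.sum_congr rfl fun p hp => ?_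
          rw [ArithmeticFunction.vonMangoldt_apply_prime (Finset.mem_filter.mp hp).2]
      _ ≤ _ := by
          refine Finset.sum_le_sum_of_subset_of_nonneg (Finset.filter_subset _ _) ?_
          intro e _ _
          exact div_nonneg ArithmeticFunction.vonMangoldt_nonneg (Real.sqrt_nonneg _)
  have hθ : ∑ p ∈ P, Real.log p ≤ C * T := by
    have h1 : ∑ p ∈ P, Real.log p ≤ √(T : ℝ) * Q := by
      rw [hQd, Finset.mul_sum]
      refine Finset.sum_le_sum fun p hp => ?_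
      rw [hP, Finset.mem_filter, Finset.mem_Icc] at hp
      have hpr : (1 : ℝ) ≤ p := by exact_mod_cast hp.1.1
      have hlog : 0 ≤ Real.log p := Real.log_nonneg hpr
      have hsp : 0 < √(p : ℝ) := Real.sqrt_pos.mpr (by linarith)
      have h2 : √(p : ℝ) ≤ √(T : ℝ) := Real.sqrt_le_sqrt (by exact_mod_cast hp.1.2)
      rw [mul_div_assoc', le_div_iff₀ hsp, mul_comm]
      exact mul_le_mul_of_nonneg_right h2 hlog
    have h3 : √(T : ℝ) * Q ≤ √(T : ℝ) * (C * √(T : ℝ)) :=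
      mul_le_mul_of_nonneg_left hQ' (Real.sqrt_nonneg _)
    have h4 : √(T : ℝ) * √(T : ℝ) = T := Real.mul_self_sqrt (by linarith)
    nlinarith
  have hlogT : Real.log T ≤ 2 * √(T : ℝ) := by
    have h1 : Real.log T = 2 * Real.log (√(T : ℝ)) := by
      rw [Real.log_sqrt (by linarith)]; ring
    have h2 := Real.log_le_sub_one_of_pos (by linarith : (0 : ℝ) < √(T : ℝ))
    rw [h1]
    linarith
  have hlogK0 : 0 ≤ Real.log K := Real.log_nonneg hK1r
  have hlogT0 : 0 ≤ Real.log T := Real.log_nonneg hTr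
  have hlogK : Real.log K ≤ K := (Real.log_le_sub_one_of_pos (by linarith)).trans (by linarith)
  have hcast : ((T * K ^ 8 : ℕ) : ℝ) = T * (K : ℝ) ^ 8 := by push_cast; ring
  have hlogt : Real.log ((T * K ^ 8 : ℕ) : ℝ) = Real.log T + 8 * Real.log K := by
    rw [hcast, Real.log_mul (by positivity) (by positivity), Real.log_pow]
    push_cast
    ring
  have hsqrt : √(M * ((T * K ^ 8 : ℕ) : ℝ)) = √M * (√(T : ℝ) * (K : ℝ) ^ 4) := by
    rw [hcast, Real.sqrt_mul (by linarith), Real.sqrt_mul (by linarith)]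
    congr 2
    rw [show (K : ℝ) ^ 8 = ((K : ℝ) ^ 4) ^ 2 by ring]
    exact Real.sqrt_sq (by positivity)
  rw [hlogt, hsqrt, hcast] at hmain
  -- the quantity `√M ≤ 256 K² lam`
  have hsM : √M ≤ 256 * (K : ℝ) ^ 2 * lam := by
    have h1 : √M ≤ K := by
      have : √M ≤ M := by
        rw [Real.sqrt_le_left (by linarith)]
        nlinarith
      linarith
    have h2 : 1 ≤ 256 * M * lam := by
      rw [div_le_iff₀ (by positivity)] at hlam
      linarith
    have h3 : 256 * M * lam ≤ 256 * K * lam :=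
      mul_le_mul_of_nonneg_right (by linarith) hlam0.le
    have h4 : (K : ℝ) * 1 ≤ K * (256 * K * lam) :=
      mul_le_mul_of_nonneg_left (h2.trans h3) (by linarith)
    calc √M ≤ K * 1 := by linarith
      _ ≤ K * (256 * K * lam) := h4
      _ = 256 * (K : ℝ) ^ 2 * lam := by ring
  have hsM0 : 0 ≤ √M := Real.sqrt_nonneg _
  -- each error term is at most a constant times `lam T K^8`
  have hTT : √(T : ℝ) * √(T : ℝ) = T := Real.mul_self_sqrt (by linarith)
  have hKK : (K : ℝ) ≤ (K : ℝ) ^ 2 := by nlinarith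
  have hK2 : (1 : ℝ) ≤ (K : ℝ) ^ 2 := by nlinarith
  have hlt : Real.log T + 8 * Real.log K ≤ 10 * (√(T : ℝ) * (K : ℝ) ^ 2) := by
    have h1 : 2 * √(T : ℝ) ≤ 2 * (√(T : ℝ) * (K : ℝ) ^ 2) := by nlinarith
    have h2 : 8 * (K : ℝ) ≤ 8 * (√(T : ℝ) * (K : ℝ) ^ 2) := by nlinarith
    linarith
  have e1 : 6 * (√M * (√(T : ℝ) * (K : ℝ) ^ 4)) * (Real.log T + 8 * Real.log K) ≤
      lam * (T * (K : ℝ) ^ 8) * 15360 := by
    calc 6 * (√M * (√(T : ℝ) * (K : ℝ) ^ 4)) * (Real.log T + 8 * Real.log K)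
        ≤ 6 * ((256 * (K : ℝ) ^ 2 * lam) * (√(T : ℝ) * (K : ℝ) ^ 4)) *
          (10 * (√(T : ℝ) * (K : ℝ) ^ 2)) := by
          refine mul_le_mul ?_ hlt (by positivity) (by positivity)
          refine mul_le_mul_of_nonneg_left ?_ (by norm_num)
          exact mul_le_mul_of_nonneg_right hsM (by positivity)
      _ = lam * ((√(T : ℝ) * √(T : ℝ)) * (K : ℝ) ^ 8) * 15360 := by ring
      _ = lam * (T * (K : ℝ) ^ 8) * 15360 := by rw [hTT]
  have hK81 : (1 : ℝ) ≤ (K : ℝ) ^ 8 := one_le_pow₀ hK1r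
  have e2 : 2 * lam * (∑ p ∈ P, Real.log p) ≤ lam * (T * (K : ℝ) ^ 8) * (2 * C) := by
    calc 2 * lam * (∑ p ∈ P, Real.log p) ≤ 2 * lam * (C * T) :=
          mul_le_mul_of_nonneg_left hθ (by positivity)
      _ = lam * T * (2 * C) * 1 := by ring
      _ ≤ lam * T * (2 * C) * (K : ℝ) ^ 8 :=
          mul_le_mul_of_nonneg_left hK81 (by positivity)
      _ = lam * (T * (K : ℝ) ^ 8) * (2 * C) := by ring
  have e3 : 12 * (√M * (√(T : ℝ) * (K : ℝ) ^ 4)) * Q ≤
      lam * (T * (K : ℝ) ^ 8) * (3072 * C) := by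
    have h0 : (K : ℝ) ^ 6 ≤ (K : ℝ) ^ 8 := pow_le_pow_right₀ hK1r (by norm_num)
    calc 12 * (√M * (√(T : ℝ) * (K : ℝ) ^ 4)) * Q
        ≤ 12 * (√M * (√(T : ℝ) * (K : ℝ) ^ 4)) * (C * √(T : ℝ)) :=
          mul_le_mul_of_nonneg_left hQ' (by positivity)
      _ ≤ 12 * ((256 * (K : ℝ) ^ 2 * lam) * (√(T : ℝ) * (K : ℝ) ^ 4)) * (C * √(T : ℝ)) := by
          refine mul_le_mul_of_nonneg_right ?_ (by positivity)
          refine mul_le_mul_of_nonneg_left ?_ (by norm_num)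
          exact mul_le_mul_of_nonneg_right hsM (by positivity)
      _ = lam * (√(T : ℝ) * √(T : ℝ)) * (3072 * C) * (K : ℝ) ^ 6 := by ring
      _ ≤ lam * (√(T : ℝ) * √(T : ℝ)) * (3072 * C) * (K : ℝ) ^ 8 :=
          mul_le_mul_of_nonneg_left h0 (by positivity)
      _ = lam * (T * (K : ℝ) ^ 8) * (3072 * C) := by rw [hTT]; ring
  have hS' : S ≤ Real.log T + 8 * Real.log K + 15360 + 2 * C + 3072 * C := by
    have hpos : 0 < lam * (T * (K : ℝ) ^ 8) := by positivity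
    refine le_of_mul_le_mul_left ?_ hpos
    linarith
  -- subtract Mertens
  have hA : Real.log T - 3 ≤ ∑ p ∈ P, Real.log p / p := by
    have h1 := Pool.Agent.Sv.le_A T hT
    unfold Pool.Agent.Sv.A at h1
    rw [Pool.Agent.Sv.filter_range_eq] at h1
    have h2 : (Icc 2 T).filter Nat.Prime = P := by
      rw [hP]
      ext p
      simp only [mem_filter, mem_Icc]
      constructor
      · rintro ⟨⟨h1, h2⟩, h3⟩
        exact ⟨⟨by omega, h2⟩, h3⟩
      · rintro ⟨⟨h1, h2⟩, h3⟩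
        exact ⟨⟨h3.two_le, h2⟩, h3⟩
    rw [h2] at h1
    exact h1
  have hHH : HH f T = S - ∑ p ∈ P, Real.log p / p := by
    unfold HH
    rw [hS, ← Finset.sum_sub_distrib]
    refine Finset.sum_congr rfl fun p _ => ?_
    ring
  rw [hHH]
  linarith

end Pool.Agent.PPC
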